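import Pool.Agent.Y196.JX.Pair

/-!
# The product over one period
-/

set_option autoImplicit false

namespace Pool.Agent.Y196.JX

open Finset H942JM

/-- A product whose first factors are at least `e` and whose later factors are at least
`1 - B / 2 ^ t`. -/
lemma prod_low {F : ℕ → ℝ} {e B : ℝ} (he : 0 < e) {t₀ : ℕ} (hB : 0 ≤ B)
    (hBt : B * (1 / 2) ^ t₀ ≤ 1 / 4) (h1 : ∀ t < t₀, e ≤ F t) :
    ∀ s : ℕ, (∀ t, t₀ ≤ t → t < t₀ + s → 1 - B * (1 / 2) ^ t ≤ F t) →
      e ^ t₀ * (1 - 2 * B * (1 / 2) ^ t₀ + 2 * B * (1 / 2) ^ (t₀ + s)) ≤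
        ∏ t ∈ range (t₀ + s), F t := by
  intro s
  induction s with
  | zero =>
    intro _
    rw [add_zero]
    have h : e ^ t₀ ≤ ∏ t ∈ range t₀, F t := by
      calc e ^ t₀ = ∏ _t ∈ range t₀, e := by rw [Finset.prod_const, Finset.card_range]
        _ ≤ _ := Finset.prod_le_prod (fun _ _ => he.le) fun t ht => h1 t (Finset.mem_range.mp ht)
    have e2 : 1 - 2 * B * (1 / 2) ^ t₀ + 2 * B * (1 / 2) ^ t₀ = (1 : ℝ) := by ring
    rw [e2, mul_one]
    exact h
  | succ s ih =>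
    intro h2
    have ih' := ih fun t ht hts => h2 t ht (by omega)
    rw [← add_assoc, Finset.prod_range_succ]
    have h3 := h2 (t₀ + s) (by omega) (by omega)
    set z : ℝ := (1 / 2 : ℝ) ^ (t₀ + s) with hz
    set w : ℝ := (1 / 2 : ℝ) ^ t₀ with hw
    have hz0 : 0 < z := by positivity
    have hzw : z ≤ w := pow_le_pow_of_le_one (by norm_num) (by norm_num) (by omega)
    have hBz : B * z ≤ 1 / 4 := (mul_le_mul_of_nonneg_left hzw hB).trans hBt
    have hBz0 : 0 ≤ B * z := by positivity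
    have hsucc : (1 / 2 : ℝ) ^ (t₀ + s + 1) = z / 2 := by rw [pow_succ]; ring
    rw [hsucc]
    have he0 : 0 < e ^ t₀ := by positivity
    have hpos : 0 ≤ 1 - 2 * B * w + 2 * B * z := by nlinarith
    have h4 : 1 - 2 * B * w + 2 * B * (z / 2) ≤ (1 - 2 * B * w + 2 * B * z) * (1 - B * z) := by
      have h5 : 2 * (B * w) - 2 * (B * z) ≥ 0 := by nlinarith
      nlinarith [mul_nonneg h5 hBz0]
    calc e ^ t₀ * (1 - 2 * B * w + 2 * B * (z / 2))
        ≤ e ^ t₀ * ((1 - 2 * B * w + 2 * B * z) * (1 - B * z)) :=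
          mul_le_mul_of_nonneg_left h4 he0.le
      _ = (e ^ t₀ * (1 - 2 * B * w + 2 * B * z)) * (1 - B * z) := by ring
      _ ≤ (∏ t ∈ range (t₀ + s), F t) * (1 - B * z) :=
          mul_le_mul_of_nonneg_right ih' (by linarith)
      _ ≤ _ := by
          refine mul_le_mul_of_nonneg_left h3 ?_
          exact le_trans (mul_nonneg he0.le hpos) ih'

theorem core : S_CORE := by
  intro M K a c hG ha hc hMpos
  have hK : 0 ≤ K := by linarith [hG.one_le]
  have hcR : (1 : ℝ) ≤ c := by exact_mod_cast hc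
  set B : ℝ := K * c with hBdef
  have hB0 : 0 ≤ B := by positivity
  have hK1 := hG.one_le
  have hB1 : 1 ≤ B := by nlinarith
  -- choice of t₀
  obtain ⟨t₀, ht₀⟩ : ∃ t₀ : ℕ, B * (1 / 2) ^ t₀ ≤ 1 / 4 := by
    obtain ⟨t, ht⟩ := exists_pow_lt_of_lt_one (show (0 : ℝ) < 1 / (4 * B) by positivity)
      (show (1 / 2 : ℝ) < 1 by norm_num)
    refine ⟨t, ?_⟩
    have h1 : B * (1 / 2) ^ t ≤ B * (1 / (4 * B)) := mul_le_mul_of_nonneg_left ht.le hB0
    have h2 : B * (1 / (4 * B)) = 1 / 4 := by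
      have : B ≠ 0 := by positivity
      field_simp
    linarith
  -- choice of e
  obtain ⟨e, he0, he⟩ : ∃ e : ℝ, 0 < e ∧ ∀ t < t₀, e ≤ M ((c : ℝ) / (a : ℝ) ^ (t + 1)) := by
    clear ht₀
    induction t₀ with
    | zero => exact ⟨1, one_pos, fun t ht => absurd ht (Nat.not_lt_zero t)⟩
    | succ t₀ ih =>
      obtain ⟨e, he0, he⟩ := ih
      refine ⟨min e (M ((c : ℝ) / (a : ℝ) ^ (t₀ + 1))), lt_min he0 (hMpos t₀), ?_⟩
      intro t ht
      rcases Nat.lt_succ_iff_lt_or_eq.mp ht with h | rfl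
      · exact (min_le_left _ _).trans (he t h)
      · exact min_le_right _ _
  -- choice of m₀
  obtain ⟨m₁, hm₁⟩ : ∃ m₁ : ℕ, B * (1 / 2) ^ m₁ ≤ e / 2 := by
    obtain ⟨t, ht⟩ := exists_pow_lt_of_lt_one (show (0 : ℝ) < e / (2 * B) by positivity)
      (show (1 / 2 : ℝ) < 1 by norm_num)
    refine ⟨t, ?_⟩
    have h1 : B * (1 / 2) ^ t ≤ B * (e / (2 * B)) := mul_le_mul_of_nonneg_left ht.le hB0
    have h2 : B * (e / (2 * B)) = e / 2 := by
      have : B ≠ 0 := by positivity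
      field_simp
    linarith
  have haR : (2 : ℝ) ≤ a := by exact_mod_cast ha
  refine ⟨(e / 2) ^ t₀ * (1 / 2), by positivity, m₁ + t₀ + 2, ?_⟩
  intro m hm
  have hm2 : 2 ≤ m := by omega
  have hden := denom_pos (a := a) ha hm2
  -- lower bounds
  have hlow1 : ∀ t < t₀, e / 2 ≤ M (g a c m (m - 1 - t)) := by
    intro t ht
    have hpow : (a : ℝ) ^ (m - 1 - t) * (a : ℝ) ^ (t + 1) = (a : ℝ) ^ m := by
      rw [← pow_add]; congr 1; omega
    have hone : (1 : ℝ) ≤ (a : ℝ) ^ (m - 1 - t) := one_le_pow₀ (by linarith)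
    have ham : (a : ℝ) ^ (m - 1 - t) ≤ (a : ℝ) ^ m - 1 := by
      have h1 : (2 : ℝ) ≤ (a : ℝ) ^ (t + 1) := by
        calc (2 : ℝ) ≤ a := haR
          _ = (a : ℝ) ^ 1 := (pow_one _).symm
          _ ≤ (a : ℝ) ^ (t + 1) := pow_le_pow_right₀ (by linarith) (by omega)
      nlinarith
    have hdist : g a c m (m - 1 - t) - (c : ℝ) / (a : ℝ) ^ (t + 1)
        = c * (a : ℝ) ^ (m - 1 - t) / (((a : ℝ) ^ m - 1) * (a : ℝ) ^ m) := by
      unfold g
      have h1 : (a : ℝ) ^ (t + 1) ≠ 0 := by positivity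
      have h2 : (a : ℝ) ^ m ≠ 0 := by positivity
      have h3 : (c : ℝ) / (a : ℝ) ^ (t + 1) = c * (a : ℝ) ^ (m - 1 - t) / (a : ℝ) ^ m := by
        rw [div_eq_div_iff h1 h2, ← hpow]; ring
      rw [h3, div_sub_div _ _ hden.ne' h2]
      congr 1
      ring
    have hdist0 : 0 ≤ g a c m (m - 1 - t) - (c : ℝ) / (a : ℝ) ^ (t + 1) := by
      rw [hdist]
      have : 0 < (a : ℝ) ^ m - 1 := hden
      positivity
    have hdistle : g a c m (m - 1 - t) - (c : ℝ) / (a : ℝ) ^ (t + 1) ≤ c * (1 / 2) ^ m := by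
      rw [hdist]
      have h1 : (c : ℝ) * (a : ℝ) ^ (m - 1 - t) / (((a : ℝ) ^ m - 1) * (a : ℝ) ^ m)
          ≤ c / (a : ℝ) ^ m := by
        rw [div_le_div_iff₀ (by positivity) (by positivity)]
        have h2 : (c : ℝ) * (a : ℝ) ^ (m - 1 - t) ≤ c * ((a : ℝ) ^ m - 1) :=
          mul_le_mul_of_nonneg_left ham (by linarith)
        have h3 : (0 : ℝ) ≤ (a : ℝ) ^ m := by positivity
        calc (c : ℝ) * (a : ℝ) ^ (m - 1 - t) * (a : ℝ) ^ m
            ≤ c * ((a : ℝ) ^ m - 1) * (a : ℝ) ^ m := mul_le_mul_of_nonneg_right h2 h3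
          _ = _ := by ring
      refine h1.trans ?_
      rw [div_eq_mul_inv]
      refine mul_le_mul_of_nonneg_left ?_ (by linarith)
      rw [one_div, inv_pow]
      exact inv_anti₀ (by positivity) (pow_le_pow_left₀ (by norm_num) haR m)
    have hlip := hG.lip (g a c m (m - 1 - t)) ((c : ℝ) / (a : ℝ) ^ (t + 1))
    rw [abs_of_nonneg hdist0] at hlip
    have h5 : K * (g a c m (m - 1 - t) - (c : ℝ) / (a : ℝ) ^ (t + 1)) ≤ e / 2 := by
      calc _ ≤ K * (c * (1 / 2) ^ m) := mul_le_mul_of_nonneg_left hdistle hK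
        _ = B * (1 / 2) ^ m := by rw [hBdef]; ring
        _ ≤ B * (1 / 2) ^ m₁ :=
            mul_le_mul_of_nonneg_left
              (pow_le_pow_of_le_one (by norm_num) (by norm_num) (by omega)) hB0
        _ ≤ e / 2 := hm₁
    have h6 := (abs_le.mp (hlip.trans h5)).1
    have h7 := he t ht
    linarith
  have hlow2 : ∀ t, t₀ ≤ t → t < m → 1 - B * (1 / 2) ^ t ≤ M (g a c m (m - 1 - t)) := by
    intro t _ htm
    have h1 := g_le' (c := c) ha hm2 t htm
    have h2 := g_pos (c := c) ha hc hm2 (m - 1 - t)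
    have hlip := hG.lip (g a c m (m - 1 - t)) 0
    rw [hG.zero, sub_zero, abs_of_pos h2] at hlip
    have h3 : K * g a c m (m - 1 - t) ≤ B * (1 / 2) ^ t := by
      calc _ ≤ K * (c * (1 / 2) ^ t) := mul_le_mul_of_nonneg_left h1 hK
        _ = _ := by rw [hBdef]; ring
    have h4 := (abs_le.mp (hlip.trans h3)).1
    linarith
  have hposm : ∀ t < m, 0 < M (g a c m (m - 1 - t)) := by
    intro t ht
    rcases lt_or_ge t t₀ with h | h
    · have := hlow1 t h
      linarith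
    · have h1 := hlow2 t h ht
      have h2 : B * (1 / 2) ^ t ≤ B * (1 / 2) ^ t₀ :=
        mul_le_mul_of_nonneg_left (pow_le_pow_of_le_one (by norm_num) (by norm_num) h) hB0
      linarith
  constructor
  · intro j
    have hmod : M (g a c m j) = M (g a c m (j % m)) := by
      conv_lhs => rw [← Nat.mod_add_div j m]
      generalize j / m = s
      induction s with
      | zero => simp
      | succ s ih =>
        have e1 : j % m + m * (s + 1) = (j % m + m * s) + m := by ring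
        rw [e1, g_period ha hm2, hG.per, ih]
    rw [hmod]
    have hlt : j % m < m := Nat.mod_lt _ (by omega)
    have := hposm (m - 1 - j % m) (by omega)
    rwa [show m - 1 - (m - 1 - j % m) = j % m by omega] at this
  · rw [← Finset.prod_range_reflect]
    have h := prod_low (F := fun t => M (g a c m (m - 1 - t))) (e := e / 2) (B := B)
      (by positivity) (t₀ := t₀) hB0 ht₀ hlow1 (m - t₀) (fun t h1 h2 => hlow2 t h1 (by omega))
    rw [show t₀ + (m - t₀) = m by omega] at h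
    refine le_trans ?_ h
    refine mul_le_mul_of_nonneg_left ?_ (by positivity)
    have h3 : 0 ≤ 2 * B * (1 / 2 : ℝ) ^ m := by positivity
    linarith

end Pool.Agent.Y196.JX
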