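import Pool.Agent.Y196.JX.Main

/-!
# Finite families of walks
-/

set_option autoImplicit false

namespace Pool.Agent.Y196.JX

open Finset H942JM

/-- The statement on finite families. -/
theorem family (hGOOD : S_GOOD) (hLAW : S_LAW) (hCOS : S_COS) (hTV2 : S_TV2) (hCORE : S_CORE)
    (hPAIR : S_PAIR) (hNUM : S_NUM) (S : Finset (ℕ × (ℤ →₀ ℝ))) (N : ℕ) (hN : 0 < N)
    (hS : ∀ s ∈ S, 2 ≤ s.1 ∧ (∀ x, 0 ≤ s.2 x) ∧ (s.2.sum fun _ p => p) = 1 ∧ Nondeg s.2 s.1) :
    ∃ C : ℝ, 0 < C ∧ ∀ δ : ℝ, 0 < δ → ∀ Q : ℕ, ∃ q : ℕ, Q ≤ q ∧ Nat.Coprime q N ∧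
      (∀ s ∈ S, Nat.Coprime q s.1) ∧
      ∀ s ∈ S, ∀ n : ℕ, (n : ℝ) ≤ C * (Real.log q * Real.log (Real.log q)) →
        1 - δ ≤ tvDist s.2 s.1 q n := by
  classical
  -- common constant
  have hη : ∃ η : ℝ, 0 < η ∧ ∀ s ∈ S, ∀ δ : ℝ, 0 < δ → ∃ m₀ : ℕ, ∀ m : ℕ, m₀ ≤ m → ∀ q : ℕ,
      0 < q → (s.1 ^ m - 1) ∣ (s.1 - 1) * q → ∀ n : ℕ, (n : ℝ) ≤ η * (m * Real.log m) →
      1 - δ ≤ tvDist s.2 s.1 q n := by
    clear hNUM
    induction S using Finset.induction_on with
    | empty => exact ⟨1, one_pos, fun s hs => absurd hs (Finset.notMem_empty s)⟩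
    | insert t T ht ih =>
      obtain ⟨η₁, hη₁, h1⟩ := ih fun s hs => hS s (Finset.mem_insert_of_mem hs)
      obtain ⟨ha, hnn, htot, hnd⟩ := hS t (Finset.mem_insert_self t T)
      obtain ⟨η₂, hη₂, h2⟩ := slow_one hGOOD hLAW hCOS hTV2 hCORE hPAIR hnn htot ha hnd
      have hmono : ∀ (η' η'' : ℝ), η' ≤ η'' → ∀ m n : ℕ, (n : ℝ) ≤ η' * (m * Real.log m) →
          (n : ℝ) ≤ η'' * (m * Real.log m) := by
        intro η' η'' hle m n hn
        have : 0 ≤ (m : ℝ) * Real.log m := by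
          rcases Nat.eq_zero_or_pos m with h | h
          · rw [h]; simp
          · exact mul_nonneg (Nat.cast_nonneg m) (Real.log_nonneg (by exact_mod_cast h))
        exact hn.trans (mul_le_mul_of_nonneg_right hle this)
      refine ⟨min η₁ η₂, lt_min hη₁ hη₂, ?_⟩
      intro s hs δ hδ
      rcases Finset.mem_insert.mp hs with rfl | hs
      · obtain ⟨m₀, hm₀⟩ := h2 δ hδ
        exact ⟨m₀, fun m hm q hq hd n hn =>
          hm₀ m hm q hq hd n (hmono _ _ (min_le_right _ _) m n hn)⟩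
      · obtain ⟨m₀, hm₀⟩ := h1 s hs δ hδ
        exact ⟨m₀, fun m hm q hq hd n hn =>
          hm₀ m hm q hq hd n (hmono _ _ (min_le_left _ _) m n hn)⟩
  obtain ⟨η, hη0, hη⟩ := hη
  -- the moduli
  have hB : ∀ a ∈ S.image Prod.fst, 2 ≤ a := by
    intro a ha
    obtain ⟨s, hs, rfl⟩ := Finset.mem_image.mp ha
    exact (hS s hs).1
  have hN' : 0 < N * ∏ s ∈ S, s.1 := by
    refine Nat.mul_pos hN (Finset.prod_pos fun s hs => ?_)
    have := (hS s hs).1
    omega
  obtain ⟨C, hC, hnum⟩ := hNUM (S.image Prod.fst) (N * ∏ s ∈ S, s.1) hB hN'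
  refine ⟨η / (2 * C), by positivity, ?_⟩
  intro δ hδ Q
  have hm₀ : ∃ m₀ : ℕ, ∀ s ∈ S, ∀ m : ℕ, m₀ ≤ m → ∀ q : ℕ,
      0 < q → (s.1 ^ m - 1) ∣ (s.1 - 1) * q → ∀ n : ℕ, (n : ℝ) ≤ η * (m * Real.log m) →
      1 - δ ≤ tvDist s.2 s.1 q n := by
    choose! f hf using fun s hs => hη s hs δ hδ
    refine ⟨S.sup f, fun s hs m hm => hf s hs m ((Finset.le_sup hs).trans hm)⟩
  obtain ⟨m₀, hm₀⟩ := hm₀
  obtain ⟨m, hm, q, hmq, hcop, hlog, hdvd⟩ := hnum (m₀ + Q + ⌈C⌉₊ + 2)
  have hqpos : 0 < q := by omega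
  refine ⟨q, by omega, Nat.Coprime.coprime_dvd_right (Dvd.intro _ rfl) hcop, ?_, ?_⟩
  · intro s hs
    exact Nat.Coprime.coprime_dvd_right
      ((Finset.dvd_prod_of_mem Prod.fst hs).trans (Dvd.intro_left _ rfl)) hcop
  · intro s hs n hn
    refine hm₀ s hs m (by omega) q hqpos (hdvd s.1 (Finset.mem_image_of_mem _ hs)) n ?_
    have hmR : (2 : ℝ) ≤ m := by exact_mod_cast (by omega : 2 ≤ m)
    have hmC : C ≤ m := by
      have h1 := Nat.le_ceil C
      have h2 : (⌈C⌉₊ : ℝ) ≤ m := by exact_mod_cast (by omega : ⌈C⌉₊ ≤ m)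
      linarith
    have hqR : (1 : ℝ) ≤ q := by exact_mod_cast hqpos
    have hlogq0 : 0 ≤ Real.log q := Real.log_nonneg hqR
    have hlogm0 : 0 ≤ Real.log m := Real.log_nonneg (by linarith)
    have hprod : Real.log q * Real.log (Real.log q) ≤ C * m * (2 * Real.log m) := by
      rcases le_or_gt (Real.log (Real.log q)) 0 with h | h
      · have h1 : Real.log q * Real.log (Real.log q) ≤ 0 :=
          mul_nonpos_of_nonneg_of_nonpos hlogq0 h
        have h2 : 0 ≤ C * m * (2 * Real.log m) := by positivity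
        linarith
      · have hlogqpos : 0 < Real.log q := by
          rcases hlogq0.lt_or_eq with h' | h'
          · exact h'
          · rw [← h', Real.log_zero] at h
            exact absurd h (lt_irrefl _)
        have h1 : Real.log (Real.log q) ≤ 2 * Real.log m := by
          calc Real.log (Real.log q) ≤ Real.log (C * m) := Real.log_le_log hlogqpos hlog
            _ = Real.log C + Real.log m := Real.log_mul hC.ne' (by positivity)
            _ ≤ Real.log m + Real.log m := by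
                have := Real.log_le_log hC hmC
                linarith
            _ = 2 * Real.log m := by ring
        exact mul_le_mul hlog h1 h.le (by positivity)
    calc (n : ℝ) ≤ η / (2 * C) * (Real.log q * Real.log (Real.log q)) := hn
      _ ≤ η / (2 * C) * (C * m * (2 * Real.log m)) :=
          mul_le_mul_of_nonneg_left hprod (by positivity)
      _ = η * (m * Real.log m) := by field_simp

/-- The failure of the fast mixing, from a slow walk. -/
lemma not_mixesFast {μ : ℤ →₀ ℝ} {a : ℤ} {ε C δ : ℝ} {q : ℕ} (hδε : ε < 1 - δ)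
    (hK : (|(1 + ε) / entropyRate μ a| + 1) ≤ C * Real.log (Real.log q))
    (hlog : 1 ≤ Real.log q)
    (hslow : ∀ n : ℕ, (n : ℝ) ≤ C * (Real.log q * Real.log (Real.log q)) →
      1 - δ ≤ tvDist μ a q n) :
    ¬ MixesFast μ a ε q := by
  intro hmix
  set H := entropyRate μ a with hH
  have hlogpos : 0 < Real.log q := by linarith
  have hxabs : (1 + ε) * Real.log q / H ≤ |(1 + ε) / H| * Real.log q := by
    have e : (1 + ε) * Real.log q / H = ((1 + ε) / H) * Real.log q := by ring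
    rw [e]
    exact mul_le_mul_of_nonneg_right (le_abs_self _) hlogpos.le
  have hxn := Nat.le_ceil (|(1 + ε) / H| * Real.log q)
  have h1 := hmix ⌈|(1 + ε) / H| * Real.log q⌉₊ (hxabs.trans hxn)
  have h0 : 0 ≤ |(1 + ε) / H| * Real.log q := mul_nonneg (abs_nonneg _) hlogpos.le
  have hup := (Nat.ceil_lt_add_one h0).le
  have h2 := hslow ⌈|(1 + ε) / H| * Real.log q⌉₊ (by
    refine hup.trans ?_
    calc |(1 + ε) / H| * Real.log q + 1 ≤ (|(1 + ε) / H| + 1) * Real.log q := by nlinarith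
      _ ≤ (C * Real.log (Real.log q)) * Real.log q := mul_le_mul_of_nonneg_right hK hlogpos.le
      _ = C * (Real.log q * Real.log (Real.log q)) := by ring)
  linarith

end Pool.Agent.Y196.JX
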