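import Pool.Agent.Y196.JX.Low

/-!
# Slow walks for finite families of laws and bases
-/

set_option autoImplicit false

namespace Pool.Agent.Y196.JX

open Finset H942JM

/-- The nondegeneracy of the law `μ` for the base `a`: for some `c > 0` the characteristic function
has no zero at the points `c (a - 1) / a ^ k`, `k ≥ 1`. -/
def Nondeg (μ : ℤ →₀ ℝ) (a : ℕ) : Prop :=
  ∃ c : ℕ, 0 < c ∧ ∀ k : ℕ, chf μ ((c * (a - 1) : ℝ) / (a : ℝ) ^ (k + 1)) ≠ 0

/-- The final numerical estimate. -/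
lemma numer {A B lam δ : ℝ} (hA : 0 ≤ A) (hB : 0 ≤ B) (hl : 0 ≤ lam) (hδ : 0 < δ) :
    ∃ m₀ : ℕ, 1 ≤ m₀ ∧ ∀ m : ℕ, m₀ ≤ m → ∀ m' : ℕ, m ≤ 2 * m' →
      ∀ L : ℕ, L = ⌈Real.log m / (4 * (lam + 1))⌉₊ →
      (A * (L * m) / (m' : ℝ) ^ 2 + B / m') * Real.exp (lam * L) ≤ δ := by
  set T : ℝ := (8 * A + 2 * B) * Real.exp lam with hT
  have hT0 : 0 ≤ T := by positivity
  refine ⟨⌈(T / δ) ^ 2⌉₊ + 1, by omega, ?_⟩
  intro m hm m' hm' L hL
  have hm1 : 1 ≤ m := by omega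
  have hmR : (1 : ℝ) ≤ m := by exact_mod_cast hm1
  have hlog0 : 0 ≤ Real.log m := Real.log_nonneg hmR
  set X : ℝ := Real.exp (Real.log m / 4) with hX
  have hX1 : 1 ≤ X := Real.one_le_exp (by positivity)
  have hX4 : X ^ 4 = m := by
    rw [hX, ← Real.exp_nat_mul]
    have : ((4 : ℕ) : ℝ) * (Real.log m / 4) = Real.log m := by push_cast; ring
    rw [this, Real.exp_log (by linarith)]
  have hlogX : Real.log m / 4 + 1 ≤ X := Real.add_one_le_exp _
  have hdiv : Real.log m / (4 * (lam + 1)) ≤ Real.log m / 4 := by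
    apply div_le_div_of_nonneg_left hlog0 (by norm_num)
    linarith
  have hdiv0 : 0 ≤ Real.log m / (4 * (lam + 1)) := by positivity
  have hL1 : (L : ℝ) ≤ Real.log m / (4 * (lam + 1)) + 1 := by
    rw [hL]; exact (Nat.ceil_lt_add_one hdiv0).le
  have hLX : (L : ℝ) ≤ X := by linarith
  have hlamL : lam * L ≤ lam + Real.log m / 4 := by
    have h1 : lam * L ≤ lam * (Real.log m / (4 * (lam + 1)) + 1) :=
      mul_le_mul_of_nonneg_left hL1 hl
    have h2 : lam * (Real.log m / (4 * (lam + 1))) ≤ Real.log m / 4 := by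
      rw [mul_div_assoc', div_le_div_iff₀ (by positivity) (by norm_num)]
      nlinarith
    linarith
  have hexp : Real.exp (lam * L) ≤ Real.exp lam * X := by
    rw [hX, ← Real.exp_add]
    exact Real.exp_le_exp.mpr hlamL
  have hm'R : (m : ℝ) ≤ 2 * m' := by exact_mod_cast hm'
  have hm'0 : (0 : ℝ) < m' := by linarith
  have hfirst : A * (L * m) / (m' : ℝ) ^ 2 + B / m' ≤ (4 * A * X + 2 * B) / m := by
    have h1 : A * (L * m) / (m' : ℝ) ^ 2 ≤ 4 * A * X / m := by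
      rw [div_le_div_iff₀ (by positivity) (by linarith)]
      have h2 : (m : ℝ) ^ 2 ≤ 4 * (m' : ℝ) ^ 2 := by nlinarith
      have h3 : A * L ≤ A * X := mul_le_mul_of_nonneg_left hLX hA
      calc A * (L * m) * m = (A * L) * (m : ℝ) ^ 2 := by ring
        _ ≤ (A * X) * (4 * (m' : ℝ) ^ 2) :=
            mul_le_mul h3 h2 (by positivity) (by positivity)
        _ = 4 * A * X * (m' : ℝ) ^ 2 := by ring
    have h4 : B / m' ≤ 2 * B / m := by
      rw [div_le_div_iff₀ hm'0 (by linarith)]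
      nlinarith
    have h5 : (4 * A * X + 2 * B) / m = 4 * A * X / m + 2 * B / m := by ring
    linarith
  have hfirst0 : 0 ≤ (4 * A * X + 2 * B) / (m : ℝ) := by positivity
  calc (A * (L * m) / (m' : ℝ) ^ 2 + B / m') * Real.exp (lam * L)
      ≤ ((4 * A * X + 2 * B) / m) * (Real.exp lam * X) :=
        mul_le_mul hfirst hexp (Real.exp_pos _).le hfirst0
    _ ≤ ((8 * A + 2 * B) * X / m) * (Real.exp lam * X) := by
        gcongr
        nlinarith
    _ = T / X ^ 2 := by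
        rw [← hX4, hT]
        have : X ≠ 0 := by positivity
        field_simp
    _ ≤ δ := by
        rw [div_le_iff₀ (by positivity)]
        have h1 : (T / δ) ^ 2 ≤ m := by
          have h2 := Nat.le_ceil ((T / δ) ^ 2)
          have h3 : (⌈(T / δ) ^ 2⌉₊ : ℝ) ≤ m := by exact_mod_cast (by omega : ⌈(T / δ) ^ 2⌉₊ ≤ m)
          linarith
        rw [← hX4] at h1
        have h2 : T / δ ≤ X ^ 2 := by
          have h3 : (T / δ) ^ 2 ≤ (X ^ 2) ^ 2 := by
            calc (T / δ) ^ 2 ≤ X ^ 4 := h1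
              _ = (X ^ 2) ^ 2 := by ring
          exact (pow_le_pow_iff_left₀ (by positivity) (by positivity) (by norm_num)).mp h3
        rw [div_le_iff₀ hδ] at h2
        linarith

/-- One law and one base. -/
theorem slow_one (hGOOD : S_GOOD) (hLAW : S_LAW) (hCOS : S_COS) (hTV2 : S_TV2) (hCORE : S_CORE)
    (hPAIR : S_PAIR) {μ : ℤ →₀ ℝ} (h0 : ∀ x, 0 ≤ μ x) (h1 : (μ.sum fun _ p => p) = 1)
    {a : ℕ} (ha : 2 ≤ a) (hnd : Nondeg μ a) :
    ∃ η : ℝ, 0 < η ∧ ∀ δ : ℝ, 0 < δ → ∃ m₀ : ℕ, ∀ m : ℕ, m₀ ≤ m → ∀ q : ℕ, 0 < q →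
      (a ^ m - 1) ∣ (a - 1) * q → ∀ n : ℕ, (n : ℝ) ≤ η * (m * Real.log m) →
      1 - δ ≤ tvDist μ a q n := by
  obtain ⟨K, hG⟩ := hGOOD μ h0 h1
  set M : ℝ → ℝ := fun θ => ‖chf μ θ‖ ^ 2 with hM
  obtain ⟨c₀, hc₀, hne⟩ := hnd
  set c : ℕ := c₀ * (a - 1) with hcdef
  have hc : 1 ≤ c := Nat.mul_pos hc₀ (by omega)
  have hcast : (c : ℝ) = c₀ * ((a : ℝ) - 1) := by
    rw [hcdef]; push_cast [Nat.cast_sub (by omega : 1 ≤ a)]; ring
  have hMpos : ∀ k : ℕ, 0 < M ((c : ℝ) / (a : ℝ) ^ (k + 1)) := by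
    intro k
    rw [hM]
    simp only
    rw [hcast]
    have := norm_pos_iff.mpr (hne k)
    positivity
  obtain ⟨κ, hκ, m₁, hcore⟩ := hCORE M K a c hG ha hc hMpos
  have hκ1 : κ ≤ 1 := by
    refine (hcore m₁ le_rfl).2.trans ?_
    exact Finset.prod_le_one (fun k _ => hG.nonneg _) fun k _ => hG.le_one _
  set lam : ℝ := -2 * Real.log κ with hlam
  have hlam0 : 0 ≤ lam := by
    have := Real.log_nonpos hκ.le hκ1
    rw [hlam]; linarith
  refine ⟨1 / (4 * (lam + 1)), by positivity, ?_⟩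
  intro δ hδ
  have hK0 : 0 ≤ K := by linarith [hG.one_le]
  obtain ⟨m₂, hm₂, hnum⟩ := numer (A := 128 * K * c) (B := 4) (lam := lam) (δ := δ)
    (by positivity) (by norm_num) hlam0 hδ
  refine ⟨m₁ + m₂ + 2 * c + 2, ?_⟩
  intro m hm q hq hdvd n hn
  set L : ℕ := ⌈Real.log m / (4 * (lam + 1))⌉₊ with hL
  have hmR : (1 : ℝ) ≤ m := by exact_mod_cast (by omega : 1 ≤ m)
  have hnL : n ≤ L * m := by
    have h2 := Nat.le_ceil (Real.log m / (4 * (lam + 1)))
    have h3 : (n : ℝ) ≤ (L : ℝ) * m := by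
      calc (n : ℝ) ≤ 1 / (4 * (lam + 1)) * (m * Real.log m) := hn
        _ = (Real.log m / (4 * (lam + 1))) * m := by ring
        _ ≤ _ := mul_le_mul_of_nonneg_right h2 (by linarith)
    exact_mod_cast h3
  have hlastc : c * a ^ (m - c - 1) + 1 < a ^ m := by
    have hca : c < a ^ c := Nat.lt_pow_self (by omega)
    have h2 : a ^ m = a ^ (c + 1) * a ^ (m - c - 1) := by
      rw [← pow_add]; congr 1; omega
    have h3 : 1 ≤ a ^ (m - c - 1) := Nat.one_le_pow _ _ (by omega)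
    have h4 : c + 2 ≤ a ^ (c + 1) := by
      rw [pow_succ]
      nlinarith
    rw [h2]
    nlinarith
  have hqz : ∀ i, ∃ z : ℤ, g a c m i * q = z := by
    intro i
    obtain ⟨t, ht⟩ := hdvd
    refine ⟨((c₀ * a ^ i * t : ℕ) : ℤ), ?_⟩
    have hden : ((a : ℝ) ^ m - 1) ≠ 0 := (denom_pos ha (by omega)).ne'
    have hone : 1 ≤ a ^ m := Nat.one_le_pow _ _ (by omega)
    have ht' : ((a : ℝ) - 1) * q = ((a : ℝ) ^ m - 1) * t := by
      have : (((a - 1) * q : ℕ) : ℝ) = (((a ^ m - 1) * t : ℕ) : ℝ) := by rw [ht]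
      push_cast [Nat.cast_sub (by omega : 1 ≤ a), Nat.cast_sub hone] at this
      linarith
    unfold g
    rw [hcast]
    push_cast
    rw [div_mul_eq_mul_div, div_eq_iff hden]
    calc (c₀ : ℝ) * ((a : ℝ) - 1) * (a : ℝ) ^ i * q
        = c₀ * (a : ℝ) ^ i * (((a : ℝ) - 1) * q) := by ring
      _ = _ := by rw [ht']; ring
  have htv := tvLower hLAW hCOS hTV2 hPAIR h0 h1 hM hG (m := m) (m' := m - c) (q := q)
    (n := n) (L := L) ha hc (by omega) (by omega) (by omega) hlastc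
    (hcore m (by omega)).1 hκ (hcore m (by omega)).2 hq hqz hnL
  have hest := hnum m (by omega) (m - c) (by omega) L rfl
  have hexp : Real.exp (lam * L) = 1 / κ ^ (2 * L) := by
    rw [one_div, ← Real.exp_log (by positivity : 0 < κ ^ (2 * L)), ← Real.exp_neg, Real.log_pow,
      hlam]
    congr 1
    push_cast
    ring
  rw [hexp] at hest
  have : (128 * K * c * (L * m) / (((m - c : ℕ) : ℝ)) ^ 2 + 4 / ((m - c : ℕ) : ℝ)) / κ ^ (2 * L)
      ≤ δ := by
    rw [div_eq_mul_one_div]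
    exact hest
  linarith

end Pool.Agent.Y196.JX
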