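import Pool.Agent.Y196.JX.Chf
import Pool.Agent.Y196.JX.Main

/-!
# The nondegeneracy condition
-/

set_option autoImplicit false

namespace Pool.Agent.Y196.JX

open Finset H942JM Filter Topology

/-- Some nonzero Fourier coefficient of the self-similar measure of `μ` and `a` does not vanish: for
some integer `c ≠ 0` the characteristic function of `μ` has no zero at `c / a ^ k`, `k ≥ 1`. -/
def Nondegenerate (μ : ℤ →₀ ℝ) (a : ℕ) : Prop :=
  ∃ c : ℤ, c ≠ 0 ∧ ∀ k : ℕ, chf μ ((c : ℝ) / (a : ℝ) ^ (k + 1)) ≠ 0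

/-- The entire extension of the characteristic function. -/
noncomputable def chF (μ : ℤ →₀ ℝ) (z : ℂ) : ℂ :=
  ∑ x ∈ μ.support, (μ x : ℂ) * Complex.exp (2 * Real.pi * Complex.I * z * x)

lemma chF_diff (μ : ℤ →₀ ℝ) : Differentiable ℂ (chF μ) := by
  unfold chF
  fun_prop

lemma chF_ofReal (μ : ℤ →₀ ℝ) (θ : ℝ) : chF μ (θ : ℂ) = chf μ θ := by
  rw [chf_eq]; rfl

lemma isolated {μ : ℤ →₀ ℝ} (h1 : (μ.sum fun _ p => p) = 1) (θ : ℝ) :
    ∀ᶠ t in 𝓝[≠] θ, chf μ t ≠ 0 := by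
  have han : AnalyticOnNhd ℂ (chF μ) Set.univ :=
    (chF_diff μ).differentiableOn.analyticOnNhd isOpen_univ
  rcases (han (θ : ℂ) (Set.mem_univ _)).eventually_eq_zero_or_eventually_ne_zero with h | h
  · exfalso
    have h2 := han.eqOn_zero_of_preconnected_of_eventuallyEq_zero isPreconnected_univ
      (Set.mem_univ (θ : ℂ)) h
    have h3 := h2 (Set.mem_univ ((0 : ℝ) : ℂ))
    rw [chF_ofReal, chf_zero h1] at h3
    exact one_ne_zero h3
  · have ht : Tendsto (fun t : ℝ => (t : ℂ)) (𝓝[≠] θ) (𝓝[≠] (θ : ℂ)) := by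
      rw [tendsto_nhdsWithin_iff]
      refine ⟨tendsto_nhdsWithin_of_tendsto_nhds
        (Complex.continuous_ofReal.tendsto θ), ?_⟩
      refine eventually_nhdsWithin_of_forall fun t ht => ?_
      intro h
      exact ht (Complex.ofReal_injective h)
    filter_upwards [ht.eventually h] with t ht2
    rwa [chF_ofReal] at ht2

lemma near_zero {μ : ℤ →₀ ℝ} (h1 : (μ.sum fun _ p => p) = 1) :
    ∃ r : ℝ, 0 < r ∧ ∀ t : ℝ, |t| < r → chf μ t ≠ 0 := by
  have h2 := isolated h1 0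
  rw [eventually_nhdsWithin_iff, Metric.eventually_nhds_iff] at h2
  obtain ⟨r, hr, h⟩ := h2
  refine ⟨r, hr, fun t ht => ?_⟩
  rcases eq_or_ne t 0 with rfl | h0
  · rw [chf_zero h1]; exact one_ne_zero
  · exact h (by simpa using ht) h0

theorem nondeg_of {μ : ℤ →₀ ℝ} (h1 : (μ.sum fun _ p => p) = 1) {a : ℕ} (ha : 2 ≤ a)
    (h : Nondegenerate μ a) : Nondeg μ a := by
  obtain ⟨c₀, hc₀, hne₀⟩ := h
  -- positive numerator
  obtain ⟨c, hc, hne⟩ : ∃ c : ℕ, 0 < c ∧ ∀ k : ℕ, chf μ ((c : ℝ) / (a : ℝ) ^ (k + 1)) ≠ 0 := by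
    refine ⟨c₀.natAbs, Int.natAbs_pos.mpr hc₀, fun k => ?_⟩
    have h2 : ((c₀.natAbs : ℕ) : ℝ) = |(c₀ : ℝ)| := by
      rw [Nat.cast_natAbs, Int.cast_abs]
    rcases abs_choice (c₀ : ℝ) with h | h
    · rw [h2, h]
      exact hne₀ k
    · rw [h2, h, neg_div, chf_neg]
      exact fun h0 => hne₀ k ((map_eq_zero _).mp h0)
  have haR : (2 : ℝ) ≤ a := by exact_mod_cast ha
  have hcR : (0 : ℝ) < c := by exact_mod_cast hc
  -- the residue
  obtain ⟨s, hs⟩ : ∃ s : ℕ, (a - 1) ∣ c + s := by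
    refine ⟨(a - 2) * c, ?_⟩
    have e : c + (a - 2) * c = (a - 1) * c := by
      rw [show a - 1 = (a - 2) + 1 by omega]; ring
    exact ⟨c, e⟩
  obtain ⟨r, hr, hnear⟩ := near_zero h1
  -- large exponents
  obtain ⟨J, hJ⟩ : ∃ J : ℕ, ((c : ℝ) + s) * (1 / 2) ^ J < r := by
    obtain ⟨J, hJ⟩ := exists_pow_lt_of_lt_one (show (0 : ℝ) < r / (c + s + 1) by positivity)
      (show (1 / 2 : ℝ) < 1 by norm_num)
    refine ⟨J, ?_⟩
    rw [lt_div_iff₀ (by positivity)] at hJ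
    have : (0 : ℝ) < (1 / 2) ^ J := by positivity
    nlinarith
  -- small exponents
  have hev : ∀ᶠ K : ℕ in atTop, ∀ j ∈ range J,
      chf μ ((s : ℝ) / (a : ℝ) ^ (j + 1) + c / (a : ℝ) ^ (K + j + 1)) ≠ 0 := by
    rw [Filter.eventually_all_finset]
    intro j _
    have hiso := isolated h1 ((s : ℝ) / (a : ℝ) ^ (j + 1))
    have ht : Tendsto (fun K : ℕ => (s : ℝ) / (a : ℝ) ^ (j + 1) + c / (a : ℝ) ^ (K + j + 1)) atTop
        (𝓝[≠] ((s : ℝ) / (a : ℝ) ^ (j + 1))) := by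
      rw [tendsto_nhdsWithin_iff]
      constructor
      · have h2 : Tendsto (fun K : ℕ => (c : ℝ) / (a : ℝ) ^ (K + j + 1)) atTop (𝓝 0) := by
          have h3 : Tendsto (fun n : ℕ => ((1 / a : ℝ)) ^ n) atTop (𝓝 0) :=
            tendsto_pow_atTop_nhds_zero_of_lt_one (by positivity) (by
              rw [div_lt_one (by linarith)]; linarith)
          have h4 := (h3.comp (tendsto_add_atTop_nat (j + 1))).const_mul (c : ℝ)
          rw [mul_zero] at h4
          refine h4.congr fun K => ?_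
          simp only [Function.comp]
          rw [one_div, inv_pow, ← div_eq_mul_inv, add_assoc]
        have h5 := h2.const_add ((s : ℝ) / (a : ℝ) ^ (j + 1))
        rw [add_zero] at h5
        exact h5
      · refine Filter.Eventually.of_forall fun K => ?_
        have h6 : (0 : ℝ) < c / (a : ℝ) ^ (K + j + 1) := by positivity
        intro h7
        rw [Set.mem_singleton_iff] at h7
        linarith
    exact ht.eventually hiso
  obtain ⟨K, hK⟩ := hev.exists
  -- the new numerator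
  have hdvd : (a - 1) ∣ c + a ^ K * s := by
    have h2 : a ^ K = (a ^ K - 1) + 1 := by
      have := Nat.one_le_pow K a (by omega)
      omega
    have h3 : (a - 1) ∣ a ^ K - 1 := by
      have := Nat.sub_dvd_pow_sub_pow a 1 K
      rwa [one_pow] at this
    have h4 : c + a ^ K * s = (a ^ K - 1) * s + (c + s) := by
      conv_lhs => rw [h2]
      ring
    rw [h4]
    exact dvd_add (h3.mul_right s) hs
  obtain ⟨c₂, hc₂⟩ := hdvd
  have hc₂pos : 0 < c₂ := by
    rcases Nat.eq_zero_or_pos c₂ with h | h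
    · rw [h, mul_zero] at hc₂; omega
    · exact h
  have hcast : ((c₂ : ℝ) * ((a : ℝ) - 1)) = c + (a : ℝ) ^ K * s := by
    have : ((c + a ^ K * s : ℕ) : ℝ) = (((a - 1) * c₂ : ℕ) : ℝ) := by rw [hc₂]
    push_cast [Nat.cast_sub (by omega : 1 ≤ a)] at this
    linarith
  refine ⟨c₂, hc₂pos, fun k => ?_⟩
  rw [hcast]
  rcases lt_or_ge k K with hk | hk
  · -- the shift is an integer
    have e : ((c : ℝ) + (a : ℝ) ^ K * s) / (a : ℝ) ^ (k + 1)
        = (c : ℝ) / (a : ℝ) ^ (k + 1) + (((a ^ (K - (k + 1)) * s : ℕ) : ℤ) : ℝ) := by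
      have h2 : (a : ℝ) ^ K = (a : ℝ) ^ (K - (k + 1)) * (a : ℝ) ^ (k + 1) := by
        rw [← pow_add]; congr 1; omega
      rw [h2]
      push_cast
      have h3 : (a : ℝ) ^ (k + 1) ≠ 0 := by positivity
      field_simp
    rw [e, chf_add_int]
    exact hne k
  · obtain ⟨j, rfl⟩ := Nat.exists_eq_add_of_le hk
    have e : ((c : ℝ) + (a : ℝ) ^ K * s) / (a : ℝ) ^ (K + j + 1)
        = (s : ℝ) / (a : ℝ) ^ (j + 1) + c / (a : ℝ) ^ (K + j + 1) := by
      have h2 : (a : ℝ) ^ (K + j + 1) = (a : ℝ) ^ K * (a : ℝ) ^ (j + 1) := by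
        rw [← pow_add]; congr 1
      have h3 : (a : ℝ) ^ (j + 1) ≠ 0 := by positivity
      have h4 : (a : ℝ) ^ K ≠ 0 := by positivity
      rw [h2]
      field_simp
      ring
    rw [e]
    rcases lt_or_ge j J with hj | hj
    · exact hK j (Finset.mem_range.mpr hj)
    · apply hnear
      have h2 : (0 : ℝ) ≤ (s : ℝ) / (a : ℝ) ^ (j + 1) + c / (a : ℝ) ^ (K + j + 1) := by positivity
      rw [abs_of_nonneg h2]
      have h5 : (1 : ℝ) / (a : ℝ) ^ (j + 1) ≤ (1 / 2) ^ J := by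
        rw [one_div, one_div, inv_pow]
        refine inv_anti₀ (by positivity) ?_
        calc (2 : ℝ) ^ J ≤ (2 : ℝ) ^ (j + 1) :=
              pow_le_pow_right₀ (by norm_num) (by omega)
          _ ≤ (a : ℝ) ^ (j + 1) := pow_le_pow_left₀ (by norm_num) haR _
      have h6 : (c : ℝ) / (a : ℝ) ^ (K + j + 1) ≤ c / (a : ℝ) ^ (j + 1) := by
        apply div_le_div_of_nonneg_left hcR.le (by positivity)
        exact pow_le_pow_right₀ (by linarith) (by omega)
      calc (s : ℝ) / (a : ℝ) ^ (j + 1) + c / (a : ℝ) ^ (K + j + 1)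
          ≤ (s : ℝ) / (a : ℝ) ^ (j + 1) + c / (a : ℝ) ^ (j + 1) := by linarith
        _ = ((c : ℝ) + s) * (1 / (a : ℝ) ^ (j + 1)) := by ring
        _ ≤ ((c : ℝ) + s) * (1 / 2) ^ J := by gcongr
        _ < r := hJ

end Pool.Agent.Y196.JX
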