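import Pool.Agent.Y196.JX.Stm

/-!
# The moduli
-/

set_option autoImplicit false

namespace Pool.Agent.Y196.JX

open Finset H942JM

/-- The geometric sum. -/
def gs (m a : ℕ) : ℕ := ∑ i ∈ range m, a ^ i

lemma gs_mul {a : ℕ} (ha : 2 ≤ a) (m : ℕ) : (a - 1) * gs m a = a ^ m - 1 := by
  have h := geom_sum_mul (a : ℤ) m
  have h1 : 1 ≤ a ^ m := Nat.one_le_pow _ _ (by omega)
  have h2 : (((a - 1) * gs m a : ℕ) : ℤ) = ((a ^ m - 1 : ℕ) : ℤ) := by
    unfold gs
    push_cast [Nat.cast_sub (by omega : 1 ≤ a), Nat.cast_sub h1]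
    rw [← h]
    ring
  exact_mod_cast h2

lemma gs_le {a : ℕ} (ha : 2 ≤ a) (m : ℕ) : gs m a ≤ a ^ m := by
  have h := gs_mul ha m
  have h1 : gs m a ≤ (a - 1) * gs m a := Nat.le_mul_of_pos_left _ (by omega)
  omega

lemma le_gs {a : ℕ} (ha : 2 ≤ a) (m : ℕ) : m ≤ gs m a := by
  unfold gs
  calc m = ∑ _i ∈ range m, 1 := by simp
    _ ≤ _ := Finset.sum_le_sum fun i _ => Nat.one_le_pow _ _ (by omega)

lemma gs_coprime {N k a : ℕ} (hN : 0 < N) : Nat.Coprime (gs (1 + k * N.factorial) a) N := by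
  by_contra hcon
  rw [Nat.Prime.not_coprime_iff_dvd] at hcon
  obtain ⟨p, hp, hp1, hp2⟩ := hcon
  haveI : Fact p.Prime := ⟨hp⟩
  have hpN : p ≤ N := Nat.le_of_dvd hN hp2
  have hpf : p ∣ N.factorial := (Nat.Prime.dvd_factorial hp).mpr hpN
  have hp1f : (p - 1) ∣ N.factorial :=
    Nat.dvd_factorial (by have := hp.two_le; omega) (by omega)
  set m := 1 + k * N.factorial with hm
  have hsum : ∑ i ∈ range m, (a : ZMod p) ^ i = 0 := by
    have h := (ZMod.natCast_eq_zero_iff (gs m a) p).mpr hp1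
    unfold gs at h
    push_cast at h
    exact h
  have hpow : (a : ZMod p) ^ m = 1 := by
    have h := geom_sum_mul (a : ZMod p) m
    rw [hsum, zero_mul] at h
    exact (sub_eq_zero.mp h.symm)
  have ha0 : (a : ZMod p) ≠ 0 := by
    intro h
    rw [h, hm, pow_add, pow_one, zero_mul] at hpow
    exact zero_ne_one hpow
  have ha1 : (a : ZMod p) = 1 := by
    obtain ⟨t, ht⟩ := hp1f
    have h1 : (a : ZMod p) ^ (k * N.factorial) = 1 := by
      rw [ht, show k * ((p - 1) * t) = (p - 1) * (k * t) by ring, pow_mul,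
        ZMod.pow_card_sub_one_eq_one ha0, one_pow]
    rw [hm, pow_add, pow_one, h1, mul_one] at hpow
    exact hpow
  rw [ha1] at hsum
  simp only [one_pow, Finset.sum_const, Finset.card_range, nsmul_eq_mul, mul_one] at hsum
  have hNf : ((N.factorial : ℕ) : ZMod p) = 0 := (ZMod.natCast_eq_zero_iff _ p).mpr hpf
  rw [hm] at hsum
  push_cast at hsum
  rw [hNf, mul_zero, add_zero] at hsum
  exact one_ne_zero hsum

theorem num : S_NUM := by
  intro B N hB hN
  classical
  set B' := insert 2 B with hB'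
  have hB2 : ∀ a ∈ B', 2 ≤ a := by
    intro a ha
    rcases Finset.mem_insert.mp ha with rfl | ha
    · exact le_rfl
    · exact hB a ha
  have hlog0 : ∀ a ∈ B', 0 ≤ Real.log a := by
    intro a ha
    have := hB2 a ha
    exact Real.log_nonneg (by exact_mod_cast (by omega : 1 ≤ a))
  have hsum0 : 0 ≤ ∑ a ∈ B', Real.log (a : ℝ) := Finset.sum_nonneg hlog0
  refine ⟨1 + ∑ a ∈ B', Real.log (a : ℝ), by linarith, ?_⟩
  intro m₀
  set m := 1 + (m₀ + 1) * N.factorial with hm
  have hfac : 1 ≤ N.factorial := Nat.factorial_pos N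
  have hm0 : m₀ ≤ m := by
    have : m₀ + 1 ≤ (m₀ + 1) * N.factorial := Nat.le_mul_of_pos_right _ hfac
    omega
  have hm1 : 1 ≤ m := by omega
  set q := ∏ a ∈ B', gs m a with hq
  have hpos : ∀ a ∈ B', 0 < gs m a := fun a ha => lt_of_lt_of_le hm1 (le_gs (hB2 a ha) m)
  have hqpos : 0 < q := Finset.prod_pos hpos
  refine ⟨m, hm0, q, ?_, ?_, ?_, ?_⟩
  · have h2 : gs m 2 ∣ q := Finset.dvd_prod_of_mem _ (Finset.mem_insert_self 2 B)
    exact (le_gs le_rfl m).trans (Nat.le_of_dvd hqpos h2)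
  · exact Nat.Coprime.prod_left fun a _ => gs_coprime hN
  · have h1 : Real.log (q : ℝ) = ∑ a ∈ B', Real.log (gs m a : ℝ) := by
      rw [hq]
      push_cast
      rw [Real.log_prod]
      intro a ha
      have := hpos a ha
      positivity
    have h2 : ∀ a ∈ B', Real.log (gs m a : ℝ) ≤ m * Real.log a := by
      intro a ha
      have h3 := hpos a ha
      rw [← Real.log_pow]
      refine Real.log_le_log (by exact_mod_cast h3) ?_
      exact_mod_cast gs_le (hB2 a ha) m
    calc Real.log (q : ℝ) ≤ ∑ a ∈ B', m * Real.log (a : ℝ) := by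
          rw [h1]; exact Finset.sum_le_sum h2
      _ = (∑ a ∈ B', Real.log (a : ℝ)) * m := by rw [← Finset.mul_sum, mul_comm]
      _ ≤ (1 + ∑ a ∈ B', Real.log (a : ℝ)) * m := by
          have : (0 : ℝ) ≤ m := Nat.cast_nonneg m
          nlinarith
  · intro a ha
    rw [← gs_mul (hB a ha) m]
    exact Nat.mul_dvd_mul_left _ (Finset.dvd_prod_of_mem _ (Finset.mem_insert_of_mem ha))

end Pool.Agent.Y196.JX
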