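import Pool.Agent.Y196.JX.Stm

/-!
# The pair correlations, for an abstract function
-/

set_option autoImplicit false

namespace Pool.Agent.Y196.JX

open Finset H942JM

lemma Good.diff {M : ℝ → ℝ} {K : ℝ} (hG : Good M K) (x y : ℝ) :
    |M (x - y) - M x * M y| ≤ 2 * K * |y| := by
  have h1 := hG.lip (x - y) x
  have h2 := hG.lip 0 y
  rw [hG.zero] at h2
  have e1 : x - y - x = -y := by ring
  have e2 : (0 : ℝ) - y = -y := by ring
  rw [e1, abs_neg] at h1
  rw [e2, abs_neg] at h2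
  have e : M (x - y) - M x * M y = (M (x - y) - M x) + M x * (1 - M y) := by ring
  rw [e]
  have h3 : |M x * (1 - M y)| ≤ K * |y| := by
    rw [abs_mul, abs_of_nonneg (hG.nonneg x)]
    calc M x * |1 - M y| ≤ 1 * |1 - M y| :=
          mul_le_mul_of_nonneg_right (hG.le_one x) (abs_nonneg _)
      _ ≤ K * |y| := by rw [one_mul]; exact h2
  calc _ ≤ |M (x - y) - M x| + |M x * (1 - M y)| := abs_add_le _ _
    _ ≤ 2 * K * |y| := by linarith

lemma Good.diff' {M : ℝ → ℝ} {K : ℝ} (hG : Good M K) (x y : ℝ) :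
    |M (x - y) - M x * M y| ≤ 2 * K * |x| := by
  have h := hG.diff y x
  rw [mul_comm (M y) (M x), ← hG.even (y - x), neg_sub] at h
  exact h

/-- The pair correlation. -/
noncomputable def PG (M : ℝ → ℝ) (a c m : ℕ) (i j : ℕ) : ℝ :=
  |M (g a c m i - g a c m j) - M (g a c m i) * M (g a c m j)|

section
variable {M : ℝ → ℝ} {K : ℝ} {a c m : ℕ}

lemma PG_per_left (hG : Good M K) (ha : 2 ≤ a) (hm : 2 ≤ m) (i j : ℕ) :
    PG M a c m (i + m) j = PG M a c m i j := by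
  unfold PG
  rw [g_period ha hm, hG.per,
    show g a c m i + (((c * a ^ i : ℕ) : ℤ) : ℝ) - g a c m j
      = (g a c m i - g a c m j) + (((c * a ^ i : ℕ) : ℤ) : ℝ) by ring, hG.per]

lemma PG_symm (hG : Good M K) (i j : ℕ) : PG M a c m i j = PG M a c m j i := by
  unfold PG
  rw [mul_comm (M (g a c m i)), ← hG.even, neg_sub]

lemma PG_per_right (hG : Good M K) (ha : 2 ≤ a) (hm : 2 ≤ m) (i j : ℕ) :
    PG M a c m i (j + m) = PG M a c m i j := by
  rw [PG_symm hG, PG_per_left hG ha hm, PG_symm hG]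

lemma PG_sum_shift (hG : Good M K) (ha : 2 ≤ a) (hm : 2 ≤ m) (k : ℕ) :
    ∑ i ∈ range m, ∑ j ∈ range m, PG M a c m (i + k) (j + k)
      = ∑ i ∈ range m, ∑ j ∈ range m, PG M a c m i j := by
  have h1 : ∀ i, ∑ j ∈ range m, PG M a c m (i + k) (j + k)
      = ∑ j ∈ range m, PG M a c m (i + k) j := by
    intro i
    rw [← sum_shift (fun j => PG M a c m (i + k) j) m (fun j => PG_per_right hG ha hm _ _) k]
    exact Finset.sum_congr rfl fun j _ => by rw [add_comm j k]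
  simp_rw [h1]
  rw [← sum_shift (fun i => ∑ j ∈ range m, PG M a c m i j) m
    (fun i => Finset.sum_congr rfl fun j _ => PG_per_left hG ha hm _ _) k]
  exact Finset.sum_congr rfl fun i _ => by rw [add_comm i k]

/-- The frequencies decay geometrically. -/
lemma g_le' (ha : 2 ≤ a) (hm : 2 ≤ m) (t : ℕ) (ht : t < m) :
    g a c m (m - 1 - t) ≤ c * (1 / 2) ^ t := by
  have hden := denom_pos ha hm
  have haR : (2 : ℝ) ≤ a := by exact_mod_cast ha
  have h1 : (2 : ℝ) ^ t * (a : ℝ) ^ (m - 1 - t) ≤ (a : ℝ) ^ m - 1 := by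
    have h2 : (2 : ℝ) ^ t ≤ (a : ℝ) ^ t := pow_le_pow_left₀ (by norm_num) haR t
    have h3 : (a : ℝ) ^ t * (a : ℝ) ^ (m - 1 - t) = (a : ℝ) ^ (m - 1) := by
      rw [← pow_add]; congr 1; omega
    have h4 : (a : ℝ) ^ m = (a : ℝ) ^ (m - 1) * a := by
      rw [← pow_succ]; congr 1; omega
    have h5 : (1 : ℝ) ≤ (a : ℝ) ^ (m - 1) := one_le_pow₀ (by linarith)
    have h6 : (2 : ℝ) ^ t * (a : ℝ) ^ (m - 1 - t) ≤ (a : ℝ) ^ (m - 1) := by
      rw [← h3]
      exact mul_le_mul_of_nonneg_right h2 (by positivity)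
    rw [h4]
    nlinarith
  unfold g
  rw [div_le_iff₀ hden]
  have hc0 : (0 : ℝ) ≤ c := Nat.cast_nonneg c
  have h7 : (1 / 2 : ℝ) ^ t * (2 : ℝ) ^ t = 1 := by
    rw [← mul_pow]; norm_num
  calc (c : ℝ) * (a : ℝ) ^ (m - 1 - t)
      = c * ((1 / 2 : ℝ) ^ t * ((2 : ℝ) ^ t * (a : ℝ) ^ (m - 1 - t))) := by
        rw [← mul_assoc ((1 / 2 : ℝ) ^ t), h7, one_mul]
    _ ≤ c * ((1 / 2 : ℝ) ^ t * ((a : ℝ) ^ m - 1)) := by gcongr
    _ = _ := by ring

lemma PG_le (hG : Good M K) (ha : 2 ≤ a) (hc : 1 ≤ c) (hm : 2 ≤ m)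
    (t u : ℕ) (ht : t < m) (hu : u < m) :
    PG M a c m (m - 1 - t) (m - 1 - u) ≤ 2 * K * c * ((3 / 4) ^ t * (3 / 4) ^ u) := by
  have hK : 0 ≤ K := by linarith [hG.one_le]
  have hgt := g_le' (c := c) ha hm t ht
  have hgu := g_le' (c := c) ha hm u hu
  have hpt := g_pos (c := c) ha hc hm (m - 1 - t)
  have hpu := g_pos (c := c) ha hc hm (m - 1 - u)
  have hc0 : (0 : ℝ) ≤ c := Nat.cast_nonneg c
  have key : ∀ s : ℕ, ((1 : ℝ) / 2) ^ s ≤ (3 / 4) ^ s * (3 / 4) ^ s := by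
    intro s
    rw [← mul_pow]
    exact pow_le_pow_left₀ (by norm_num) (by norm_num) s
  unfold PG
  rcases le_total t u with htu | hut
  · refine (hG.diff _ _).trans ?_
    rw [abs_of_pos hpu]
    have h1 : ((3 / 4 : ℝ)) ^ u * (3 / 4) ^ u ≤ (3 / 4) ^ t * (3 / 4) ^ u :=
      mul_le_mul_of_nonneg_right (pow_le_pow_of_le_one (by norm_num) (by norm_num) htu)
        (by positivity)
    calc 2 * K * g a c m (m - 1 - u) ≤ 2 * K * (c * (1 / 2) ^ u) := by gcongr
      _ ≤ 2 * K * (c * ((3 / 4) ^ t * (3 / 4) ^ u)) := by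
          have := (key u).trans h1
          gcongr
      _ = _ := by ring
  · refine (hG.diff' _ _).trans ?_
    rw [abs_of_pos hpt]
    have h1 : ((3 / 4 : ℝ)) ^ t * (3 / 4) ^ t ≤ (3 / 4) ^ t * (3 / 4) ^ u :=
      mul_le_mul_of_nonneg_left (pow_le_pow_of_le_one (by norm_num) (by norm_num) hut)
        (by positivity)
    calc 2 * K * g a c m (m - 1 - t) ≤ 2 * K * (c * (1 / 2) ^ t) := by gcongr
      _ ≤ 2 * K * (c * ((3 / 4) ^ t * (3 / 4) ^ u)) := by
          have := (key t).trans h1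
          gcongr
      _ = _ := by ring

lemma PG_total (hG : Good M K) (ha : 2 ≤ a) (hc : 1 ≤ c) (hm : 2 ≤ m) :
    ∑ i ∈ range m, ∑ j ∈ range m, PG M a c m i j ≤ 32 * K * c := by
  have hK : 0 ≤ K := by linarith [hG.one_le]
  rw [← Finset.sum_range_reflect]
  have h2 : ∀ i, ∑ j ∈ range m, PG M a c m i j = ∑ j ∈ range m, PG M a c m i (m - 1 - j) := by
    intro i
    rw [← Finset.sum_range_reflect]
  simp_rw [h2]
  calc ∑ t ∈ range m, ∑ u ∈ range m, PG M a c m (m - 1 - t) (m - 1 - u)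
      ≤ ∑ t ∈ range m, ∑ u ∈ range m, 2 * K * c * ((3 / 4 : ℝ) ^ t * (3 / 4) ^ u) := by
        refine Finset.sum_le_sum fun t ht => Finset.sum_le_sum fun u hu => ?_
        exact PG_le hG ha hc hm t u (Finset.mem_range.mp ht) (Finset.mem_range.mp hu)
    _ = 2 * K * c * ((∑ t ∈ range m, (3 / 4 : ℝ) ^ t) * ∑ u ∈ range m, (3 / 4 : ℝ) ^ u) := by
        rw [Finset.sum_mul_sum, Finset.mul_sum]
        exact Finset.sum_congr rfl fun t _ => by rw [Finset.mul_sum]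
    _ ≤ 32 * K * c := by
        have h3 := geom34 m
        have h4 : 0 ≤ ∑ t ∈ range m, (3 / 4 : ℝ) ^ t := Finset.sum_nonneg fun t _ => by positivity
        have h5 : (∑ t ∈ range m, (3 / 4 : ℝ) ^ t) * ∑ u ∈ range m, (3 / 4 : ℝ) ^ u ≤ 16 := by
          nlinarith
        have h6 : 0 ≤ 2 * K * (c : ℝ) := by positivity
        nlinarith

end

theorem pair : S_PAIR := by
  intro M K a c m hG ha hc hm k
  have h := PG_sum_shift (c := c) hG ha hm k
  have h2 := PG_total hG ha hc hm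
  have h3 : ∑ i ∈ range m, ∑ j ∈ range m,
    |M (g a c m (i + k) - g a c m (j + k)) - M (g a c m (i + k)) * M (g a c m (j + k))|
      = ∑ i ∈ range m, ∑ j ∈ range m, PG M a c m (i + k) (j + k) := rfl
  rw [h3, h]
  exact h2

end Pool.Agent.Y196.JX
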