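import Pool.Agent.Y196.JX.Chf

/-!
# Total variation distance and differences of two copies
-/

set_option autoImplicit false

namespace Pool.Agent.Y196.JX

open Finset H942JM

/-- Test functions with values in the unit interval. -/
lemma tv_test' (q : ℕ) (w α : ℕ → ℝ) (hw : ∑ r ∈ range q, w r = 0)
    (h0 : ∀ r, 0 ≤ α r) (h1 : ∀ r, α r ≤ 1) :
    ∑ r ∈ range q, w r * α r ≤ (1 / 2) * ∑ r ∈ range q, |w r| := by
  have h1 : ∑ r ∈ range q, (2 * α r - 1) * w r ≤ ∑ r ∈ range q, |w r| := by
    refine Finset.sum_le_sum fun r _ => ?_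
    have h2 : |2 * α r - 1| ≤ 1 := by
      rw [abs_le]
      constructor <;> linarith [h0 r, h1 r]
    calc (2 * α r - 1) * w r ≤ |(2 * α r - 1) * w r| := le_abs_self _
      _ = |2 * α r - 1| * |w r| := abs_mul _ _
      _ ≤ 1 * |w r| := mul_le_mul_of_nonneg_right h2 (abs_nonneg _)
      _ = |w r| := one_mul _
  have h2 : ∑ r ∈ range q, (2 * α r - 1) * w r
      = 2 * (∑ r ∈ range q, w r * α r) - ∑ r ∈ range q, w r := by
    rw [Finset.mul_sum, ← Finset.sum_sub_distrib]
    exact Finset.sum_congr rfl fun r _ => by ring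
  rw [h2, hw] at h1
  linarith

/-- The sum of a periodic function over a period. -/
lemma sum_period (q : ℕ) (α : ℤ → ℝ) (hα : ∀ x : ℤ, α (x + q) = α x) (z : ℤ) :
    ∑ r ∈ range q, α ((r : ℤ) + z) = ∑ r ∈ range q, α (r : ℤ) := by
  have step : ∀ z : ℤ, ∑ r ∈ range q, α ((r : ℤ) + (z + 1)) = ∑ r ∈ range q, α ((r : ℤ) + z) := by
    intro z
    have h1 := Finset.sum_range_succ (fun r : ℕ => α ((r : ℤ) + z)) q
    have h2 := Finset.sum_range_succ' (fun r : ℕ => α ((r : ℤ) + z)) q
    have h3 : α ((q : ℤ) + z) = α (((0 : ℕ) : ℤ) + z) := by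
      rw [add_comm, hα]; simp
    have h4 : ∑ r ∈ range q, α (((r + 1 : ℕ) : ℤ) + z) = ∑ r ∈ range q, α ((r : ℤ) + (z + 1)) :=
      Finset.sum_congr rfl fun r _ => by congr 1; push_cast; ring
    rw [h1] at h2
    rw [h4] at h2
    linarith
  induction z using Int.induction_on with
  | zero => simp
  | succ i ih => rw [step, ih]
  | pred i ih =>
    have h := step (-(i : ℤ) - 1)
    rw [show -(i : ℤ) - 1 + 1 = -(i : ℤ) by ring, ih] at h
    exact h.symm

lemma law_total {μ : ℤ →₀ ℝ} (h1 : (μ.sum fun _ p => p) = 1) (a : ℤ) (n : ℕ) :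
    ((law μ a n).sum fun _ p => p) = 1 := by
  have h2 : chf (law μ a n) 0 = 1 := by
    rw [lawProd]
    refine Finset.prod_eq_one fun k _ => ?_
    rw [mul_zero, chf_zero h1]
  rw [chf_eq] at h2
  simp only [Complex.ofReal_zero, mul_zero, zero_mul, Complex.exp_zero, mul_one] at h2
  rw [← Complex.ofReal_sum] at h2
  exact_mod_cast h2

theorem tv2 : S_TV2 := by
  intro μ h0 h1 a q n hq α hα0 hα1 hαmod
  set P := law μ a n with hP
  have hPnn : ∀ x, 0 ≤ P x := fun x => law_nonneg h0 _ _ _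
  have hPtot : (P.sum fun _ p => p) = 1 := law_total h1 a n
  have hPtot' : ∑ y ∈ P.support, P y = 1 := hPtot
  have hqR : (0 : ℝ) < q := by exact_mod_cast hq
  set β : ℤ → ℝ := fun x => ∑ y ∈ P.support, P y * α (x - y) with hβ
  have hβ0 : ∀ x, 0 ≤ β x := fun x =>
    Finset.sum_nonneg fun y _ => mul_nonneg (hPnn y) (hα0 _)
  have hβ1 : ∀ x, β x ≤ 1 := by
    intro x
    rw [← hPtot']
    refine Finset.sum_le_sum fun y _ => ?_
    calc P y * α (x - y) ≤ P y * 1 := mul_le_mul_of_nonneg_left (hα1 _) (hPnn y)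
      _ = P y := mul_one _
  have hβmod : ∀ x y : ℤ, (q : ℤ) ∣ x - y → β x = β y := by
    intro x y h
    refine Finset.sum_congr rfl fun z _ => ?_
    rw [hαmod (x - z) (y - z) (by rwa [show x - z - (y - z) = x - y by ring])]
  have hE : E P β = E2 P α := by
    unfold E E2 Finsupp.sum
    refine Finset.sum_congr rfl fun x _ => ?_
    rw [hβ]
    simp only
    rw [Finset.mul_sum]
    exact Finset.sum_congr rfl fun y _ => by ring
  have hmass : ∑ r ∈ range q, residueMass P q r = 1 := by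
    have h := sum_residueMass P q hq (fun _ => 1) (fun _ _ _ => rfl)
    simp only [mul_one] at h
    rw [h]
    unfold E
    simp only [mul_one]
    exact hPtot
  have hw : ∑ r ∈ range q, (residueMass P q r - 1 / (q : ℝ)) = 0 := by
    rw [Finset.sum_sub_distrib, hmass, Finset.sum_const, Finset.card_range, nsmul_eq_mul]
    field_simp
    ring
  have htest := tv_test' q (fun r => residueMass P q r - 1 / (q : ℝ)) (fun r => β r) hw
    (fun r => hβ0 r) (fun r => hβ1 r)
  have hsplit : ∑ r ∈ range q, (residueMass P q r - 1 / (q : ℝ)) * β (r : ℤ)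
      = E P β - (1 / (q : ℝ)) * ∑ r ∈ range q, β (r : ℤ) := by
    rw [← sum_residueMass P q hq β hβmod, Finset.mul_sum, ← Finset.sum_sub_distrib]
    exact Finset.sum_congr rfl fun r _ => by ring
  have hsum : ∑ r ∈ range q, β (r : ℤ) = ∑ r ∈ range q, α (r : ℤ) := by
    rw [hβ]
    simp only
    rw [Finset.sum_comm]
    have h3 : ∀ y ∈ P.support, ∑ r ∈ range q, P y * α ((r : ℤ) - y)
        = P y * ∑ r ∈ range q, α (r : ℤ) := by
      intro y _
      rw [← Finset.mul_sum]
      congr 1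
      have h4 := sum_period q α (fun x => hαmod _ _ ⟨1, by ring⟩) (-y)
      rw [← h4]
      exact Finset.sum_congr rfl fun r _ => by rw [sub_eq_add_neg]
    rw [Finset.sum_congr rfl h3, ← Finset.sum_mul, hPtot', one_mul]
  rw [hsplit, hE, hsum] at htest
  exact htest

end Pool.Agent.Y196.JX
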