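import Pool.Agent.Y196.JX.Chf
import Pool.Agent.Y196.JX.Tv
import Pool.Agent.Y196.JX.Core
import Pool.Agent.Y196.JX.Pair
import Pool.Agent.Y196.JX.Num
import Pool.Agent.Y196.JX.Nd
import Pool.Agent.Y196.JX.Fin
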