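import Pool.Agent.Y196.JX.Stm

/-!
# Characteristic functions
-/

set_option autoImplicit false

namespace Pool.Agent.Y196.JX

open Finset H942JM

lemma exp_eq (θ : ℝ) (x : ℤ) :
    Complex.exp (2 * Real.pi * Complex.I * θ * x)
      = Complex.exp (((2 * Real.pi * θ * x : ℝ) : ℂ) * Complex.I) := by
  congr 1
  push_cast
  ring

lemma norm_exp_eq (θ : ℝ) (x : ℤ) : ‖Complex.exp (2 * Real.pi * Complex.I * θ * x)‖ = 1 := by
  rw [exp_eq, Complex.norm_exp_ofReal_mul_I]

lemma chf_eq (P : ℤ →₀ ℝ) (θ : ℝ) :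
    chf P θ = ∑ x ∈ P.support, (P x : ℂ) * Complex.exp (2 * Real.pi * Complex.I * θ * x) := rfl

lemma chf_norm_le {μ : ℤ →₀ ℝ} (h0 : ∀ x, 0 ≤ μ x) (h1 : (μ.sum fun _ p => p) = 1) (θ : ℝ) :
    ‖chf μ θ‖ ≤ 1 := by
  rw [← h1]
  rw [chf_eq]
  unfold Finsupp.sum
  refine (norm_sum_le _ _).trans (Finset.sum_le_sum fun x _ => ?_)
  rw [norm_mul, norm_exp_eq, mul_one, Complex.norm_real, Real.norm_eq_abs, abs_of_nonneg (h0 x)]

lemma chf_add_int (μ : ℤ →₀ ℝ) (θ : ℝ) (z : ℤ) : chf μ (θ + z) = chf μ θ := by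
  rw [chf_eq, chf_eq]
  refine Finset.sum_congr rfl fun x _ => ?_
  congr 1
  have : (2 * Real.pi * Complex.I * ((θ + z : ℝ) : ℂ) * x : ℂ)
      = 2 * Real.pi * Complex.I * θ * x + ((z * x : ℤ) : ℂ) * (2 * Real.pi * Complex.I) := by
    push_cast; ring
  rw [this, Complex.exp_add, Complex.exp_int_mul_two_pi_mul_I, mul_one]

lemma chf_neg (μ : ℤ →₀ ℝ) (θ : ℝ) : chf μ (-θ) = (starRingEnd ℂ) (chf μ θ) := by
  rw [chf_eq, chf_eq, map_sum]
  refine Finset.sum_congr rfl fun x _ => ?_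
  rw [map_mul, Complex.conj_ofReal, ← Complex.exp_conj]
  congr 1
  simp only [map_mul, Complex.conj_ofReal, Complex.conj_I, map_intCast, map_ofNat]
  congr 1
  push_cast
  ring

lemma chf_zero {μ : ℤ →₀ ℝ} (h1 : (μ.sum fun _ p => p) = 1) : chf μ 0 = 1 := by
  rw [chf_eq]
  unfold Finsupp.sum at h1
  simp only [Complex.ofReal_zero, mul_zero, zero_mul, Complex.exp_zero, mul_one]
  rw [← Complex.ofReal_sum, h1, Complex.ofReal_one]

lemma exp_lip (s t : ℝ) :
    ‖Complex.exp ((s : ℂ) * Complex.I) - Complex.exp ((t : ℂ) * Complex.I)‖ ≤ 2 * |s - t| := by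
  have e : Complex.exp ((s : ℂ) * Complex.I) - Complex.exp ((t : ℂ) * Complex.I)
      = ((Real.cos s - Real.cos t : ℝ) : ℂ) + ((Real.sin s - Real.sin t : ℝ) : ℂ) * Complex.I := by
    rw [Complex.exp_mul_I, Complex.exp_mul_I, ← Complex.ofReal_cos, ← Complex.ofReal_cos,
      ← Complex.ofReal_sin, ← Complex.ofReal_sin]
    push_cast
    ring
  rw [e]
  refine (norm_add_le _ _).trans ?_
  rw [norm_mul, Complex.norm_I, mul_one, Complex.norm_real, Complex.norm_real, Real.norm_eq_abs,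
    Real.norm_eq_abs]
  have h1 := Real.abs_cos_sub_cos_le s t
  have h2 := Real.abs_sin_sub_sin_le s t
  linarith

lemma chf_lip {μ : ℤ →₀ ℝ} (h0 : ∀ x, 0 ≤ μ x) (x y : ℝ) :
    ‖chf μ x - chf μ y‖ ≤ (4 * Real.pi * ∑ b ∈ μ.support, μ b * |(b : ℝ)|) * |x - y| := by
  rw [chf_eq, chf_eq, ← Finset.sum_sub_distrib, Finset.mul_sum, Finset.sum_mul]
  refine (norm_sum_le _ _).trans (Finset.sum_le_sum fun b _ => ?_)
  rw [← mul_sub, norm_mul, Complex.norm_real, Real.norm_eq_abs, abs_of_nonneg (h0 b), exp_eq,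
    exp_eq]
  have h := exp_lip (2 * Real.pi * x * b) (2 * Real.pi * y * b)
  have e : 2 * Real.pi * x * b - 2 * Real.pi * y * b = 2 * Real.pi * (b * (x - y)) := by ring
  rw [e, abs_mul, abs_of_pos Real.two_pi_pos, abs_mul] at h
  calc μ b * ‖_‖ ≤ μ b * (2 * (2 * Real.pi * (|(b : ℝ)| * |x - y|))) :=
        mul_le_mul_of_nonneg_left h (h0 b)
    _ = _ := by ring

theorem good : S_GOOD := by
  intro μ h0 h1
  set A : ℝ := 4 * Real.pi * ∑ b ∈ μ.support, μ b * |(b : ℝ)| with hA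
  have hA0 : 0 ≤ A := by
    have : 0 ≤ ∑ b ∈ μ.support, μ b * |(b : ℝ)| :=
      Finset.sum_nonneg fun b _ => mul_nonneg (h0 b) (abs_nonneg _)
    have hp := Real.pi_pos
    positivity
  refine ⟨2 * A + 1, ?_⟩
  refine
    { nonneg := fun x => sq_nonneg _
      le_one := fun x => pow_le_one₀ (norm_nonneg _) (chf_norm_le h0 h1 x)
      per := fun x z => by simp only [chf_add_int]
      even := fun x => by simp only [chf_neg, RCLike.norm_conj]
      lip := ?_
      zero := by simp only [chf_zero h1]; norm_num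
      one_le := by linarith }
  intro x y
  have h2 := chf_lip h0 x y
  have h3 := abs_norm_sub_norm_le (chf μ x) (chf μ y)
  have h4 := chf_norm_le h0 h1 x
  have h5 := chf_norm_le h0 h1 y
  have h6 := norm_nonneg (chf μ x)
  have h7 := norm_nonneg (chf μ y)
  have e : ‖chf μ x‖ ^ 2 - ‖chf μ y‖ ^ 2
      = (‖chf μ x‖ + ‖chf μ y‖) * (‖chf μ x‖ - ‖chf μ y‖) := by ring
  rw [e, abs_mul, abs_of_nonneg (by positivity : 0 ≤ ‖chf μ x‖ + ‖chf μ y‖)]
  have h8 : |‖chf μ x‖ - ‖chf μ y‖| ≤ A * |x - y| := h3.trans h2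
  have h9 : 0 ≤ |x - y| := abs_nonneg _
  calc (‖chf μ x‖ + ‖chf μ y‖) * |‖chf μ x‖ - ‖chf μ y‖| ≤ 2 * (A * |x - y|) :=
        mul_le_mul (by linarith) h8 (abs_nonneg _) (by norm_num)
    _ ≤ (2 * A + 1) * |x - y| := by nlinarith

theorem lawProd : S_LAW := by
  intro μ a n
  induction n with
  | zero =>
    intro θ
    rw [law, Finset.prod_range_zero]
    unfold chf
    rw [Finsupp.sum_single_index (by simp)]
    simp
  | succ n ih =>
    intro θ
    have hz : ∀ (x : ℤ), ((0 : ℝ) : ℂ) * Complex.exp (2 * Real.pi * Complex.I * θ * x) = 0 := by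
      intro x; simp
    have hadd : ∀ (x : ℤ) (p r : ℝ),
        ((p + r : ℝ) : ℂ) * Complex.exp (2 * Real.pi * Complex.I * θ * x)
          = (p : ℂ) * Complex.exp (2 * Real.pi * Complex.I * θ * x)
            + (r : ℂ) * Complex.exp (2 * Real.pi * Complex.I * θ * x) := by
      intro x p r; push_cast; ring
    have key : ∀ (x : ℤ) (p : ℝ),
        ((μ.sum fun b r => Finsupp.single (a * x + b) (p * r)).sum fun x p =>
          (p : ℂ) * Complex.exp (2 * Real.pi * Complex.I * θ * x))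
          = (p : ℂ) * Complex.exp (2 * Real.pi * Complex.I * ((a * θ : ℝ) : ℂ) * x)
            * chf μ θ := by
      intro x p
      rw [Finsupp.sum_sum_index (fun x => hz x) (fun x p r => hadd x p r)]
      rw [chf_eq, Finset.mul_sum]
      refine Finset.sum_congr rfl fun b _ => ?_
      beta_reduce
      have h3 := Finsupp.sum_single_index (a := a * x + b) (b := p * μ b)
        (h := fun (x : ℤ) (p : ℝ) => (p : ℂ) * Complex.exp (2 * Real.pi * Complex.I * θ * x))
        (hz _)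
      rw [h3]
      have e : (2 * Real.pi * Complex.I * θ * ((a * x + b : ℤ) : ℂ) : ℂ)
          = 2 * Real.pi * Complex.I * ((a * θ : ℝ) : ℂ) * x + 2 * Real.pi * Complex.I * θ * b := by
        push_cast; ring
      rw [e, Complex.exp_add]
      push_cast
      ring
    have hstep : chf (law μ a (n + 1)) θ = chf (law μ a n) (a * θ) * chf μ θ := by
      conv_lhs => rw [chf, law]
      rw [Finsupp.sum_sum_index (fun x => hz x) (fun x p r => hadd x p r)]
      rw [chf_eq (law μ a n), Finset.sum_mul]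
      refine Finset.sum_congr rfl fun x _ => ?_
      exact key x ((law μ a n) x)
    rw [hstep, ih, Finset.prod_range_succ', pow_zero, one_mul]
    congr 1
    refine Finset.prod_congr rfl fun k _ => ?_
    congr 1
    rw [pow_succ]
    ring

theorem e2cos : S_COS := by
  intro P θ
  have h1 : ((‖chf P θ‖ ^ 2 : ℝ) : ℂ) = chf P θ * (starRingEnd ℂ) (chf P θ) := by
    rw [Complex.mul_conj, Complex.normSq_eq_norm_sq]
  have h2 : ‖chf P θ‖ ^ 2 = (chf P θ * (starRingEnd ℂ) (chf P θ)).re := by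
    rw [← h1, Complex.ofReal_re]
  rw [h2, ← chf_neg]
  rw [chf_eq, chf_eq]
  unfold E2 Finsupp.sum
  rw [Finset.sum_mul_sum, Complex.re_sum]
  refine Finset.sum_congr rfl fun x _ => ?_
  rw [Complex.re_sum]
  refine Finset.sum_congr rfl fun y _ => ?_
  have e : (P x : ℂ) * Complex.exp (2 * Real.pi * Complex.I * θ * x) *
      ((P y : ℂ) * Complex.exp (2 * Real.pi * Complex.I * ((-θ : ℝ) : ℂ) * y))
      = ((P x * P y : ℝ) : ℂ) * Complex.exp (((2 * Real.pi * θ * ((x - y : ℤ) : ℝ) : ℝ) : ℂ)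
        * Complex.I) := by
    have e2 : (((2 * Real.pi * θ * ((x - y : ℤ) : ℝ) : ℝ) : ℂ) * Complex.I)
        = 2 * Real.pi * Complex.I * θ * x + 2 * Real.pi * Complex.I * ((-θ : ℝ) : ℂ) * y := by
      push_cast; ring
    rw [e2, Complex.exp_add]
    push_cast
    ring
  rw [e, Complex.re_ofReal_mul, Complex.exp_ofReal_mul_I_re]

end Pool.Agent.Y196.JX
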