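import Pool.Agent.Y196.JX.All

/-!
# The theorem on families of slow walks, and its consequence for two bases
-/

set_option autoImplicit false

namespace Pool.Agent.Y196.JX

open Finset H942JM

/-- Infinitely many moduli for which no walk of a finite family has started to mix. -/
theorem slowFamily (S : Finset (ℕ × (ℤ →₀ ℝ))) (N : ℕ) (hN : 0 < N)
    (hS : ∀ s ∈ S, 2 ≤ s.1 ∧ IsStepLaw s.2 ∧ Nondegenerate s.2 s.1) :
    ∃ C : ℝ, 0 < C ∧ ∀ δ : ℝ, 0 < δ → ∀ Q : ℕ, ∃ q : ℕ, Q ≤ q ∧ Nat.Coprime q N ∧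
      (∀ s ∈ S, Nat.Coprime q s.1) ∧
      ∀ s ∈ S, ∀ n : ℕ, (n : ℝ) ≤ C * (Real.log q * Real.log (Real.log q)) →
        1 - δ ≤ tvDist s.2 s.1 q n :=
  family good lawProd e2cos tv2 core pair num S N hN fun s hs =>
    ⟨(hS s hs).1, (hS s hs).2.1.nonneg, (hS s hs).2.1.total,
      nondeg_of (hS s hs).2.1.total (hS s hs).1 (hS s hs).2.2⟩

/-- The assertion of Q1 fails for every law which is nondegenerate in both bases. -/
theorem not_joint {μ : ℤ →₀ ℝ} (hμ : IsStepLaw μ) (h2 : Nondegenerate μ 2)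
    (h3 : Nondegenerate μ 3) {ε : ℝ} (_hε : 0 < ε) (hε1 : ε < 1) (Q : ℕ) :
    ∃ q : ℕ, Q ≤ q ∧ Nat.gcd q 6 = 1 ∧ ¬ MixesFast μ 2 ε q ∧ ¬ MixesFast μ 3 ε q := by
  classical
  obtain ⟨C, hC, hfam⟩ := slowFamily {(2, μ), (3, μ)} 6 (by norm_num) (by
    intro s hs
    rcases Finset.mem_insert.mp hs with rfl | hs
    · exact ⟨le_rfl, hμ, h2⟩
    · rw [Finset.mem_singleton.mp hs]
      exact ⟨by norm_num, hμ, h3⟩)
  set K : ℝ := |(1 + ε) / entropyRate μ 2| + |(1 + ε) / entropyRate μ 3| + 1 with hK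
  obtain ⟨q, hQq, hcop, -, hslow⟩ := hfam ((1 - ε) / 2) (by linarith)
    (Q + ⌈Real.exp (Real.exp (K / C))⌉₊)
  have hq2 : Real.exp (Real.exp (K / C)) ≤ q := by
    have h1 := Nat.le_ceil (Real.exp (Real.exp (K / C)))
    have h4 : (⌈Real.exp (Real.exp (K / C))⌉₊ : ℝ) ≤ q := by exact_mod_cast (by omega)
    linarith
  have hqpos : (0 : ℝ) < q := (Real.exp_pos _).trans_le hq2
  have hlog : Real.exp (K / C) ≤ Real.log q := by
    rw [Real.le_log_iff_exp_le hqpos]; exact hq2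
  have hlogpos : 0 < Real.log q := (Real.exp_pos _).trans_le hlog
  have hK0 : 0 ≤ K / C := by
    rw [hK]
    have := abs_nonneg ((1 + ε) / entropyRate μ 2)
    have := abs_nonneg ((1 + ε) / entropyRate μ 3)
    positivity
  have hlog1 : 1 ≤ Real.log q := (Real.one_le_exp hK0).trans hlog
  have hloglog : K ≤ C * Real.log (Real.log q) := by
    have h1 : K / C ≤ Real.log (Real.log q) := by
      rw [Real.le_log_iff_exp_le hlogpos]; exact hlog
    rw [div_le_iff₀ hC] at h1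
    linarith
  refine ⟨q, by omega, hcop, ?_, ?_⟩
  · refine not_mixesFast (C := C) (δ := (1 - ε) / 2) (by linarith) ?_ hlog1 ?_
    · have := abs_nonneg ((1 + ε) / entropyRate μ 3)
      linarith
    · intro n hn
      exact hslow (2, μ) (by simp) n hn
  · refine not_mixesFast (C := C) (δ := (1 - ε) / 2) (by linarith) ?_ hlog1 ?_
    · have := abs_nonneg ((1 + ε) / entropyRate μ 2)
      linarith
    · intro n hn
      exact hslow (3, μ) (by simp) n hn

lemma chf_mu0 (θ : ℝ) : chf mu0 θ = ((M θ : ℝ) : ℂ) := by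
  have hz : ∀ (x : ℤ), ((0 : ℝ) : ℂ) * Complex.exp (2 * Real.pi * Complex.I * θ * x) = 0 := by
    intro x; simp
  have hadd : ∀ (x : ℤ) (p r : ℝ),
      ((p + r : ℝ) : ℂ) * Complex.exp (2 * Real.pi * Complex.I * θ * x)
        = (p : ℂ) * Complex.exp (2 * Real.pi * Complex.I * θ * x)
          + (r : ℂ) * Complex.exp (2 * Real.pi * Complex.I * θ * x) := by
    intro x p r; push_cast; ring
  unfold chf mu0 M
  rw [Finsupp.sum_add_index' (fun x => hz x) (fun x p r => hadd x p r),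
    Finsupp.sum_add_index' (fun x => hz x) (fun x p r => hadd x p r),
    Finsupp.sum_single_index (hz _), Finsupp.sum_single_index (hz _),
    Finsupp.sum_single_index (hz _), exp_eq, exp_eq, exp_eq]
  have e1 : (2 * Real.pi * θ * ((1 : ℤ) : ℝ)) = 2 * Real.pi * θ := by push_cast; ring
  have e2 : (2 * Real.pi * θ * ((-1 : ℤ) : ℝ)) = -(2 * Real.pi * θ) := by push_cast; ring
  have e0 : (2 * Real.pi * θ * ((0 : ℤ) : ℝ)) = 0 := by push_cast; ring
  have hE : ∀ t : ℝ, Complex.exp ((t : ℂ) * Complex.I)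
      = (Real.cos t : ℂ) + (Real.sin t : ℂ) * Complex.I := by
    intro t
    rw [Complex.exp_mul_I, ← Complex.ofReal_cos, ← Complex.ofReal_sin]
  rw [e1, e2, e0, hE, hE, hE, Real.cos_neg, Real.sin_neg, Real.cos_zero, Real.sin_zero]
  push_cast
  ring

lemma mu0_nondegenerate (a : ℕ) : Nondegenerate mu0 a := by
  refine ⟨1, one_ne_zero, fun k => ?_⟩
  rw [chf_mu0]
  have h := half_le_M (((1 : ℤ) : ℝ) / (a : ℝ) ^ (k + 1))
  have h2 : M (((1 : ℤ) : ℝ) / (a : ℝ) ^ (k + 1)) ≠ 0 := by linarith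
  exact_mod_cast h2

end Pool.Agent.Y196.JX
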