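import Pool.Agent.Y196.JX.Unif
import Pool.Agent.Y196.JX.Slow
import Pool.Agent.Y418.JX.Uni
import Pool.Agent.Y418.JX.Maxp
import Pool.Agent.Y418.JX.Ent
import Pool.Agent.Y418.JX.Pars

/-!
# The classification of the fast walks
-/

set_option autoImplicit false

namespace Pool.Agent.Y196.JX

open Finset H942JM Filter Topology

theorem maxp' : S_MAXP := Pool.Agent.Y418.JX.maxp
theorem supp' : S_SUPP := Pool.Agent.Y418.JX.supp
theorem pars' : S_PARS := Pool.Agent.Y418.JX.pars maxp' supp'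
theorem unif' : S_UNIF := unif pars'

lemma tvDist_nonneg (μ : ℤ →₀ ℝ) (a : ℤ) (q n : ℕ) : 0 ≤ tvDist μ a q n := by
  unfold tvDist
  have : 0 ≤ ∑ r ∈ range q, |residueMass (law μ a n) q r - 1 / (q : ℝ)| :=
    Finset.sum_nonneg fun _ _ => abs_nonneg _
  linarith

/-- Nondegeneracy fails exactly if there are zeros within a bounded number of steps. -/
theorem degenerate_iff {μ : ℤ →₀ ℝ} (hμ : IsStepLaw μ) {a : ℕ} (ha : 2 ≤ a) :
    ¬ Nondegenerate μ a ↔ ∃ J : ℕ, Degen μ a J := by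
  constructor
  · intro h
    apply Pool.Agent.Y418.JX.uni μ a hμ.total ha
    intro c hc
    by_contra hcon
    push Not at hcon
    exact h ⟨c, hc, hcon⟩
  · rintro ⟨J, hJ⟩ ⟨c, hc, hne⟩
    have hnd : ¬ ((a : ℤ) ^ c.natAbs ∣ c) := by
      intro hd
      have h1 : (a : ℤ) ^ c.natAbs ≤ |c| := Int.le_of_dvd (abs_pos.mpr hc) ((dvd_abs _ _).mpr hd)
      have h2 : c.natAbs < a ^ c.natAbs := Nat.lt_pow_self (by omega)
      have h3 : ((c.natAbs : ℕ) : ℤ) < (a : ℤ) ^ c.natAbs := by exact_mod_cast h2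
      rw [Int.natCast_natAbs] at h3
      omega
    obtain ⟨v, -, c', hc', hca⟩ := exact_pow _ hnd
    obtain ⟨k, -, hk⟩ := hJ c' hca
    apply hne (v + k)
    have haR : (0 : ℝ) < a := by exact_mod_cast (by omega : 0 < a)
    have e : (c : ℝ) / (a : ℝ) ^ (v + k + 1) = (c' : ℝ) / (a : ℝ) ^ (k + 1) := by
      rw [hc', add_assoc, pow_add]
      push_cast
      field_simp
    rw [e]
    exact hk

/-- **Bounded window, upper bound.** -/
theorem mixed_of_degen {μ : ℤ →₀ ℝ} (hμ : IsStepLaw μ) {a J : ℕ} (ha : 2 ≤ a)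
    (hd : Degen μ a J) {δ : ℝ} (hδ : 0 < δ) :
    ∃ T : ℕ, ∀ q n : ℕ, Nat.Coprime q a → q * a ^ T ≤ a ^ n → tvDist μ a q n ≤ δ := by
  obtain ⟨T, hT⟩ := unif' μ a J hμ ha hd (δ ^ 2) (by positivity)
  refine ⟨T, fun q n hcop hn => ?_⟩
  have hq : 0 < q := by
    rcases Nat.eq_zero_or_pos q with h | h
    · rw [h, Nat.coprime_zero_left] at hcop
      omega
    · exact h
  have h1 := hT n q hq hcop hn
  have h2 := Pool.Agent.Y418.JX.tvl2 μ hμ.nonneg hμ.total a q n hq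
  exact (le_abs_self _).trans (abs_le_of_sq_le_sq (h2.trans h1) hδ.le)

/-- **Lower bound**, for all laws. -/
theorem far_of_small {μ : ℤ →₀ ℝ} (hμ : IsStepLaw μ) {a : ℕ} (ha : 2 ≤ a) {δ : ℝ} (hδ : 0 < δ) :
    ∃ T : ℕ, ∀ q n : ℕ, a ^ n * a ^ T ≤ q → 1 - δ ≤ tvDist μ a q n := by
  classical
  obtain ⟨D, hD, hsupp⟩ := supp' μ a ha
  have haR : (2 : ℝ) ≤ a := by exact_mod_cast ha
  obtain ⟨T, hT⟩ := pow_unbounded_of_one_lt ((5 * D : ℝ) / δ) (by linarith : (1 : ℝ) < a)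
  refine ⟨T, fun q n hn => ?_⟩
  have hqpos : 0 < q := lt_of_lt_of_le (by positivity) hn
  have hqR : (0 : ℝ) < q := by exact_mod_cast hqpos
  set W : ℕ := 2 * D * a ^ n with hW
  set R : Finset ℤ := Finset.Icc (-(W : ℤ)) W with hR
  set α : ℤ → ℝ := fun z => if ∃ w ∈ R, (q : ℤ) ∣ z - w then 1 else 0 with hα
  have hα0 : ∀ z, 0 ≤ α z := by intro z; rw [hα]; simp only; split_ifs <;> norm_num
  have hα1 : ∀ z, α z ≤ 1 := by intro z; rw [hα]; simp only; split_ifs <;> norm_num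
  have hαm : ∀ x y : ℤ, (q : ℤ) ∣ x - y → α x = α y := by
    intro x y hxy
    rw [hα]
    simp only
    congr 1
    apply propext
    constructor
    · rintro ⟨w, hw, hd⟩
      refine ⟨w, hw, ?_⟩
      have := dvd_sub hd hxy
      rwa [show x - w - (x - y) = y - w by ring] at this
    · rintro ⟨w, hw, hd⟩
      refine ⟨w, hw, ?_⟩
      have := dvd_add hd hxy
      rwa [show y - w + (x - y) = x - w by ring] at this
  have h1 := tv2 μ hμ.nonneg hμ.total a q n hqpos α hα0 hα1 hαm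
  have h2 : E2 (law μ a n) α = 1 := by
    unfold E2 Finsupp.sum
    have h3 : ∀ x ∈ (law μ (a : ℤ) n).support, ∀ y ∈ (law μ (a : ℤ) n).support,
        law μ (a : ℤ) n x * law μ (a : ℤ) n y * α (x - y)
          = law μ (a : ℤ) n x * law μ (a : ℤ) n y := by
      intro x hx y hy
      have hx' := abs_le.mp (hsupp n x (Finsupp.mem_support_iff.mp hx))
      have hy' := abs_le.mp (hsupp n y (Finsupp.mem_support_iff.mp hy))
      have h4 : α (x - y) = 1 := by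
        rw [hα]
        simp only
        rw [if_pos]
        refine ⟨x - y, ?_, by rw [sub_self]; exact dvd_zero _⟩
        rw [hR, Finset.mem_Icc, hW]
        push_cast
        constructor <;> nlinarith
      rw [h4, mul_one]
    rw [Finset.sum_congr rfl fun x hx => Finset.sum_congr rfl fun y hy => h3 x hx y hy,
      ← Finset.sum_mul_sum]
    have h5 : ∑ y ∈ (law μ (a : ℤ) n).support, law μ (a : ℤ) n y = 1 := law_total hμ.total a n
    rw [h5, mul_one]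
  have h3 : ∑ r ∈ range q, α (r : ℤ) ≤ 2 * W + 1 := by
    have h4 : ∑ r ∈ range q, α (r : ℤ)
        = (((range q).filter fun r : ℕ => ∃ w ∈ R, (q : ℤ) ∣ (r : ℤ) - w).card : ℝ) := by
      rw [Finset.card_filter]
      push_cast
      rfl
    have h5 : ((range q).filter fun r : ℕ => ∃ w ∈ R, (q : ℤ) ∣ (r : ℤ) - w).card ≤ R.card := by
      have h6 : ((range q).filter fun r : ℕ => ∃ w ∈ R, (q : ℤ) ∣ (r : ℤ) - w)
          ⊆ R.image fun w => (w % (q : ℤ)).toNat := by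
        intro r hr
        rw [Finset.mem_filter, Finset.mem_range] at hr
        obtain ⟨hrq, w, hw, hd⟩ := hr
        rw [Finset.mem_image]
        refine ⟨w, hw, ?_⟩
        have h7 : w % (q : ℤ) = (r : ℤ) := by
          have h8 : (r : ℤ) % q = w % q :=
            Int.emod_eq_emod_iff_emod_sub_eq_zero.mpr (Int.emod_eq_zero_of_dvd hd)
          rw [← h8]
          exact Int.emod_eq_of_lt (by positivity) (by exact_mod_cast hrq)
        rw [h7]
        exact Int.toNat_natCast r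
      exact (Finset.card_le_card h6).trans Finset.card_image_le
    have h6 : R.card = 2 * W + 1 := by
      rw [hR, Int.card_Icc]
      omega
    rw [h4]
    rw [h6] at h5
    exact_mod_cast h5
  have h4 : (1 / (q : ℝ)) * ∑ r ∈ range q, α (r : ℤ) ≤ δ := by
    have h5 : (2 * (W : ℝ) + 1) ≤ 5 * D * (a : ℝ) ^ n := by
      rw [hW]
      push_cast
      have h6 : (1 : ℝ) ≤ (a : ℝ) ^ n := one_le_pow₀ (by linarith)
      have h7 : (1 : ℝ) ≤ D := by exact_mod_cast hD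
      nlinarith
    have h6 : (a : ℝ) ^ n * (a : ℝ) ^ T ≤ q := by exact_mod_cast hn
    have h7 : 5 * D < δ * (a : ℝ) ^ T := by
      rw [div_lt_iff₀ hδ] at hT
      linarith
    have h8 : 5 * D * (a : ℝ) ^ n ≤ δ * q := by
      have h9 : (0 : ℝ) < (a : ℝ) ^ n := by positivity
      calc 5 * D * (a : ℝ) ^ n ≤ δ * (a : ℝ) ^ T * (a : ℝ) ^ n :=
            mul_le_mul_of_nonneg_right h7.le h9.le
        _ = δ * ((a : ℝ) ^ n * (a : ℝ) ^ T) := by ring
        _ ≤ δ * q := mul_le_mul_of_nonneg_left h6 hδ.le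
    rw [one_div, inv_mul_le_iff₀ hqR]
    linarith
  linarith

/-- Degenerate laws mix fast. -/
theorem fast_of_degenerate {μ : ℤ →₀ ℝ} (hμ : IsStepLaw μ) {a : ℕ} (ha : 2 ≤ a)
    (hd : ¬ Nondegenerate μ a) {ε : ℝ} (hε : 0 < ε) :
    ∃ q₀ : ℕ, ∀ q : ℕ, q₀ ≤ q → Nat.Coprime q a → MixesFast μ a ε q := by
  obtain ⟨J, hJ⟩ := (degenerate_iff hμ ha).mp hd
  obtain ⟨T, hT⟩ := mixed_of_degen hμ ha hJ hε
  have hent : entropyRate μ a = Real.log a :=
    Pool.Agent.Y418.JX.ent maxp' μ a J hμ.nonneg hμ.total ha hJ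
  have haR : (2 : ℝ) ≤ a := by exact_mod_cast ha
  have hloga : 0 < Real.log a := Real.log_pos (by linarith)
  refine ⟨⌈Real.exp (T * Real.log a / ε)⌉₊, fun q hq hcop n hn => ?_⟩
  have hq1 : Real.exp (T * Real.log a / ε) ≤ q :=
    (Nat.le_ceil _).trans (by exact_mod_cast hq)
  have hqpos : (0 : ℝ) < q := (Real.exp_pos _).trans_le hq1
  have hlogq : T * Real.log a / ε ≤ Real.log q := by
    rw [Real.le_log_iff_exp_le hqpos]; exact hq1
  rw [div_le_iff₀ hε] at hlogq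
  rw [hent, div_le_iff₀ hloga] at hn
  apply hT q n hcop
  have h1 : Real.log ((q : ℝ) * (a : ℝ) ^ T) ≤ Real.log ((a : ℝ) ^ n) := by
    rw [Real.log_mul hqpos.ne' (by positivity), Real.log_pow, Real.log_pow]
    linarith
  have h2 : (q : ℝ) * (a : ℝ) ^ T ≤ (a : ℝ) ^ n :=
    (Real.log_le_log_iff (by positivity) (by positivity)).mp h1
  exact_mod_cast h2

/-- Nondegenerate families do not mix fast. -/
theorem not_family (S : Finset (ℕ × (ℤ →₀ ℝ))) (N : ℕ) (hN : 0 < N)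
    (hS : ∀ s ∈ S, 2 ≤ s.1 ∧ IsStepLaw s.2 ∧ Nondegenerate s.2 s.1) {ε : ℝ} (hε1 : ε < 1) (Q : ℕ) :
    ∃ q : ℕ, Q ≤ q ∧ Nat.Coprime q N ∧ (∀ s ∈ S, Nat.Coprime q s.1) ∧
      ∀ s ∈ S, ¬ MixesFast s.2 s.1 ε q := by
  classical
  obtain ⟨C, hC, hfam⟩ := slowFamily S N hN hS
  set K : ℝ := ∑ s ∈ S, |(1 + ε) / entropyRate s.2 s.1| + 1 with hK
  obtain ⟨q, hQq, hcop, hcops, hslow⟩ := hfam ((1 - ε) / 2) (by linarith)
    (Q + ⌈Real.exp (Real.exp (K / C))⌉₊)
  have hK0' : 0 ≤ ∑ s ∈ S, |(1 + ε) / entropyRate s.2 s.1| :=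
    Finset.sum_nonneg fun _ _ => abs_nonneg _
  have hq2 : Real.exp (Real.exp (K / C)) ≤ q := by
    have h1 := Nat.le_ceil (Real.exp (Real.exp (K / C)))
    have h4 : (⌈Real.exp (Real.exp (K / C))⌉₊ : ℝ) ≤ q := by exact_mod_cast (by omega)
    linarith
  have hqpos : (0 : ℝ) < q := (Real.exp_pos _).trans_le hq2
  have hlog : Real.exp (K / C) ≤ Real.log q := by
    rw [Real.le_log_iff_exp_le hqpos]; exact hq2
  have hlogpos : 0 < Real.log q := (Real.exp_pos _).trans_le hlog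
  have hK0 : 0 ≤ K / C := by rw [hK]; positivity
  have hlog1 : 1 ≤ Real.log q := (Real.one_le_exp hK0).trans hlog
  have hloglog : K ≤ C * Real.log (Real.log q) := by
    have h1 : K / C ≤ Real.log (Real.log q) := by
      rw [Real.le_log_iff_exp_le hlogpos]; exact hlog
    rw [div_le_iff₀ hC] at h1
    linarith
  refine ⟨q, by omega, hcop, hcops, fun s hs => ?_⟩
  refine not_mixesFast (C := C) (δ := (1 - ε) / 2) (by linarith) ?_ hlog1 ?_
  · have h1 : |(1 + ε) / entropyRate s.2 s.1| ≤ ∑ s ∈ S, |(1 + ε) / entropyRate s.2 s.1| :=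
      Finset.single_le_sum (f := fun s : ℕ × (ℤ →₀ ℝ) => |(1 + ε) / entropyRate s.2 s.1|)
        (fun _ _ => abs_nonneg _) hs
    linarith
  · exact fun n hn => hslow s hs n hn

/-- The criterion for finite families. -/
theorem family_iff (S : Finset (ℕ × (ℤ →₀ ℝ))) (N : ℕ) (hN : 0 < N)
    (hS : ∀ s ∈ S, 2 ≤ s.1 ∧ IsStepLaw s.2) :
    (∀ ε : ℝ, 0 < ε → ∃ q₀ : ℕ, ∀ q : ℕ, q₀ ≤ q → Nat.Coprime q N →
      (∀ s ∈ S, Nat.Coprime q s.1) → ∃ s ∈ S, MixesFast s.2 s.1 ε q) ↔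
    ∃ s ∈ S, ¬ Nondegenerate s.2 s.1 := by
  constructor
  · intro h
    by_contra hcon
    push Not at hcon
    obtain ⟨q₀, hq₀⟩ := h (1 / 2) (by norm_num)
    obtain ⟨q, hq, hcop, hcops, hnot⟩ := not_family S N hN
      (fun s hs => ⟨(hS s hs).1, (hS s hs).2, hcon s hs⟩) (ε := 1 / 2) (by norm_num) q₀
    obtain ⟨s, hs, hm⟩ := hq₀ q hq hcop hcops
    exact hnot s hs hm
  · rintro ⟨s, hs, hd⟩ ε hε
    obtain ⟨q₀, hq₀⟩ := fast_of_degenerate (hS s hs).2 (hS s hs).1 hd hε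
    exact ⟨q₀, fun q hq _ hc => ⟨s, hs, hq₀ q hq (hc s hs)⟩⟩

/-- The criterion for Q1. -/
theorem joint_iff {μ : ℤ →₀ ℝ} (hμ : IsStepLaw μ) :
    (∀ ε : ℝ, 0 < ε → ∃ q₀ : ℕ, ∀ q : ℕ, q₀ ≤ q → Nat.gcd q 6 = 1 →
      MixesFast μ 2 ε q ∨ MixesFast μ 3 ε q) ↔
    ¬ Nondegenerate μ 2 ∨ ¬ Nondegenerate μ 3 := by
  constructor
  · intro h
    by_contra hcon
    push Not at hcon
    obtain ⟨q₀, hq₀⟩ := h (1 / 2) (by norm_num)
    obtain ⟨q, hq, hgcd, hn2, hn3⟩ := not_joint hμ hcon.1 hcon.2 (ε := 1 / 2)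
      (by norm_num) (by norm_num) q₀
    rcases hq₀ q hq hgcd with h | h
    · exact hn2 h
    · exact hn3 h
  · intro h ε hε
    rcases h with h | h
    · obtain ⟨q₀, hq₀⟩ := fast_of_degenerate hμ le_rfl h hε
      refine ⟨q₀, fun q hq hg => Or.inl ?_⟩
      exact hq₀ q hq (Nat.Coprime.coprime_dvd_right (by norm_num : 2 ∣ 6) hg)
    · obtain ⟨q₀, hq₀⟩ := fast_of_degenerate hμ (by norm_num) h hε
      refine ⟨q₀, fun q hq hg => Or.inr ?_⟩
      exact hq₀ q hq (Nat.Coprime.coprime_dvd_right (by norm_num : 3 ∣ 6) hg)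

end Pool.Agent.Y196.JX
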