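import Pool.Agent.Y196.JX.Gap
import Pool.Agent.Y465.JX.Dig

/-!
# The entropy rate of a nondegenerate law is less than `log a`, second part
-/

set_option autoImplicit false

namespace Pool.Agent.Y196.JX

open Finset H942JM Filter Topology

lemma low_z {μ : ℤ →₀ ℝ} (h1 : (μ.sum fun _ p => p) = 1) {a : ℕ} (ha : 2 ≤ a) {c : ℤ} {κ : ℝ}
    (hprod : ∀ N : ℕ, κ ≤ ∏ k ∈ range N, ‖chf μ ((c : ℝ) / (a : ℝ) ^ (k + 1))‖) {N n : ℕ}
    (hNn : N ≤ n) : κ ≤ ‖chf (law μ (a : ℤ) n) ((c : ℝ) / (a : ℝ) ^ N)‖ := by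
  have haR : (0 : ℝ) < a := by exact_mod_cast (by omega : 0 < a)
  obtain ⟨t, rfl⟩ := Nat.exists_eq_add_of_le hNn
  rw [norm_law_prod, Finset.prod_range_add]
  have h2 : ∏ x ∈ range t, ‖chf μ ((a : ℝ) ^ (N + x) * ((c : ℝ) / (a : ℝ) ^ N))‖ = 1 := by
    apply Finset.prod_eq_one
    intro x _
    have e : (a : ℝ) ^ (N + x) * ((c : ℝ) / (a : ℝ) ^ N) = 0 + (((a : ℤ) ^ x * c : ℤ) : ℝ) := by
      rw [pow_add]
      push_cast
      field_simp
      ring
    rw [e, chf_add_int, chf_zero h1, norm_one]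
  rw [h2, mul_one]
  refine (hprod N).trans (le_of_eq ?_)
  rw [← Finset.prod_range_reflect]
  refine Finset.prod_congr rfl fun k hk => ?_
  have hk' := Finset.mem_range.mp hk
  congr 2
  have e : (a : ℝ) ^ N = (a : ℝ) ^ k * (a : ℝ) ^ (N - 1 - k + 1) := by
    rw [← pow_add]; congr 1; omega
  rw [e]
  field_simp

theorem gap {μ : ℤ →₀ ℝ} (h0 : ∀ x, 0 ≤ μ x) (h1 : (μ.sum fun _ p => p) = 1) {a : ℕ}
    (ha : 2 ≤ a) (hnd : Nondegenerate μ a) :
    ∃ m : ℕ, 0 < m ∧ ∃ η C : ℝ, 0 < η ∧ ∀ l : ℕ,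
      entropy (law μ (a : ℤ) (m * l)) ≤ C + l * (m * Real.log a - η) := by
  obtain ⟨c, hc, hne⟩ := hnd
  obtain ⟨κ, hκ, hprod⟩ := pos μ a h0 h1 ha c hne
  have hκ1 : κ ≤ 1 := by simpa using hprod 0
  obtain ⟨D, hD, hsupp⟩ := Pool.Agent.Y418.JX.supp μ a ha
  have haR : (2 : ℝ) ≤ a := by exact_mod_cast ha
  have hpi := Real.pi_gt_three
  obtain ⟨m₀, hm₀⟩ := pow_unbounded_of_one_lt (8 * Real.pi * |(c : ℝ)| / κ)
    (by linarith : (1 : ℝ) < a)
  set m : ℕ := m₀ + 1 with hm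
  set A : ℕ := a ^ m with hA
  have hApos : 0 < A := by positivity
  have hAR : (0 : ℝ) < (A : ℝ) := by exact_mod_cast hApos
  have hAbig : 8 * Real.pi * |(c : ℝ)| < κ * A := by
    have h2 : (a : ℝ) ^ m₀ ≤ (A : ℝ) := by
      rw [hA]
      push_cast
      exact pow_le_pow_right₀ (by linarith) (by omega)
    have h3 := hm₀.trans_le h2
    rw [div_lt_iff₀ hκ] at h3
    linarith
  have hcR : (0 : ℝ) ≤ |(c : ℝ)| := abs_nonneg _
  have hAc : ¬ ((A : ℤ) ∣ c) := by
    intro hd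
    have h2 : (A : ℤ) ≤ |c| := Int.le_of_dvd (abs_pos.mpr hc) ((dvd_abs _ _).mpr hd)
    have h3 : (A : ℝ) ≤ |(c : ℝ)| := by exact_mod_cast h2
    nlinarith
  set s : ℝ := κ / 8 with hs
  have hs0 : 0 < s := by positivity
  have hs1 : s ≤ 1 / 8 := by rw [hs]; linarith
  refine ⟨m, by omega, κ ^ 2 / 32, Real.log (2 * D + 1), by positivity, fun l => ?_⟩
  set P : ℤ →₀ ℝ := law μ (a : ℤ) (m * l) with hP
  have hPnn : ∀ x, 0 ≤ P x := fun x => law_nonneg h0 _ _ _
  have hPtot : (P.sum fun _ p => p) = 1 := law_total h1 _ _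
  have hPtot' : ∑ x ∈ P.support, P x = 1 := hPtot
  set z : ℕ → ℂ := fun j => chf P ((c : ℝ) / (A : ℝ) ^ (j + 1)) with hz
  have hzlow : ∀ j, j < l → κ ≤ ‖z j‖ := by
    intro j hj
    have h2 := low_z h1 ha hprod (N := m * (j + 1)) (n := m * l)
      (Nat.mul_le_mul_left _ (by omega))
    rw [hz]
    simp only
    have e : (A : ℝ) ^ (j + 1) = (a : ℝ) ^ (m * (j + 1)) := by
      rw [hA]; push_cast; rw [pow_mul]
    rw [e]
    exact h2
  have hex : ∀ j, ∃ ζ : ℂ, ‖ζ‖ = 1 ∧ (j < l → κ ≤ (ζ * z j).re) := by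
    intro j
    by_cases hj : j < l
    · have h2 := hzlow j hj
      have h3 : z j ≠ 0 := by
        intro h
        rw [h, norm_zero] at h2
        linarith
      obtain ⟨ζ, h4, h5⟩ := exists_phase h3
      exact ⟨ζ, h4, fun _ => by rw [h5]; exact h2⟩
    · exact ⟨1, norm_one, fun h => absurd h hj⟩
  choose ζ hζ1 hζ2 using hex
  set w : ℕ → ℕ → ℝ := fun j u => (1 + s * wv (ζ j) ((c : ℝ) * u / A)) / A with hw
  have hwin : ∀ j (u : ℕ), 1 / 2 ≤ 1 + s * wv (ζ j) ((c : ℝ) * u / A) := by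
    intro j u
    have h2 := abs_le.mp (wv_abs (hζ1 j) ((c : ℝ) * u / A))
    nlinarith
  have hwpos : ∀ j u, 0 < w j u := fun j u =>
    div_pos (by linarith [hwin j u]) hAR
  have hwsum : ∀ j, ∑ u ∈ range A, w j u = 1 := by
    intro j
    rw [hw]
    simp only
    rw [← Finset.sum_div, Finset.sum_add_distrib, ← Finset.mul_sum, wv_root _ hApos hAc,
      Finset.sum_const, Finset.card_range, nsmul_eq_mul, mul_one, mul_zero, add_zero,
      div_self hAR.ne']
  set g : ℕ → ℝ := fun r => (1 / (2 * D + 1)) * ∏ j ∈ range l, w j (r / A ^ j % A) with hg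
  have hgpos : ∀ r, 0 < g r := fun r =>
    mul_pos (by positivity) (Finset.prod_pos fun j _ => hwpos _ _)
  have hgsum : (2 * (D : ℝ) + 1) * ∑ r ∈ range (A ^ l), g r = 1 := by
    rw [hg]
    simp only
    rw [← Finset.mul_sum, Pool.Agent.Y465.JX.dig A l w hApos, Finset.prod_eq_one fun j _ => hwsum j]
    have : (2 * (D : ℝ) + 1) ≠ 0 := by positivity
    field_simp
  set Q : ℤ → ℝ := fun x => g ((x % ((A ^ l : ℕ) : ℤ)).toNat) with hQ
  have hQsum : ∑ x ∈ P.support, Q x ≤ 1 := by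
    rw [← hgsum]
    refine sum_res (B := A ^ l) (D := D) (by positivity) (fun r => (hgpos r).le) fun x hx => ?_
    have h2 := hsupp (m * l) x (Finsupp.mem_support_iff.mp hx)
    rw [hA, ← pow_mul]
    push_cast
    exact h2
  have hgib := Pool.Agent.Y465.JX.gibbs P Q hPnn hPtot (fun x _ => hgpos _) hQsum
  refine hgib.trans ?_
  -- the digit functions
  set dg : ℕ → ℤ → ℕ := fun j x => (x % ((A ^ l : ℕ) : ℤ)).toNat / A ^ j % A with hdg
  set Y : ℕ → ℤ → ℝ := fun j x => wv (ζ j) ((c : ℝ) * (dg j x : ℕ) / A) with hY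
  have hlog : ∀ x, Real.log (1 / Q x) ≤ Real.log (2 * D + 1)
      + ∑ j ∈ range l, (Real.log A + 2 * s ^ 2 - s * Y j x) := by
    intro x
    have h2 : Real.log (Q x) = -Real.log (2 * D + 1)
        + ∑ j ∈ range l, (Real.log (1 + s * Y j x) - Real.log A) := by
      rw [hQ, hg]
      simp only
      rw [Real.log_mul (by positivity) (Finset.prod_pos fun j _ => hwpos _ _).ne',
        Real.log_prod fun j _ => (hwpos _ _).ne', one_div, Real.log_inv]
      congr 1
      refine Finset.sum_congr rfl fun j _ => ?_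
      rw [hw]
      simp only
      rw [Real.log_div (by linarith [hwin j (dg j x)]) hAR.ne']
    rw [one_div, Real.log_inv, h2, neg_add, neg_neg, ← Finset.sum_neg_distrib]
    refine add_le_add le_rfl (Finset.sum_le_sum fun j _ => ?_)
    have h3 : -(1 / 2) ≤ s * Y j x := by linarith [hwin j (dg j x)]
    have h4 := log_low h3
    have h5 : (s * Y j x) ^ 2 ≤ s ^ 2 := by
      have h6 : |Y j x| ≤ 1 := wv_abs (hζ1 j) _
      rw [mul_pow]
      have h7 : Y j x ^ 2 ≤ 1 := by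
        rw [← sq_abs]
        exact pow_le_one₀ (abs_nonneg _) h6
      nlinarith [sq_nonneg s]
    linarith
  have hYmean : ∀ j ∈ range l, κ / 2 ≤ ∑ x ∈ P.support, P x * Y j x := by
    intro j hj
    have hjl := Finset.mem_range.mp hj
    have h2 : ∑ x ∈ P.support, P x * wv (ζ j) ((c : ℝ) / (A : ℝ) ^ (j + 1) * x)
        = (ζ j * z j).re := wv_sum P (ζ j) _
    have h3 := hζ2 j hjl
    have h4 : ∀ x ∈ P.support, P x * wv (ζ j) ((c : ℝ) / (A : ℝ) ^ (j + 1) * x) - P x * (κ / 2)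
        ≤ P x * Y j x := by
      intro x _
      rw [← mul_sub]
      refine mul_le_mul_of_nonneg_left ?_ (hPnn x)
      obtain ⟨y, ρ, hρ, hx⟩ := digit_dec hApos hjl x
      have e : (c : ℝ) / (A : ℝ) ^ (j + 1) * x
          = ((c : ℝ) * (dg j x : ℕ) / A + (c : ℝ) * ρ / (A : ℝ) ^ (j + 1)) + ((c * y : ℤ) : ℝ) := by
        have hx' : (x : ℝ) = (A : ℝ) ^ (j + 1) * y + (A : ℝ) ^ j * (dg j x : ℕ) + ρ := by
          exact_mod_cast hx
        rw [hx']
        push_cast
        field_simp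
        ring
      rw [e, wv_int]
      have h5 := wv_lip (hζ1 j) ((c : ℝ) * (dg j x : ℕ) / A + (c : ℝ) * ρ / (A : ℝ) ^ (j + 1))
        ((c : ℝ) * (dg j x : ℕ) / A)
      rw [add_sub_cancel_left] at h5
      have h6 : |(c : ℝ) * ρ / (A : ℝ) ^ (j + 1)| ≤ |(c : ℝ)| / A := by
        rw [abs_div, abs_mul, abs_of_nonneg (Nat.cast_nonneg ρ : (0 : ℝ) ≤ ρ),
          abs_of_pos (by positivity : (0 : ℝ) < (A : ℝ) ^ (j + 1)), div_le_div_iff₀ (by positivity)
          hAR, pow_succ, mul_assoc]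
        refine mul_le_mul_of_nonneg_left ?_ hcR
        refine mul_le_mul_of_nonneg_right ?_ hAR.le
        exact_mod_cast hρ.le
      have h7 : 4 * Real.pi * (|(c : ℝ)| / A) ≤ κ / 2 := by
        rw [← mul_div_assoc, div_le_iff₀ hAR]
        linarith
      have h8 : 4 * Real.pi * |(c : ℝ) * ρ / (A : ℝ) ^ (j + 1)| ≤ κ / 2 :=
        (mul_le_mul_of_nonneg_left h6 (by positivity)).trans h7
      have h9 := abs_le.mp (h5.trans h8)
      rw [hY]
      simp only
      linarith [h9.2]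
    have h5 := Finset.sum_le_sum h4
    rw [Finset.sum_sub_distrib, ← Finset.sum_mul, hPtot', h2, one_mul] at h5
    linarith
  calc ∑ x ∈ P.support, P x * Real.log (1 / Q x)
      ≤ ∑ x ∈ P.support, P x * (Real.log (2 * D + 1)
          + ∑ j ∈ range l, (Real.log A + 2 * s ^ 2 - s * Y j x)) :=
        Finset.sum_le_sum fun x _ => mul_le_mul_of_nonneg_left (hlog x) (hPnn x)
    _ = Real.log (2 * D + 1)
          + ∑ j ∈ range l, (Real.log A + 2 * s ^ 2 - s * ∑ x ∈ P.support, P x * Y j x) := by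
        simp only [mul_add, Finset.sum_add_distrib]
        rw [← Finset.sum_mul, hPtot', one_mul]
        congr 1
        simp only [Finset.mul_sum]
        rw [Finset.sum_comm]
        refine Finset.sum_congr rfl fun j _ => ?_
        have e : ∀ x ∈ P.support, P x * (Real.log A + 2 * s ^ 2 - s * Y j x)
            = P x * (Real.log A + 2 * s ^ 2) - s * (P x * Y j x) := fun x _ => by ring
        rw [Finset.sum_congr rfl e, Finset.sum_sub_distrib, ← Finset.sum_mul, hPtot', one_mul,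
          ← Finset.mul_sum]
    _ ≤ Real.log (2 * D + 1) + ∑ j ∈ range l, (m * Real.log a - κ ^ 2 / 32) := by
        refine add_le_add le_rfl (Finset.sum_le_sum fun j hj => ?_)
        have h2 := hYmean j hj
        have h3 : Real.log A = m * Real.log a := by
          rw [hA]; push_cast; rw [Real.log_pow]
        rw [h3, hs]
        nlinarith
    _ = _ := by rw [Finset.sum_const, Finset.card_range, nsmul_eq_mul]

end Pool.Agent.Y196.JX
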