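import Pool.Agent.Y196.JX.Class
import Pool.Agent.Y196.JX.Gap2
import Pool.Agent.Y139.JX.Rate

/-!
# The criterion by the entropy rate
-/

set_option autoImplicit false

namespace Pool.Agent.Y196.JX

open Finset H942JM Filter Topology

/-- The entropy rate of a nondegenerate law is less than `log a`. -/
theorem entropyRate_lt {μ : ℤ →₀ ℝ} (hμ : IsStepLaw μ) {a : ℕ} (ha : 2 ≤ a)
    (hnd : Nondegenerate μ a) : entropyRate μ a < Real.log a := by
  obtain ⟨m, hm, η, C, hη, hgap⟩ := gap hμ.nonneg hμ.total ha hnd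
  have hrate := Pool.Agent.Y139.JX.rate μ (a : ℤ) hμ.nonneg hμ.total
  have hmR : (0 : ℝ) < m := by exact_mod_cast hm
  -- the subsequence
  have hsub : Tendsto (fun l : ℕ => m * l) atTop atTop :=
    tendsto_id.const_mul_atTop' hm
  have h1 : Tendsto (fun l : ℕ => entropy (law μ (a : ℤ) (m * l)) / ((m * l : ℕ) : ℝ)) atTop
      (𝓝 (entropyRate μ a)) := hrate.comp hsub
  have h2 : Tendsto (fun l : ℕ => C / m * (1 / (l : ℝ)) + (Real.log a - η / m)) atTop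
      (𝓝 (C / m * 0 + (Real.log a - η / m))) :=
    (tendsto_one_div_atTop_nhds_zero_nat.const_mul _).add_const _
  have h3 : entropyRate μ a ≤ C / m * 0 + (Real.log a - η / m) := by
    refine le_of_tendsto_of_tendsto h1 h2 ?_
    filter_upwards [eventually_gt_atTop 0] with l hl
    have hlR : (0 : ℝ) < l := by exact_mod_cast hl
    have h4 := hgap l
    push_cast
    rw [div_le_iff₀ (by positivity)]
    refine h4.trans (le_of_eq ?_)
    field_simp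
  have h4 : 0 < η / m := by positivity
  linarith

/-- The entropy rate is maximal exactly for the degenerate laws. -/
theorem entropyRate_eq_iff {μ : ℤ →₀ ℝ} (hμ : IsStepLaw μ) {a : ℕ} (ha : 2 ≤ a) :
    entropyRate μ a = Real.log a ↔ ¬ Nondegenerate μ a := by
  constructor
  · intro h hnd
    exact absurd h (entropyRate_lt hμ ha hnd).ne
  · intro h
    obtain ⟨J, hJ⟩ := (degenerate_iff hμ ha).mp h
    exact Pool.Agent.Y418.JX.ent maxp' μ a J hμ.nonneg hμ.total ha hJ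

/-- The criterion for finite families. -/
theorem family_iff' (S : Finset (ℕ × (ℤ →₀ ℝ))) (N : ℕ) (hN : 0 < N)
    (hS : ∀ s ∈ S, 2 ≤ s.1 ∧ IsStepLaw s.2) :
    (∀ ε : ℝ, 0 < ε → ∃ q₀ : ℕ, ∀ q : ℕ, q₀ ≤ q → Nat.Coprime q N →
      (∀ s ∈ S, Nat.Coprime q s.1) → ∃ s ∈ S, MixesFast s.2 s.1 ε q) ↔
    ∃ s ∈ S, entropyRate s.2 s.1 = Real.log s.1 := by
  rw [family_iff S N hN hS]
  constructor
  · rintro ⟨s, hs, h⟩
    exact ⟨s, hs, (entropyRate_eq_iff (hS s hs).2 (hS s hs).1).mpr h⟩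
  · rintro ⟨s, hs, h⟩
    exact ⟨s, hs, (entropyRate_eq_iff (hS s hs).2 (hS s hs).1).mp h⟩

/-- The criterion for Q1. -/
theorem joint_iff' {μ : ℤ →₀ ℝ} (hμ : IsStepLaw μ) :
    (∀ ε : ℝ, 0 < ε → ∃ q₀ : ℕ, ∀ q : ℕ, q₀ ≤ q → Nat.gcd q 6 = 1 →
      MixesFast μ 2 ε q ∨ MixesFast μ 3 ε q) ↔
    entropyRate μ 2 = Real.log 2 ∨ entropyRate μ 3 = Real.log 3 := by
  rw [joint_iff hμ]
  have h2 := entropyRate_eq_iff hμ (a := 2) le_rfl
  have h3 := entropyRate_eq_iff hμ (a := 3) (by norm_num)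
  push_cast at h2 h3
  rw [h2, h3]

/-- Cutoff with a bounded window. -/
theorem window {μ : ℤ →₀ ℝ} (hμ : IsStepLaw μ) {a : ℕ} (ha : 2 ≤ a)
    (h : entropyRate μ a = Real.log a) {δ : ℝ} (hδ : 0 < δ) :
    ∃ T : ℕ, ∀ q n : ℕ, Nat.Coprime q a →
      (q * a ^ T ≤ a ^ n → tvDist μ a q n ≤ δ) ∧
      (a ^ n * a ^ T ≤ q → 1 - δ ≤ tvDist μ a q n) := by
  obtain ⟨J, hJ⟩ := (degenerate_iff hμ ha).mp ((entropyRate_eq_iff hμ ha).mp h)
  obtain ⟨T₁, hT₁⟩ := mixed_of_degen hμ ha hJ hδ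
  obtain ⟨T₂, hT₂⟩ := far_of_small hμ ha hδ
  refine ⟨max T₁ T₂, fun q n hcop => ⟨fun hn => hT₁ q n hcop ?_, fun hn => hT₂ q n ?_⟩⟩
  · exact (Nat.mul_le_mul_left _ (Nat.pow_le_pow_right (by omega) (le_max_left _ _))).trans hn
  · exact (Nat.mul_le_mul_left _ (Nat.pow_le_pow_right (by omega) (le_max_right _ _))).trans hn

/-- The finite criterion. -/
theorem finite_criterion {μ : ℤ →₀ ℝ} (hμ : IsStepLaw μ) {a : ℕ} (ha : 2 ≤ a) :
    entropyRate μ a = Real.log a ↔ ∃ J : ℕ, ∀ c : ℤ, ¬ ((a : ℤ) ∣ c) →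
      ∃ k : ℕ, k < J ∧ chf μ ((c : ℝ) / (a : ℝ) ^ (k + 1)) = 0 := by
  rw [entropyRate_eq_iff hμ ha, degenerate_iff hμ ha]
  rfl

end Pool.Agent.Y196.JX
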