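import Pool.Agent.Y196.JX.Stm

/-!
# Statements for the degenerate laws

`Degen μ a J`: every integer `c` that is not divisible by `a` has a zero `c / a ^ k`,
`1 ≤ k ≤ J`, of the characteristic function of `μ`. Then the base `a` walk mixes at the time
`log q / log a + O (1)`, for every modulus `q` coprime to `a`.
-/

set_option autoImplicit false

namespace Pool.Agent.Y196.JX

open Finset H942JM Filter Topology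

/-- Uniform degeneracy. -/
def Degen (μ : ℤ →₀ ℝ) (a J : ℕ) : Prop :=
  ∀ c : ℤ, ¬ ((a : ℤ) ∣ c) → ∃ k : ℕ, k < J ∧ chf μ ((c : ℝ) / (a : ℝ) ^ (k + 1)) = 0

/-- UNI: degeneracy is uniform. -/
def S_UNI : Prop := ∀ (μ : ℤ →₀ ℝ) (a : ℕ), (μ.sum fun _ p => p) = 1 → 2 ≤ a →
  (∀ c : ℤ, c ≠ 0 → ∃ k : ℕ, chf μ ((c : ℝ) / (a : ℝ) ^ (k + 1)) = 0) → ∃ J : ℕ, Degen μ a J

/-- MAXP: the probabilities are at most `C / a ^ n`. -/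
def S_MAXP : Prop := ∀ (μ : ℤ →₀ ℝ) (a J : ℕ), (∀ x, 0 ≤ μ x) → (μ.sum fun _ p => p) = 1 →
  2 ≤ a → Degen μ a J → ∀ (n : ℕ) (x : ℤ), law μ (a : ℤ) n x ≤ (a : ℝ) ^ J / (a : ℝ) ^ n

/-- SUPP: the support of the law of `X_n` is in an interval of length `O (a ^ n)`. -/
def S_SUPP : Prop := ∀ (μ : ℤ →₀ ℝ) (a : ℕ), 2 ≤ a → ∃ D : ℕ, 0 < D ∧ ∀ (n : ℕ) (x : ℤ),
  law μ (a : ℤ) n x ≠ 0 → |x| ≤ (D : ℤ) * (a : ℤ) ^ n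

/-- ENT: the entropy rate. -/
def S_ENT : Prop := ∀ (μ : ℤ →₀ ℝ) (a J : ℕ), (∀ x, 0 ≤ μ x) → (μ.sum fun _ p => p) = 1 →
  2 ≤ a → Degen μ a J → entropyRate μ (a : ℤ) = Real.log a

/-- PARS: the `L ^ 2` bound of the characteristic function at the points `c / q`. -/
def S_PARS : Prop := ∀ (μ : ℤ →₀ ℝ) (a J : ℕ), (∀ x, 0 ≤ μ x) → (μ.sum fun _ p => p) = 1 →
  2 ≤ a → Degen μ a J → ∃ C : ℝ, 0 < C ∧ ∀ (n q : ℕ), 0 < q →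
    ∑ c ∈ range q, ‖chf (law μ (a : ℤ) n) ((c : ℝ) / q)‖ ^ 2 ≤ C * (1 + q / (a : ℝ) ^ n)

/-- TVL2: the upper bound lemma. -/
def S_TVL2 : Prop := ∀ (μ : ℤ →₀ ℝ), (∀ x, 0 ≤ μ x) → (μ.sum fun _ p => p) = 1 →
  ∀ (a : ℤ) (q n : ℕ), 0 < q →
    (tvDist μ a q n) ^ 2 ≤ ∑ c ∈ (range q).erase 0, ‖chf (law μ a n) ((c : ℝ) / q)‖ ^ 2

/-- DECAY: the characteristic function of `X_n` is small where `a ^ J θ` has distance at least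
`Λ / a ^ n` from the integers. -/
def S_DECAY : Prop := ∀ (μ : ℤ →₀ ℝ) (a J : ℕ), IsStepLaw μ → 2 ≤ a → Degen μ a J →
  ∀ δ : ℝ, 0 < δ → ∃ Λ : ℝ, 0 < Λ ∧ ∀ (n : ℕ) (θ : ℝ),
    Λ ≤ (a : ℝ) ^ n * |(a : ℝ) ^ J * θ - round ((a : ℝ) ^ J * θ)| →
    ‖chf (law μ (a : ℤ) n) θ‖ ≤ δ

/-- UNIF: uniform smallness of the nontrivial part. -/
def S_UNIF : Prop := ∀ (μ : ℤ →₀ ℝ) (a J : ℕ), IsStepLaw μ → 2 ≤ a → Degen μ a J →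
  ∀ δ : ℝ, 0 < δ → ∃ T : ℕ, ∀ n q : ℕ, 0 < q → Nat.Coprime q a → q * a ^ T ≤ a ^ n →
    ∑ c ∈ (range q).erase 0, ‖chf (law μ (a : ℤ) n) ((c : ℝ) / q)‖ ^ 2 ≤ δ

end Pool.Agent.Y196.JX
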