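import Pool.Agent.Y196.JX.All
import Pool.Agent.Y196.JX.Stm2

/-!
# Decay of the characteristic function of a degenerate law
-/

set_option autoImplicit false

namespace Pool.Agent.Y196.JX

open Finset H942JM Filter Topology

/-- The distance from the nearest integer. -/
noncomputable def dd (x : ℝ) : ℝ := |x - round x|

lemma dd_nonneg (x : ℝ) : 0 ≤ dd x := abs_nonneg _

lemma dd_le_half (x : ℝ) : dd x ≤ 1 / 2 := abs_sub_round x

lemma dd_le (x : ℝ) (z : ℤ) : dd x ≤ |x - z| := round_le x z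

lemma dd_eq {x : ℝ} {z : ℤ} (h : |x - z| ≤ 1 / 2) : dd x = |x - z| := by
  refine le_antisymm (dd_le x z) ?_
  by_cases hz : round x = z
  · unfold dd; rw [hz]
  · have h1 : (1 : ℝ) ≤ |((round x : ℤ) : ℝ) - z| := by
      have h2 : (1 : ℤ) ≤ |round x - z| := Int.one_le_abs (sub_ne_zero.mpr hz)
      exact_mod_cast h2
    have h3 : |((round x : ℤ) : ℝ) - z| ≤ |x - round x| + |x - z| := by
      have e : ((round x : ℤ) : ℝ) - z = -(x - round x) + (x - z) := by ring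
      rw [e]
      refine (abs_add_le _ _).trans ?_
      rw [abs_neg]
    unfold dd
    linarith

lemma dd_mul {x : ℝ} {a : ℕ} (h : (a : ℝ) * dd x ≤ 1 / 2) : dd (a * x) = a * dd x := by
  have e : (a : ℝ) * x - ((a * round x : ℤ) : ℝ) = a * (x - round x) := by push_cast; ring
  have h1 : |(a : ℝ) * x - ((a * round x : ℤ) : ℝ)| = a * dd x := by
    rw [e, abs_mul, abs_of_nonneg (Nat.cast_nonneg a)]
    rfl
  rw [dd_eq (z := a * round x) (by rw [h1]; exact h), h1]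

lemma chf_cont (μ : ℤ →₀ ℝ) : Continuous (chf μ) := by
  have h : chf μ = fun θ : ℝ => chF μ (θ : ℂ) := by
    funext θ; rw [chF_ofReal]
  rw [h]
  exact (chF_diff μ).continuous.comp Complex.continuous_ofReal

/-- The norm is less than one off the integers. -/
lemma chf_norm_lt {μ : ℤ →₀ ℝ} (hμ : IsStepLaw μ) {x : ℝ} (hx : ∀ z : ℤ, x ≠ z) :
    ‖chf μ x‖ < 1 := by
  by_contra hcon
  have h1 : ‖chf μ x‖ = 1 := le_antisymm (chf_norm_le hμ.nonneg hμ.total x) (not_lt.mp hcon)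
  have h2 := e2cos μ x
  rw [h1, one_pow] at h2
  unfold E2 Finsupp.sum at h2
  have htot : ∑ b ∈ μ.support, μ b = 1 := hμ.total
  have h3 : ∑ b ∈ μ.support, ∑ b' ∈ μ.support,
      μ b * μ b' * (1 - Real.cos (2 * Real.pi * x * ((b - b' : ℤ) : ℝ))) = 0 := by
    have e : ∀ b b' : ℤ, μ b * μ b' * (1 - Real.cos (2 * Real.pi * x * ((b - b' : ℤ) : ℝ)))
        = μ b * μ b' - μ b * μ b' * Real.cos (2 * Real.pi * x * ((b - b' : ℤ) : ℝ)) := by
      intro b b'; ring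
    simp only [e, Finset.sum_sub_distrib]
    rw [h2, ← Finset.sum_mul_sum, htot]
    norm_num
  have hnn : ∀ b b' : ℤ,
      0 ≤ μ b * μ b' * (1 - Real.cos (2 * Real.pi * x * ((b - b' : ℤ) : ℝ))) := by
    intro b b'
    have := Real.cos_le_one (2 * Real.pi * x * ((b - b' : ℤ) : ℝ))
    exact mul_nonneg (mul_nonneg (hμ.nonneg _) (hμ.nonneg _)) (by linarith)
  have h4 : ∀ b ∈ μ.support, ∀ b' ∈ μ.support, ∃ w : ℤ, x * ((b - b' : ℤ) : ℝ) = w := by
    intro b hb b' hb'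
    have h5 := (Finset.sum_eq_zero_iff_of_nonneg (fun b _ =>
      Finset.sum_nonneg fun b' _ => hnn b b')).mp h3 b hb
    have h6 := (Finset.sum_eq_zero_iff_of_nonneg (fun b' _ => hnn b b')).mp h5 b' hb'
    have hp : 0 < μ b := lt_of_le_of_ne (hμ.nonneg b) (Ne.symm (Finsupp.mem_support_iff.mp hb))
    have hp' : 0 < μ b' := lt_of_le_of_ne (hμ.nonneg b') (Ne.symm (Finsupp.mem_support_iff.mp hb'))
    have h7 : 1 - Real.cos (2 * Real.pi * x * ((b - b' : ℤ) : ℝ)) = 0 := by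
      rcases mul_eq_zero.mp h6 with h | h
      · exact absurd h (mul_pos hp hp').ne'
      · exact h
    obtain ⟨w, hw⟩ := (Real.cos_eq_one_iff _).mp (by linarith :
      Real.cos (2 * Real.pi * x * ((b - b' : ℤ) : ℝ)) = 1)
    refine ⟨w, ?_⟩
    have hpi := Real.pi_pos
    have h8 : 2 * Real.pi * (x * ((b - b' : ℤ) : ℝ) - w) = 0 := by linarith
    rcases mul_eq_zero.mp h8 with h | h
    · exact absurd h (by positivity)
    · linarith
  -- the subgroup of the multipliers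
  let I : AddSubgroup ℤ :=
    { carrier := {z | ∃ w : ℤ, x * (z : ℝ) = w}
      add_mem' := by
        rintro z z' ⟨w, hw⟩ ⟨w', hw'⟩
        exact ⟨w + w', by push_cast; rw [mul_add, hw, hw']⟩
      zero_mem' := ⟨0, by simp⟩
      neg_mem' := by
        rintro z ⟨w, hw⟩
        exact ⟨-w, by push_cast; rw [mul_neg, hw]⟩ }
  obtain ⟨d, hd⟩ := Int.subgroup_cyclic I
  have h5 : IsUnit d := by
    apply hμ.gcd_one d
    intro b hb b' hb'
    have h6 : b - b' ∈ I := h4 b hb b' hb'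
    rw [hd, AddSubgroup.mem_closure_singleton] at h6
    obtain ⟨n, hn⟩ := h6
    exact ⟨n, by rw [← hn, smul_eq_mul, mul_comm]⟩
  have h6 : (1 : ℤ) ∈ I := by
    rw [hd, AddSubgroup.mem_closure_singleton]
    obtain ⟨t, ht⟩ := isUnit_iff_dvd_one.mp h5
    exact ⟨t, by rw [smul_eq_mul, mul_comm]; exact ht.symm⟩
  obtain ⟨w, hw⟩ := h6
  exact hx w (by push_cast at hw; linarith)

lemma chf_round (μ : ℤ →₀ ℝ) (x : ℝ) : chf μ (Int.fract x) = chf μ x := by
  have h := chf_add_int μ (Int.fract x) ⌊x⌋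
  rw [← h, Int.fract_add_floor]

lemma unif_lt {μ : ℤ →₀ ℝ} (hμ : IsStepLaw μ) {η : ℝ} (hη : 0 < η) :
    ∃ ρ : ℝ, 0 ≤ ρ ∧ ρ < 1 ∧ ∀ x : ℝ, η ≤ dd x → ‖chf μ x‖ ≤ ρ := by
  rcases (Set.Icc η (1 - η)).eq_empty_or_nonempty with h | h
  · refine ⟨0, le_rfl, one_pos, fun x hx => ?_⟩
    exfalso
    have h1 : Int.fract x ∈ Set.Icc η (1 - η) := by
      unfold dd at hx
      rw [abs_sub_round_eq_min] at hx
      exact ⟨hx.trans (min_le_left _ _), by linarith [hx.trans (min_le_right _ _)]⟩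
    rw [h] at h1
    exact h1
  · obtain ⟨x₀, hx₀, hmax⟩ := isCompact_Icc.exists_isMaxOn h
      (f := fun x => ‖chf μ x‖) (chf_cont μ).norm.continuousOn
    refine ⟨‖chf μ x₀‖, norm_nonneg _, ?_, fun x hx => ?_⟩
    · apply chf_norm_lt hμ
      intro z hz
      have h1 := hx₀.1
      have h2 := hx₀.2
      rw [hz] at h1 h2
      have h3 : (0 : ℝ) < z := by linarith
      have h4 : (z : ℝ) < 1 := by linarith
      have h5 : 0 < z := by exact_mod_cast h3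
      have h6 : z < 1 := by exact_mod_cast h4
      omega
    · have h1 : Int.fract x ∈ Set.Icc η (1 - η) := by
        unfold dd at hx
        rw [abs_sub_round_eq_min] at hx
        exact ⟨hx.trans (min_le_left _ _), by linarith [hx.trans (min_le_right _ _)]⟩
      have h2 := hmax h1
      simp only [Set.mem_setOf_eq] at h2
      rw [chf_round] at h2
      exact h2

/-- The exact power of the base. -/
lemma exact_pow {a : ℕ} {N : ℤ} : ∀ d : ℕ, ¬ ((a : ℤ) ^ d ∣ N) →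
    ∃ v : ℕ, v < d ∧ ∃ c : ℤ, N = (a : ℤ) ^ v * c ∧ ¬ ((a : ℤ) ∣ c) := by
  intro d
  induction d with
  | zero => intro h; exact absurd (by rw [pow_zero]; exact one_dvd N) h
  | succ d ih =>
    intro h
    by_cases h1 : (a : ℤ) ^ d ∣ N
    · obtain ⟨c, hc⟩ := h1
      refine ⟨d, Nat.lt_succ_self d, c, hc, ?_⟩
      rintro ⟨c', hc'⟩
      exact h ⟨c', by rw [hc, hc', pow_succ]; ring⟩
    · obtain ⟨v, hv, c, hc⟩ := ih h1
      exact ⟨v, by omega, c, hc⟩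

lemma prod_le_factor {f : ℕ → ℝ} (h0 : ∀ k, 0 ≤ f k) (h1 : ∀ k, f k ≤ 1) {n l : ℕ} (hl : l < n) :
    ∏ k ∈ range n, f k ≤ f l * ∏ k ∈ range l, f k := by
  obtain ⟨m, rfl⟩ := Nat.exists_eq_add_of_lt hl
  rw [show l + m + 1 = (l + 1) + m by ring, Finset.prod_range_add, Finset.prod_range_succ]
  have h2 : ∏ x ∈ range m, f (l + 1 + x) ≤ 1 := Finset.prod_le_one (fun _ _ => h0 _) fun _ _ => h1 _
  have h3 : 0 ≤ ∏ k ∈ range l, f k := Finset.prod_nonneg fun _ _ => h0 _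
  have h4 := h0 l
  calc (∏ k ∈ range l, f k) * f l * ∏ x ∈ range m, f (l + 1 + x)
      ≤ (∏ k ∈ range l, f k) * f l * 1 := mul_le_mul_of_nonneg_left h2 (by positivity)
    _ = _ := by ring

/-- A Lipschitz constant. -/
lemma exists_lip {μ : ℤ →₀ ℝ} (h0 : ∀ x, 0 ≤ μ x) :
    ∃ K : ℝ, 1 ≤ K ∧ ∀ x y, ‖chf μ x - chf μ y‖ ≤ K * |x - y| := by
  set A : ℝ := 4 * Real.pi * ∑ b ∈ μ.support, μ b * |(b : ℝ)| with hA
  have hA0 : 0 ≤ A := by
    have : 0 ≤ ∑ b ∈ μ.support, μ b * |(b : ℝ)| :=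
      Finset.sum_nonneg fun b _ => mul_nonneg (h0 b) (abs_nonneg _)
    have hp := Real.pi_pos
    positivity
  refine ⟨A + 1, by linarith, fun x y => (chf_lip h0 x y).trans ?_⟩
  exact mul_le_mul_of_nonneg_right (by linarith) (abs_nonneg _)

/-- The small factor near a nonzero integer. -/
lemma small_factor {μ : ℤ →₀ ℝ} {K : ℝ} (hK1 : 1 ≤ K)
    (hK : ∀ x y, ‖chf μ x - chf μ y‖ ≤ K * |x - y|) {a : ℕ} (ha : 2 ≤ a) {θ : ℝ} {m i v k : ℕ}
    {c : ℤ} (hi : i = v + k + 1) (him : i ≤ m) (hzero : chf μ ((c : ℝ) / (a : ℝ) ^ (k + 1)) = 0) :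
    ‖chf μ ((a : ℝ) ^ (m - i) * θ)‖ ≤
      K * (|(a : ℝ) ^ m * θ - (((a : ℤ) ^ v * c : ℤ) : ℝ)| / (a : ℝ) ^ i) := by
  have haR : (0 : ℝ) < a := by exact_mod_cast (by omega : 0 < a)
  have h1 : chf μ ((a : ℝ) ^ (m - i) * θ)
      = chf μ ((a : ℝ) ^ (m - i) * θ) - chf μ ((c : ℝ) / (a : ℝ) ^ (k + 1)) := by
    rw [hzero, sub_zero]
  rw [h1]
  refine (hK _ _).trans (le_of_eq ?_)
  congr 1
  have e : (a : ℝ) ^ (m - i) * θ - (c : ℝ) / (a : ℝ) ^ (k + 1)
      = ((a : ℝ) ^ m * θ - (((a : ℤ) ^ v * c : ℤ) : ℝ)) / (a : ℝ) ^ i := by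
    have e1 : (a : ℝ) ^ m = (a : ℝ) ^ (m - i) * (a : ℝ) ^ i := by
      rw [← pow_add]; congr 1; omega
    have e2 : (a : ℝ) ^ i = (a : ℝ) ^ v * (a : ℝ) ^ (k + 1) := by
      rw [← pow_add]; congr 1
    have h2 : (a : ℝ) ^ v ≠ 0 := by positivity
    have h3 : (a : ℝ) ^ (k + 1) ≠ 0 := by positivity
    rw [e1, e2]
    push_cast
    field_simp
  rw [e, abs_div, abs_of_pos (by positivity : 0 < (a : ℝ) ^ i)]

theorem decay : S_DECAY := by
  intro μ a J hμ ha hdeg δ hδ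
  obtain ⟨K, hK1, hK⟩ := exists_lip hμ.nonneg
  have haR : (2 : ℝ) ≤ a := by exact_mod_cast ha
  set η : ℝ := min (δ / K) (1 / (4 * a)) with hη
  have hη0 : 0 < η := lt_min (by positivity) (by positivity)
  obtain ⟨ρ, hρ0, hρ1, hρ⟩ := unif_lt hμ hη0
  obtain ⟨R, hR⟩ := exists_pow_lt_of_lt_one hδ hρ1
  refine ⟨(a : ℝ) ^ (J + R + 1), by positivity, ?_⟩
  intro n θ hn
  have hn' : (a : ℝ) ^ (J + R + 1) ≤ (a : ℝ) ^ n * dd ((a : ℝ) ^ J * θ) := hn
  set f : ℕ → ℝ := fun k => ‖chf μ ((a : ℝ) ^ k * θ)‖ with hf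
  have hf0 : ∀ k, 0 ≤ f k := fun k => norm_nonneg _
  have hf1 : ∀ k, f k ≤ 1 := fun k => chf_norm_le hμ.nonneg hμ.total _
  have hprod : ‖chf (law μ (a : ℤ) n) θ‖ = ∏ k ∈ range n, f k := by
    rw [lawProd, norm_prod]
    refine Finset.prod_congr rfl fun k _ => ?_
    rw [hf]
    push_cast
    rfl
  rw [hprod]
  -- n is large
  have hnJ : J + R < n := by
    by_contra hcon
    have h1 : (a : ℝ) ^ n ≤ (a : ℝ) ^ (J + R) := pow_le_pow_right₀ (by linarith) (by omega)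
    have h2 := dd_le_half ((a : ℝ) ^ J * θ)
    have h3 := dd_nonneg ((a : ℝ) ^ J * θ)
    have h4 : (a : ℝ) ^ (J + R + 1) = (a : ℝ) ^ (J + R) * a := pow_succ _ _
    have h5 : (0 : ℝ) < (a : ℝ) ^ (J + R) := by positivity
    have h6 : (a : ℝ) ^ n * dd ((a : ℝ) ^ J * θ) ≤ (a : ℝ) ^ (J + R) * (1 / 2) :=
      mul_le_mul h1 h2 h3 h5.le
    nlinarith
  -- the first exit
  obtain ⟨k₁, hk₁J, hk₁R, hk₁⟩ : ∃ k₁ : ℕ, J ≤ k₁ ∧ k₁ + R ≤ n ∧
      1 / (2 * a) ≤ dd ((a : ℝ) ^ k₁ * θ) := by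
    by_contra hcon
    push Not at hcon
    have hind : ∀ j : ℕ, J + j + R ≤ n → dd ((a : ℝ) ^ (J + j) * θ)
        = (a : ℝ) ^ j * dd ((a : ℝ) ^ J * θ) := by
      intro j
      induction j with
      | zero => intro _; simp
      | succ j ih =>
        intro hj
        have h1 := ih (by omega)
        have h2 := hcon (J + j) (by omega) (by omega)
        have h3 : (a : ℝ) * dd ((a : ℝ) ^ (J + j) * θ) ≤ 1 / 2 := by
          rw [lt_div_iff₀ (by positivity)] at h2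
          linarith
        have h4 := dd_mul h3
        have e : (a : ℝ) * ((a : ℝ) ^ (J + j) * θ) = (a : ℝ) ^ (J + (j + 1)) * θ := by
          rw [← add_assoc, pow_succ]; ring
        rw [e] at h4
        rw [h4, h1, pow_succ]
        ring
    have h1 := hind (n - R - J) (by omega)
    have h2 := dd_le_half ((a : ℝ) ^ (J + (n - R - J)) * θ)
    rw [h1] at h2
    have h3 : (a : ℝ) ^ n = (a : ℝ) ^ (n - R - J) * (a : ℝ) ^ (J + R) := by
      rw [← pow_add]; congr 1; omega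
    have h4 : (a : ℝ) ^ (J + R + 1) = (a : ℝ) ^ (J + R) * a := pow_succ _ _
    have h5 : (0 : ℝ) < (a : ℝ) ^ (J + R) := by positivity
    rw [h3, h4] at hn'
    have h6 : (a : ℝ) ≤ (a : ℝ) ^ (n - R - J) * dd ((a : ℝ) ^ J * θ) := by
      have : (a : ℝ) ^ (J + R) * a ≤
          (a : ℝ) ^ (J + R) * ((a : ℝ) ^ (n - R - J) * dd ((a : ℝ) ^ J * θ)) := by
        linarith
      exact le_of_mul_le_mul_left this h5
    linarith
  by_cases hcase : ∀ k, k₁ ≤ k → k < n → η ≤ dd ((a : ℝ) ^ k * θ)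
  · -- all factors after the exit are bounded away from one
    have h1 : ∏ k ∈ range n, f k ≤ ρ ^ (n - k₁) := by
      have e : n = k₁ + (n - k₁) := by omega
      conv_lhs => rw [e]
      rw [Finset.prod_range_add]
      have h2 : ∏ k ∈ range k₁, f k ≤ 1 := Finset.prod_le_one (fun _ _ => hf0 _) fun _ _ => hf1 _
      have h3 : ∏ x ∈ range (n - k₁), f (k₁ + x) ≤ ∏ _x ∈ range (n - k₁), ρ := by
        refine Finset.prod_le_prod (fun _ _ => hf0 _) fun x hx => ?_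
        have := Finset.mem_range.mp hx
        exact hρ _ (hcase (k₁ + x) (by omega) (by omega))
      rw [Finset.prod_const, Finset.card_range] at h3
      calc (∏ k ∈ range k₁, f k) * ∏ x ∈ range (n - k₁), f (k₁ + x)
          ≤ 1 * ρ ^ (n - k₁) := mul_le_mul h2 h3 (Finset.prod_nonneg fun _ _ => hf0 _) (by norm_num)
        _ = _ := one_mul _
    refine h1.trans (le_trans ?_ hR.le)
    exact pow_le_pow_of_le_one hρ0 hρ1.le (by omega)
  · push Not at hcase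
    obtain ⟨k₂, hk₂1, hk₂n, hk₂⟩ := hcase
    have h4a : (1 : ℝ) / (4 * a) < 1 / (2 * a) := by
      apply one_div_lt_one_div_of_lt (by positivity)
      linarith
    have hηa : η ≤ 1 / (4 * a) := min_le_right _ _
    have hηK : η ≤ δ / K := min_le_left _ _
    have hne : k₁ ≠ k₂ := by
      intro h
      rw [← h] at hk₂
      linarith
    set N : ℤ := round ((a : ℝ) ^ k₂ * θ) with hN
    have hNd : |(a : ℝ) ^ k₂ * θ - N| < η := hk₂
    have hndvd : ¬ ((a : ℤ) ^ (k₂ - k₁) ∣ N) := by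
      rintro ⟨w, hw⟩
      have h1 := dd_le ((a : ℝ) ^ k₁ * θ) w
      have e : (a : ℝ) ^ k₂ * θ - N = (a : ℝ) ^ (k₂ - k₁) * ((a : ℝ) ^ k₁ * θ - w) := by
        rw [hw]
        have : (a : ℝ) ^ k₂ = (a : ℝ) ^ (k₂ - k₁) * (a : ℝ) ^ k₁ := by
          rw [← pow_add]; congr 1; omega
        rw [this]
        push_cast
        ring
      rw [e, abs_mul, abs_of_pos (by positivity : 0 < (a : ℝ) ^ (k₂ - k₁))] at hNd
      have h2 : (1 : ℝ) ≤ (a : ℝ) ^ (k₂ - k₁) := one_le_pow₀ (by linarith)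
      have h3 : |(a : ℝ) ^ k₁ * θ - w| ≤ (a : ℝ) ^ (k₂ - k₁) * |(a : ℝ) ^ k₁ * θ - w| := by
        nlinarith [abs_nonneg ((a : ℝ) ^ k₁ * θ - w)]
      linarith
    obtain ⟨v, hv, c, hc, hca⟩ := exact_pow _ hndvd
    obtain ⟨k, hkJ, hkz⟩ := hdeg c hca
    have hi : v + k + 1 ≤ k₂ := by omega
    have hsm := small_factor (θ := θ) (m := k₂) (i := v + k + 1) hK1 hK ha rfl hi hkz
    have hl : k₂ - (v + k + 1) < n := by omega
    refine (prod_le_factor hf0 hf1 hl).trans ?_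
    have h2 : ∏ k' ∈ range (k₂ - (v + k + 1)), f k' ≤ 1 :=
      Finset.prod_le_one (fun _ _ => hf0 _) fun _ _ => hf1 _
    have h3 : f (k₂ - (v + k + 1)) ≤ δ := by
      refine hsm.trans ?_
      rw [← hc]
      have h5 : |(a : ℝ) ^ k₂ * θ - N| / (a : ℝ) ^ (v + k + 1) ≤ |(a : ℝ) ^ k₂ * θ - N| :=
        div_le_self (abs_nonneg _) (one_le_pow₀ (by linarith))
      have h6 : |(a : ℝ) ^ k₂ * θ - N| / (a : ℝ) ^ (v + k + 1) ≤ δ / K :=
        h5.trans (hNd.le.trans hηK)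
      calc K * (|(a : ℝ) ^ k₂ * θ - N| / (a : ℝ) ^ (v + k + 1)) ≤ K * (δ / K) :=
            mul_le_mul_of_nonneg_left h6 (by linarith)
        _ = δ := by field_simp
    calc f (k₂ - (v + k + 1)) * ∏ k' ∈ range (k₂ - (v + k + 1)), f k'
        ≤ δ * 1 := mul_le_mul h3 h2 (Finset.prod_nonneg fun _ _ => hf0 _) hδ.le
      _ = δ := mul_one _

end Pool.Agent.Y196.JX
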