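import Pool.Agent.Y196.JX.Decay

/-!
# Uniform smallness of the nontrivial part of the characteristic function
-/

set_option autoImplicit false

namespace Pool.Agent.Y196.JX

open Finset H942JM Filter Topology

lemma norm_law_prod (μ : ℤ →₀ ℝ) (a n : ℕ) (θ : ℝ) :
    ‖chf (law μ (a : ℤ) n) θ‖ = ∏ k ∈ range n, ‖chf μ ((a : ℝ) ^ k * θ)‖ := by
  rw [lawProd, norm_prod]
  refine Finset.prod_congr rfl fun k _ => ?_
  push_cast
  rfl

lemma norm_law_split (μ : ℤ →₀ ℝ) (a s t : ℕ) (θ : ℝ) :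
    ‖chf (law μ (a : ℤ) (s + t)) θ‖
      = ‖chf (law μ (a : ℤ) s) θ‖ * ‖chf (law μ (a : ℤ) t) ((a : ℝ) ^ s * θ)‖ := by
  rw [norm_law_prod, norm_law_prod, norm_law_prod, Finset.prod_range_add]
  congr 1
  refine Finset.prod_congr rfl fun k _ => ?_
  congr 2
  rw [pow_add]; ring

/-- The nearest integer of `a ^ (s + J) c / q` has a small power of `a`. -/
lemma not_dvd_round {a J s q c : ℕ} (ha : 2 ≤ a) (hJ : 0 < J) (hq : 0 < q) (hc0 : 0 < c)
    (hcq : c < q) (hcop : Nat.Coprime q a) (hqs : q ≤ a ^ s) {N : ℤ}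
    (hN : |(a : ℝ) ^ (s + J) * ((c : ℝ) / q) - N| < 1) : ¬ ((a : ℤ) ^ (s + 1) ∣ N) := by
  rintro ⟨w, hw⟩
  have haR : (0 : ℝ) < a := by exact_mod_cast (by omega : 0 < a)
  have hqR : (0 : ℝ) < q := by exact_mod_cast hq
  obtain ⟨j, rfl⟩ : ∃ j, J = j + 1 := ⟨J - 1, by omega⟩
  have e : (a : ℝ) ^ (s + (j + 1)) * ((c : ℝ) / q) - N
      = (a : ℝ) ^ (s + 1) * (((a ^ j * c : ℕ) : ℤ) - (q : ℤ) * w : ℤ) / q := by
    rw [hw]
    push_cast
    field_simp
    ring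
  rw [e, abs_div, abs_mul, abs_of_pos (by positivity : (0 : ℝ) < (a : ℝ) ^ (s + 1)),
    abs_of_pos hqR, div_lt_one hqR] at hN
  have h1 : (((a ^ j * c : ℕ) : ℤ) - (q : ℤ) * w : ℤ) ≠ 0 := by
    intro h
    have h2 : (q : ℤ) ∣ ((a ^ j * c : ℕ) : ℤ) := ⟨w, by linarith⟩
    have h3 : q ∣ a ^ j * c := by exact_mod_cast h2
    have h4 : q ∣ c := (Nat.Coprime.pow_right j hcop).dvd_of_dvd_mul_left h3
    exact absurd (Nat.le_of_dvd hc0 h4) (by omega)
  have h2 : (1 : ℝ) ≤ |(((((a ^ j * c : ℕ) : ℤ) - (q : ℤ) * w : ℤ)) : ℝ)| := by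
    have : (1 : ℤ) ≤ |((a ^ j * c : ℕ) : ℤ) - (q : ℤ) * w| := Int.one_le_abs h1
    exact_mod_cast this
  have h3 : (q : ℝ) ≤ (a : ℝ) ^ s := by exact_mod_cast hqs
  have h4 : (a : ℝ) ^ s ≤ (a : ℝ) ^ (s + 1) :=
    pow_le_pow_right₀ (by exact_mod_cast (by omega : 1 ≤ a)) (by omega)
  have h5 : (a : ℝ) ^ (s + 1) * 1 ≤ (a : ℝ) ^ (s + 1) *
      |(((((a ^ j * c : ℕ) : ℤ) - (q : ℤ) * w : ℤ)) : ℝ)| :=
    mul_le_mul_of_nonneg_left h2 (by positivity)
  linarith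

theorem unif (hPARS : S_PARS) : S_UNIF := by
  intro μ a J hμ ha hdeg δ hδ
  obtain ⟨C, hC, hpars⟩ := hPARS μ a J hμ.nonneg hμ.total ha hdeg
  obtain ⟨K, hK1, hK⟩ := exists_lip hμ.nonneg
  have haR : (2 : ℝ) ≤ a := by exact_mod_cast ha
  have ha0 : (0 : ℝ) < a := by linarith
  set δ₁ : ℝ := Real.sqrt (δ / (4 * C)) with hδ₁
  have hδ₁pos : 0 < δ₁ := Real.sqrt_pos.mpr (by positivity)
  have hδ₁sq : δ₁ ^ 2 = δ / (4 * C) := Real.sq_sqrt (by positivity)
  obtain ⟨Λ, hΛ, hdec⟩ := decay μ a J hμ ha hdeg δ₁ hδ₁pos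
  have hJ : 0 < J := by
    obtain ⟨k, hk, -⟩ := hdeg 1 (by
      intro h
      have := Int.le_of_dvd one_pos h
      omega)
    omega
  set e₁ : ℝ := min (1 / Λ) (Real.sqrt (δ / (4 * C * (K * Λ) ^ 2))) with he₁
  have he₁pos : 0 < e₁ := lt_min (by positivity) (Real.sqrt_pos.mpr (by positivity))
  obtain ⟨T₀, hT₀⟩ := exists_pow_lt_of_lt_one he₁pos
    (show (1 / (a : ℝ)) < 1 by rw [div_lt_one ha0]; linarith)
  set T : ℕ := max J T₀ with hT
  have hJT : J ≤ T := le_max_left _ _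
  set x : ℝ := 1 / (a : ℝ) ^ T with hx
  have hx0 : 0 < x := by positivity
  have hxe : x < e₁ := by
    refine lt_of_le_of_lt ?_ hT₀
    rw [hx, one_div_pow]
    exact one_div_le_one_div_of_le (by positivity)
      (pow_le_pow_right₀ (by linarith) (le_max_right _ _))
  have hx1 : Λ * x < 1 := by
    have : x < 1 / Λ := hxe.trans_le (min_le_left _ _)
    rw [lt_div_iff₀ hΛ] at this
    linarith
  have hx2 : 2 * C * (K * Λ * x) ^ 2 ≤ δ / 2 := by
    have h1 : x ≤ Real.sqrt (δ / (4 * C * (K * Λ) ^ 2)) := hxe.le.trans (min_le_right _ _)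
    have h2 : x ^ 2 ≤ δ / (4 * C * (K * Λ) ^ 2) := by
      have := pow_le_pow_left₀ hx0.le h1 2
      rwa [Real.sq_sqrt (by positivity)] at this
    rw [le_div_iff₀ (by positivity)] at h2
    have e : 2 * C * (K * Λ * x) ^ 2 = (x ^ 2 * (4 * C * (K * Λ) ^ 2)) / 2 := by ring
    rw [e]
    linarith
  refine ⟨T, ?_⟩
  intro n q hq hcop hn
  have hTn : T ≤ n := by
    have h1 : a ^ T ≤ a ^ n := (Nat.le_mul_of_pos_left _ hq).trans hn
    exact (Nat.pow_le_pow_iff_right (by omega)).mp h1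
  obtain ⟨s, rfl⟩ : ∃ s, n = s + T := ⟨n - T, by omega⟩
  have hqs : q ≤ a ^ s := by
    rw [pow_add] at hn
    exact Nat.le_of_mul_le_mul_right hn (by positivity)
  set φ : ℕ → ℕ → ℝ := fun m c => ‖chf (law μ (a : ℤ) m) ((c : ℝ) / q)‖ ^ 2 with hφ
  have hφ0 : ∀ m c, 0 ≤ φ m c := fun m c => by positivity
  set S : ℕ := s + J with hS
  -- the pointwise bound
  have hpt : ∀ c ∈ (range q).erase 0, φ (s + T) c ≤ δ₁ ^ 2 * φ s c
      + ∑ j ∈ range S, (K * (Λ * x / (a : ℝ) ^ (j + 1))) ^ 2 * φ (S - (j + 1)) c := by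
    intro c hc
    have hc0 : 0 < c := Nat.pos_of_ne_zero (Finset.ne_of_mem_erase hc)
    have hcq : c < q := Finset.mem_range.mp (Finset.mem_of_mem_erase hc)
    have hsum0 : ∀ j ∈ range S, 0 ≤ (K * (Λ * x / (a : ℝ) ^ (j + 1))) ^ 2 * φ (S - (j + 1)) c :=
      fun j _ => mul_nonneg (by positivity) (hφ0 _ _)
    by_cases hcase : Λ ≤ (a : ℝ) ^ T * |(a : ℝ) ^ J * ((a : ℝ) ^ s * ((c : ℝ) / q)) -
        round ((a : ℝ) ^ J * ((a : ℝ) ^ s * ((c : ℝ) / q)))|
    · have h1 := hdec T _ hcase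
      have h2 : φ (s + T) c ≤ δ₁ ^ 2 * φ s c := by
        rw [hφ]
        simp only
        rw [norm_law_split, mul_pow, mul_comm]
        exact mul_le_mul_of_nonneg_right (pow_le_pow_left₀ (norm_nonneg _) h1 2) (by positivity)
      exact h2.trans (le_add_of_nonneg_right (Finset.sum_nonneg hsum0))
    · push Not at hcase
      have hθe : (a : ℝ) ^ J * ((a : ℝ) ^ s * ((c : ℝ) / q)) = (a : ℝ) ^ S * ((c : ℝ) / q) := by
        rw [hS, pow_add]; ring
      rw [hθe] at hcase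
      set N : ℤ := round ((a : ℝ) ^ S * ((c : ℝ) / q)) with hN
      have hNd : |(a : ℝ) ^ S * ((c : ℝ) / q) - N| ≤ Λ * x := by
        rw [hx]
        rw [mul_one_div, le_div_iff₀ (by positivity)]
        linarith
      have hndvd := not_dvd_round ha hJ hq hc0 hcq hcop hqs (hNd.trans_lt hx1)
      obtain ⟨v, hv, c', hc', hca⟩ := exact_pow _ hndvd
      obtain ⟨k, hkJ, hkz⟩ := hdeg c' hca
      have hi : v + k + 1 ≤ S := by omega
      have hsm := small_factor (θ := (c : ℝ) / q) (m := S) (i := v + k + 1) hK1 hK ha rfl hi hkz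
      rw [← hc'] at hsm
      have hl : S - (v + k + 1) < s + T := by omega
      have hpl := prod_le_factor (f := fun k => ‖chf μ ((a : ℝ) ^ k * ((c : ℝ) / q))‖)
        (fun _ => norm_nonneg _) (fun _ => chf_norm_le hμ.nonneg hμ.total _) hl
      rw [← norm_law_prod, ← norm_law_prod] at hpl
      have h3 : ‖chf μ ((a : ℝ) ^ (S - (v + k + 1)) * ((c : ℝ) / q))‖
          ≤ K * (Λ * x / (a : ℝ) ^ (v + k + 1)) := by
        refine hsm.trans (mul_le_mul_of_nonneg_left ?_ (by linarith))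
        exact div_le_div_of_nonneg_right hNd (by positivity)
      have h4 : ‖chf (law μ (a : ℤ) (s + T)) ((c : ℝ) / q)‖
          ≤ K * (Λ * x / (a : ℝ) ^ (v + k + 1)) *
            ‖chf (law μ (a : ℤ) (S - (v + k + 1))) ((c : ℝ) / q)‖ :=
        hpl.trans (mul_le_mul_of_nonneg_right h3 (norm_nonneg _))
      have h5 : φ (s + T) c ≤ (K * (Λ * x / (a : ℝ) ^ (v + k + 1))) ^ 2
          * φ (S - (v + k + 1)) c := by
        have := pow_le_pow_left₀ (norm_nonneg _) h4 2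
        rwa [mul_pow] at this
      have h6 : (K * (Λ * x / (a : ℝ) ^ (v + k + 1))) ^ 2 * φ (S - (v + k + 1)) c
          ≤ ∑ j ∈ range S, (K * (Λ * x / (a : ℝ) ^ (j + 1))) ^ 2 * φ (S - (j + 1)) c :=
        Finset.single_le_sum (f := fun j => (K * (Λ * x / (a : ℝ) ^ (j + 1))) ^ 2
          * φ (S - (j + 1)) c) hsum0 (Finset.mem_range.mpr (by omega : v + k < S))
      exact h5.trans (h6.trans (le_add_of_nonneg_left
        (mul_nonneg (by positivity) (hφ0 _ _))))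
  -- the sums
  have hfull : ∀ m, ∑ c ∈ (range q).erase 0, φ m c ≤ C * (1 + q / (a : ℝ) ^ m) := by
    intro m
    refine le_trans ?_ (hpars m q hq)
    exact Finset.sum_le_sum_of_subset_of_nonneg (Finset.erase_subset _ _) fun c _ _ => hφ0 m c
  have hqsR : (q : ℝ) ≤ (a : ℝ) ^ s := by exact_mod_cast hqs
  have h7 : ∑ c ∈ (range q).erase 0, φ s c ≤ 2 * C := by
    refine (hfull s).trans ?_
    have h1 : (q : ℝ) / (a : ℝ) ^ s ≤ 1 := by
      rw [div_le_one (by positivity)]; exact hqsR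
    nlinarith
  have h8 : ∀ j ∈ range S, ∑ c ∈ (range q).erase 0, φ (S - (j + 1)) c
      ≤ C * (2 * (a : ℝ) ^ (j + 1)) := by
    intro j hj
    have hjS := Finset.mem_range.mp hj
    refine (hfull _).trans (mul_le_mul_of_nonneg_left ?_ hC.le)
    have h1 : (q : ℝ) / (a : ℝ) ^ (S - (j + 1)) ≤ (a : ℝ) ^ (j + 1) := by
      rw [div_le_iff₀ (by positivity), ← pow_add]
      refine hqsR.trans (pow_le_pow_right₀ (by linarith) (by omega))
    have h2 : (1 : ℝ) ≤ (a : ℝ) ^ (j + 1) := one_le_pow₀ (by linarith)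
    linarith
  have hgeo : ∑ j ∈ range S, (1 / (a : ℝ)) ^ (j + 1) ≤ 1 := by
    have h1 : ∀ m : ℕ, ∑ j ∈ range m, (1 / (a : ℝ)) ^ (j + 1) ≤ 1 - (1 / (a : ℝ)) ^ m := by
      intro m
      induction m with
      | zero => simp
      | succ m ih =>
        rw [Finset.sum_range_succ]
        have h2 : (1 / (a : ℝ)) ≤ 1 / 2 := one_div_le_one_div_of_le (by norm_num) haR
        have h3 : (0 : ℝ) ≤ (1 / (a : ℝ)) ^ m := by positivity
        have h4 : (1 / (a : ℝ)) ^ (m + 1) = (1 / (a : ℝ)) ^ m * (1 / (a : ℝ)) := pow_succ _ _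
        rw [h4]
        nlinarith
    have h2 : (0 : ℝ) ≤ (1 / (a : ℝ)) ^ S := by positivity
    linarith [h1 S]
  calc ∑ c ∈ (range q).erase 0, ‖chf (law μ (a : ℤ) (s + T)) ((c : ℝ) / q)‖ ^ 2
      ≤ ∑ c ∈ (range q).erase 0, (δ₁ ^ 2 * φ s c
        + ∑ j ∈ range S, (K * (Λ * x / (a : ℝ) ^ (j + 1))) ^ 2 * φ (S - (j + 1)) c) :=
        Finset.sum_le_sum hpt
    _ = δ₁ ^ 2 * ∑ c ∈ (range q).erase 0, φ s c
        + ∑ j ∈ range S, (K * (Λ * x / (a : ℝ) ^ (j + 1))) ^ 2 *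
          ∑ c ∈ (range q).erase 0, φ (S - (j + 1)) c := by
        rw [Finset.sum_add_distrib, ← Finset.mul_sum, Finset.sum_comm]
        congr 1
        refine Finset.sum_congr rfl fun j _ => ?_
        rw [Finset.mul_sum]
    _ ≤ δ₁ ^ 2 * (2 * C) + ∑ j ∈ range S, (K * (Λ * x / (a : ℝ) ^ (j + 1))) ^ 2 *
          (C * (2 * (a : ℝ) ^ (j + 1))) :=
        add_le_add (mul_le_mul_of_nonneg_left h7 (by positivity))
          (Finset.sum_le_sum fun j hj => mul_le_mul_of_nonneg_left (h8 j hj) (by positivity))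
    _ = δ / 2 + 2 * C * (K * Λ * x) ^ 2 * ∑ j ∈ range S, (1 / (a : ℝ)) ^ (j + 1) := by
        rw [hδ₁sq, Finset.mul_sum]
        congr 1
        · field_simp; ring
        · refine Finset.sum_congr rfl fun j _ => ?_
          rw [one_div_pow]
          field_simp
    _ ≤ δ / 2 + 2 * C * (K * Λ * x) ^ 2 * 1 := by
        have : (0 : ℝ) ≤ 2 * C * (K * Λ * x) ^ 2 := by positivity
        linarith [mul_le_mul_of_nonneg_left hgeo this]
    _ ≤ δ := by linarith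

end Pool.Agent.Y196.JX
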