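import Pool.Agent.Y196.JX.Pos
import Pool.Agent.Y196.JX.Unif
import Pool.Agent.Y418.JX.Ent

/-!
# The entropy rate of a nondegenerate law is less than `log a`
-/

set_option autoImplicit false

namespace Pool.Agent.Y196.JX

open Finset H942JM Filter Topology

/-- A wave. -/
noncomputable def wv (ζ : ℂ) (t : ℝ) : ℝ :=
  (ζ * Complex.exp (((2 * Real.pi * t : ℝ) : ℂ) * Complex.I)).re

lemma wv_abs {ζ : ℂ} (hζ : ‖ζ‖ = 1) (t : ℝ) : |wv ζ t| ≤ 1 := by
  unfold wv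
  refine (Complex.abs_re_le_norm _).trans ?_
  rw [norm_mul, hζ, Complex.norm_exp_ofReal_mul_I, one_mul]

lemma wv_lip {ζ : ℂ} (hζ : ‖ζ‖ = 1) (s t : ℝ) : |wv ζ s - wv ζ t| ≤ 4 * Real.pi * |s - t| := by
  unfold wv
  rw [← Complex.sub_re, ← mul_sub]
  refine (Complex.abs_re_le_norm _).trans ?_
  rw [norm_mul, hζ, one_mul]
  refine (exp_lip _ _).trans (le_of_eq ?_)
  rw [← mul_sub, abs_mul, abs_of_pos Real.two_pi_pos]
  ring

lemma wv_int (ζ : ℂ) (t : ℝ) (z : ℤ) : wv ζ (t + z) = wv ζ t := by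
  unfold wv
  have e : (((2 * Real.pi * (t + z) : ℝ) : ℂ) * Complex.I)
      = (((2 * Real.pi * t : ℝ) : ℂ) * Complex.I) + z * (2 * Real.pi * Complex.I) := by
    push_cast; ring
  rw [e, Complex.exp_add, Complex.exp_int_mul_two_pi_mul_I, mul_one]

lemma wv_sum (P : ℤ →₀ ℝ) (ζ : ℂ) (θ : ℝ) :
    ∑ x ∈ P.support, P x * wv ζ (θ * x) = (ζ * chf P θ).re := by
  rw [chf_eq, Finset.mul_sum, Complex.re_sum]
  refine Finset.sum_congr rfl fun x _ => ?_
  unfold wv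
  have e : ζ * ((P x : ℂ) * Complex.exp (2 * Real.pi * Complex.I * θ * x))
      = (P x : ℂ) * (ζ * Complex.exp (((2 * Real.pi * (θ * x) : ℝ) : ℂ) * Complex.I)) := by
    rw [exp_eq, mul_assoc (2 * Real.pi) θ (x : ℝ)]
    ring
  rw [e, Complex.re_ofReal_mul]

lemma wv_root (ζ : ℂ) {A : ℕ} (hA : 0 < A) {c : ℤ} (hc : ¬ ((A : ℤ) ∣ c)) :
    ∑ u ∈ range A, wv ζ ((c : ℝ) * u / A) = 0 := by
  unfold wv
  rw [← Complex.re_sum, ← Finset.mul_sum]
  have hAR : (A : ℝ) ≠ 0 := by exact_mod_cast hA.ne'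
  have hAC : (A : ℂ) ≠ 0 := by exact_mod_cast hA.ne'
  set ω : ℂ := Complex.exp (((2 * Real.pi * (c / A) : ℝ) : ℂ) * Complex.I) with hω
  have h1 : ∀ u ∈ range A, Complex.exp (((2 * Real.pi * ((c : ℝ) * u / A) : ℝ) : ℂ) * Complex.I)
      = ω ^ u := by
    intro u _
    rw [hω, ← Complex.exp_nat_mul]
    congr 1
    push_cast
    ring
  rw [Finset.sum_congr rfl h1]
  have hω1 : ω ≠ 1 := by
    intro h
    rw [hω, Complex.exp_eq_one_iff] at h
    obtain ⟨k, hk⟩ := h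
    have h2 : (((2 * Real.pi * ((c : ℝ) / A) : ℝ) : ℂ)) * Complex.I
        = ((2 * Real.pi * k : ℝ) : ℂ) * Complex.I := by
      rw [hk]; push_cast; ring
    have h3 := mul_right_cancel₀ Complex.I_ne_zero h2
    have h4 : 2 * Real.pi * ((c : ℝ) / A) = 2 * Real.pi * k := by exact_mod_cast h3
    have h5 : (c : ℝ) / A = k := mul_left_cancel₀ Real.two_pi_pos.ne' h4
    rw [div_eq_iff hAR] at h5
    apply hc
    refine ⟨k, ?_⟩
    have h6 : c = k * A := by exact_mod_cast h5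
    rw [h6, mul_comm]
  have hωA : ω ^ A = 1 := by
    rw [hω, ← Complex.exp_nat_mul, Complex.exp_eq_one_iff]
    refine ⟨c, ?_⟩
    push_cast
    field_simp
  rw [geom_sum_eq hω1, hωA, sub_self, zero_div, mul_zero, Complex.zero_re]

lemma log_low {t : ℝ} (ht : -(1 / 2) ≤ t) : t - 2 * t ^ 2 ≤ Real.log (1 + t) := by
  have h1 : 0 < 1 + t := by linarith
  have h2 := Real.one_sub_inv_le_log_of_pos h1
  have h3 : t - 2 * t ^ 2 ≤ 1 - (1 + t)⁻¹ := by
    have e : 1 - (1 + t)⁻¹ = t / (1 + t) := by field_simp; ring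
    rw [e, le_div_iff₀ h1]
    have := mul_nonneg (sq_nonneg t) (by linarith : 0 ≤ 1 + 2 * t)
    nlinarith
  linarith

lemma exists_phase {z : ℂ} (hz : z ≠ 0) : ∃ ζ : ℂ, ‖ζ‖ = 1 ∧ (ζ * z).re = ‖z‖ := by
  have hn : ‖z‖ ≠ 0 := norm_ne_zero_iff.mpr hz
  refine ⟨(starRingEnd ℂ) z / (‖z‖ : ℂ), ?_, ?_⟩
  · rw [norm_div, RCLike.norm_conj, Complex.norm_real, norm_norm, div_self hn]
  · have e : (starRingEnd ℂ) z / (‖z‖ : ℂ) * z = (‖z‖ : ℂ) := by
      rw [div_mul_eq_mul_div, mul_comm ((starRingEnd ℂ) z) z, Complex.mul_conj,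
        Complex.normSq_eq_norm_sq]
      have : (‖z‖ : ℂ) ≠ 0 := by exact_mod_cast hn
      rw [div_eq_iff this]
      push_cast
      ring
    rw [e, Complex.ofReal_re]

/-- The digits of an integer. -/
lemma digit_dec {A l j : ℕ} (hA : 0 < A) (hj : j < l) (x : ℤ) :
    ∃ (y : ℤ) (ρ : ℕ), ρ < A ^ j ∧
      x = (A : ℤ) ^ (j + 1) * y
        + (A : ℤ) ^ j * (((x % ((A ^ l : ℕ) : ℤ)).toNat / A ^ j % A : ℕ) : ℤ) + (ρ : ℤ) := by
  set B : ℕ := A ^ l with hB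
  have hBpos : 0 < B := by positivity
  set r : ℕ := (x % (B : ℤ)).toNat with hr
  have hr' : (r : ℤ) = x % (B : ℤ) :=
    Int.toNat_of_nonneg (Int.emod_nonneg _ (by exact_mod_cast hBpos.ne'))
  have h1 : x = (B : ℤ) * (x / B) + r := by rw [hr']; exact (Int.mul_ediv_add_emod x B).symm
  have h2 : A ^ j * (r / A ^ j) + r % A ^ j = r := Nat.div_add_mod r (A ^ j)
  have h3 : A * (r / A ^ j / A) + r / A ^ j % A = r / A ^ j := Nat.div_add_mod (r / A ^ j) A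
  refine ⟨(A : ℤ) ^ (l - (j + 1)) * (x / B) + (r / A ^ j / A : ℕ), r % A ^ j,
    Nat.mod_lt _ (by positivity), ?_⟩
  have h4 : (B : ℤ) = (A : ℤ) ^ (j + 1) * (A : ℤ) ^ (l - (j + 1)) := by
    rw [hB, ← pow_add]
    push_cast
    congr 1
    omega
  have h2' : (A : ℤ) ^ j * ((r / A ^ j : ℕ) : ℤ) + ((r % A ^ j : ℕ) : ℤ) = (r : ℤ) := by
    exact_mod_cast h2
  have h3' : (A : ℤ) * ((r / A ^ j / A : ℕ) : ℤ) + ((r / A ^ j % A : ℕ) : ℤ)
      = ((r / A ^ j : ℕ) : ℤ) := by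
    exact_mod_cast h3
  rw [h4] at h1
  calc x = (A : ℤ) ^ (j + 1) * (A : ℤ) ^ (l - (j + 1)) * (x / B) + r := by
        conv_lhs => rw [h1]
        rw [← h4]
    _ = _ := by
        rw [← h2', ← h3', pow_succ]
        ring

lemma sum_res {B D : ℕ} (hB : 0 < B) {g : ℕ → ℝ} (hg : ∀ r, 0 ≤ g r) {s : Finset ℤ}
    (hs : ∀ x ∈ s, |x| ≤ (D : ℤ) * B) :
    ∑ x ∈ s, g ((x % (B : ℤ)).toNat) ≤ (2 * D + 1) * ∑ r ∈ range B, g r := by
  classical
  have hBZ : (0 : ℤ) < B := by exact_mod_cast hB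
  set e : ℤ → ℤ × ℕ := fun x => (x / (B : ℤ), (x % (B : ℤ)).toNat) with he
  have hinj : Set.InjOn e s := by
    intro x _ y _ hxy
    have h1 : x / (B : ℤ) = y / (B : ℤ) := congrArg Prod.fst hxy
    have h2 : (x % (B : ℤ)).toNat = (y % (B : ℤ)).toNat := congrArg Prod.snd hxy
    have h3 : x % (B : ℤ) = y % (B : ℤ) := by
      have := Int.emod_nonneg x hBZ.ne'
      have := Int.emod_nonneg y hBZ.ne'
      omega
    rw [← Int.mul_ediv_add_emod x B, ← Int.mul_ediv_add_emod y B, h1, h3]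
  have h1 : ∑ x ∈ s, g ((x % (B : ℤ)).toNat) = ∑ p ∈ s.image e, g p.2 := by
    rw [Finset.sum_image hinj]
  have h2 : s.image e ⊆ (Finset.Icc (-(D : ℤ)) D) ×ˢ (range B) := by
    intro p hp
    obtain ⟨x, hx, rfl⟩ := Finset.mem_image.mp hp
    have hx' := abs_le.mp (hs x hx)
    rw [Finset.mem_product, Finset.mem_Icc, Finset.mem_range]
    refine ⟨⟨?_, ?_⟩, ?_⟩
    · rw [he]
      simp only
      rw [Int.le_ediv_iff_mul_le hBZ]
      linarith
    · rw [he]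
      simp only
      exact Int.ediv_le_of_le_mul hBZ hx'.2
    · rw [he]
      simp only
      have := Int.emod_nonneg x hBZ.ne'
      have := Int.emod_lt_of_pos x hBZ
      omega
  rw [h1]
  refine (Finset.sum_le_sum_of_subset_of_nonneg h2 fun _ _ _ => hg _).trans (le_of_eq ?_)
  rw [Finset.sum_product]
  simp only
  rw [Finset.sum_const, Int.card_Icc, nsmul_eq_mul]
  congr 1
  have : ((D : ℤ) + 1 - -(D : ℤ)).toNat = 2 * D + 1 := by omega
  rw [this]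
  push_cast
  ring

end Pool.Agent.Y196.JX
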