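import Pool.Agent.Y196.JX.Stm

/-!
# The lower bound of the total variation distance for a general law
-/

set_option autoImplicit false

namespace Pool.Agent.Y196.JX

open Finset H942JM

lemma E2_add (P : ℤ →₀ ℝ) (f g : ℤ → ℝ) :
    E2 P (fun x => f x + g x) = E2 P f + E2 P g := by
  unfold E2 Finsupp.sum
  rw [← Finset.sum_add_distrib]
  refine Finset.sum_congr rfl fun x _ => ?_
  rw [← Finset.sum_add_distrib]
  exact Finset.sum_congr rfl fun y _ => by ring

lemma E2_smul (P : ℤ →₀ ℝ) (c : ℝ) (f : ℤ → ℝ) : E2 P (fun x => c * f x) = c * E2 P f := by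
  unfold E2 Finsupp.sum
  rw [Finset.mul_sum]
  refine Finset.sum_congr rfl fun x _ => ?_
  rw [Finset.mul_sum]
  exact Finset.sum_congr rfl fun y _ => by ring

lemma E2_sum {ι : Type*} (P : ℤ →₀ ℝ) (s : Finset ι) (f : ι → ℤ → ℝ) :
    E2 P (fun x => ∑ i ∈ s, f i x) = ∑ i ∈ s, E2 P (f i) := by
  classical
  induction s using Finset.induction_on with
  | empty =>
    simp only [Finset.sum_empty]
    unfold E2
    simp
  | insert i s hi ih =>
    rw [Finset.sum_insert hi, ← ih, ← E2_add]
    congr 1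
    funext x
    rw [Finset.sum_insert hi]

lemma E2_mono {P : ℤ →₀ ℝ} (hP : ∀ x, 0 ≤ P x) {f g : ℤ → ℝ} (h : ∀ x, f x ≤ g x) :
    E2 P f ≤ E2 P g := by
  unfold E2 Finsupp.sum
  refine Finset.sum_le_sum fun x _ => Finset.sum_le_sum fun y _ => ?_
  exact mul_le_mul_of_nonneg_left (h _) (mul_nonneg (hP _) (hP _))

/-- The cosine sum. -/
noncomputable def Cs (a c m m' : ℕ) (x : ℤ) : ℝ :=
  ∑ i ∈ range m', Real.cos (2 * Real.pi * g a c m i * x)

/-- The pair sum. -/
noncomputable def Ds (a c m m' : ℕ) (x : ℤ) : ℝ :=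
  ∑ i ∈ range m', ∑ j ∈ range m', Real.cos (2 * Real.pi * (g a c m i - g a c m j) * x)

lemma Cs_sq_le (a c m m' : ℕ) (x : ℤ) : (Cs a c m m' x) ^ 2 ≤ Ds a c m m' x := by
  have h : Ds a c m m' x = (Cs a c m m' x) ^ 2
      + (∑ i ∈ range m', Real.sin (2 * Real.pi * g a c m i * x)) ^ 2 := by
    unfold Ds Cs
    rw [sq, sq, Finset.sum_mul_sum, Finset.sum_mul_sum, ← Finset.sum_add_distrib]
    refine Finset.sum_congr rfl fun i _ => ?_
    rw [← Finset.sum_add_distrib]
    refine Finset.sum_congr rfl fun j _ => ?_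
    rw [← Real.cos_sub]
    congr 1
    ring
  rw [h]
  nlinarith [sq_nonneg (∑ i ∈ range m', Real.sin (2 * Real.pi * g a c m i * x))]

theorem tvLower (hLAW : S_LAW) (hCOS : S_COS) (hTV2 : S_TV2) (hPAIR : S_PAIR)
    {μ : ℤ →₀ ℝ} (h0 : ∀ x, 0 ≤ μ x) (h1 : (μ.sum fun _ p => p) = 1) {M : ℝ → ℝ}
    (hM : M = fun θ => ‖chf μ θ‖ ^ 2) {K : ℝ}
    (hG : Good M K) {a c m m' q n L : ℕ} {κ : ℝ} (ha : 2 ≤ a)
    (hc : 1 ≤ c) (hm : 2 ≤ m) (hm' : 1 ≤ m') (hmm : m' ≤ m) (hlast : c * a ^ (m' - 1) + 1 < a ^ m)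
    (hpos : ∀ j, 0 < M (g a c m j)) (hκ : 0 < κ) (hκp : κ ≤ ∏ k ∈ range m, M (g a c m k))
    (hq0 : 0 < q) (hq : ∀ i, ∃ z : ℤ, g a c m i * q = z) (hn : n ≤ L * m) :
    1 - (128 * K * c * (L * m) / (m' : ℝ) ^ 2 + 4 / m') / κ ^ (2 * L) ≤ tvDist μ a q n := by
  have hmR : (0 : ℝ) < m' := by exact_mod_cast hm'
  set P := law μ (a : ℤ) n with hP
  have hPnn : ∀ x, 0 ≤ P x := fun x => law_nonneg h0 _ _ _
  set Φ : ℕ → ℝ := fun i => ∏ k ∈ range n, M (g a c m (i + k)) with hΦ
  set E0 : ℝ := ∑ i ∈ range m', Φ i with hE0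
  set ρ : ℝ := κ ^ L with hρ
  have hρ0 : 0 < ρ := by positivity
  have hK0 : 0 ≤ K := by linarith [hG.one_le]
  have hcos : ∀ θ : ℝ, E2 P (fun x => Real.cos (2 * Real.pi * θ * x))
      = ∏ k ∈ range n, M ((a : ℝ) ^ k * θ) := by
    intro θ
    rw [hCOS, hP, hLAW, norm_prod, ← Finset.prod_pow]
    refine Finset.prod_congr rfl fun k _ => ?_
    rw [hM]
    push_cast
    rfl
  have hone : E2 P (fun _ => 1) = 1 := by
    have h := hcos 0
    simp only [mul_zero, zero_mul, Real.cos_zero] at h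
    rw [h, Finset.prod_eq_one fun k _ => hG.zero]
  -- expectation of the cosine sum
  have hEcos : ∀ i, E2 P (fun x => Real.cos (2 * Real.pi * g a c m i * x)) = Φ i := by
    intro i
    rw [hcos, hΦ]
    refine Finset.prod_congr rfl fun k _ => ?_
    rw [← g_pow_mul]
  have hEcos2 : ∀ i j, E2 P (fun x => Real.cos (2 * Real.pi * (g a c m i - g a c m j) * x))
      = ∏ k ∈ range n, M (g a c m (i + k) - g a c m (j + k)) := by
    intro i j
    rw [hcos]
    refine Finset.prod_congr rfl fun k _ => ?_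
    rw [← g_pow_mul, ← g_pow_mul, mul_sub]
  have hEC : E2 P (Cs a c m m') = E0 := by
    unfold Cs
    rw [E2_sum]
    exact Finset.sum_congr rfl fun i _ => hEcos i
  have hED : E2 P (Ds a c m m')
      = ∑ i ∈ range m', ∑ j ∈ range m', ∏ k ∈ range n, M (g a c m (i + k) - g a c m (j + k)) := by
    unfold Ds
    rw [E2_sum]
    refine Finset.sum_congr rfl fun i _ => ?_
    rw [E2_sum]
    exact Finset.sum_congr rfl fun j _ => hEcos2 i j
  have hE0low : m' * ρ ≤ E0 := by
    have hlow : ∀ i, ρ ≤ Φ i := by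
      intro i
      rw [hΦ]
      have hF : ∀ j, M (g a c m (j + m)) = M (g a c m j) := by
        intro j
        rw [g_period ha hm, hG.per]
      have h2 := prod_lower_n (fun j => M (g a c m j)) m hF hpos (fun j => hG.le_one _) i L n hn
      refine le_trans ?_ h2
      rw [hρ]
      exact pow_le_pow_left₀ hκ.le hκp L
    rw [hE0]
    calc (m' : ℝ) * ρ = ∑ i ∈ range m', ρ := by
          rw [Finset.sum_const, Finset.card_range, nsmul_eq_mul]
      _ ≤ _ := Finset.sum_le_sum fun i _ => hlow i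
  have hVar : E2 P (Ds a c m m') - E0 ^ 2 ≤ 32 * K * c * n := by
    have e : E2 P (Ds a c m m') - E0 ^ 2 = ∑ i ∈ range m', ∑ j ∈ range m',
        (∏ k ∈ range n, M (g a c m (i + k) - g a c m (j + k)) - Φ i * Φ j) := by
      rw [hED, sq, hE0, Finset.sum_mul_sum, ← Finset.sum_sub_distrib]
      refine Finset.sum_congr rfl fun i _ => ?_
      rw [← Finset.sum_sub_distrib]
    rw [e]
    set GG : ℕ → ℕ → ℝ := fun i j =>
      |M (g a c m i - g a c m j) - M (g a c m i) * M (g a c m j)| with hGG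
    have hGG0 : ∀ i j, 0 ≤ GG i j := fun i j => abs_nonneg _
    calc _ ≤ ∑ i ∈ range m', ∑ j ∈ range m', ∑ k ∈ range n, GG (i + k) (j + k) := by
          refine Finset.sum_le_sum fun i _ => Finset.sum_le_sum fun j _ => ?_
          have h2 : Φ i * Φ j = ∏ k ∈ range n, (M (g a c m (i + k)) * M (g a c m (j + k))) := by
            rw [hΦ]; simp only; rw [← Finset.prod_mul_distrib]
          rw [h2]
          refine (le_abs_self _).trans (prod_sub_prod _ _ (fun k => hG.nonneg _)
            (fun k => hG.le_one _) (fun k => mul_nonneg (hG.nonneg _) (hG.nonneg _))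
            (fun k => mul_le_one₀ (hG.le_one _) (hG.nonneg _) (hG.le_one _)) n)
      _ ≤ ∑ i ∈ range m, ∑ j ∈ range m, ∑ k ∈ range n, GG (i + k) (j + k) := by
          have hsub : range m' ⊆ range m := Finset.range_mono hmm
          refine (Finset.sum_le_sum fun i _ => Finset.sum_le_sum_of_subset_of_nonneg hsub
            fun j _ _ => Finset.sum_nonneg fun k _ => hGG0 _ _).trans ?_
          exact Finset.sum_le_sum_of_subset_of_nonneg hsub
            fun i _ _ => Finset.sum_nonneg fun j _ => Finset.sum_nonneg fun k _ => hGG0 _ _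
      _ = ∑ k ∈ range n, ∑ i ∈ range m, ∑ j ∈ range m, GG (i + k) (j + k) := by
          have h3 : ∀ i, ∑ j ∈ range m, ∑ k ∈ range n, GG (i + k) (j + k)
            = ∑ k ∈ range n, ∑ j ∈ range m, GG (i + k) (j + k) :=
            fun i => Finset.sum_comm
          simp_rw [h3]
          exact Finset.sum_comm
      _ ≤ ∑ k ∈ range n, (32 * K * c : ℝ) :=
          Finset.sum_le_sum fun k _ => hPAIR M K a c m hG ha hc hm k
      _ = 32 * K * c * n := by rw [Finset.sum_const, Finset.card_range, nsmul_eq_mul, mul_comm]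
  -- the test event
  set s : ℝ := m' * ρ / 2 with hs
  have hs0 : 0 < s := by positivity
  set α : ℤ → ℝ := fun x => if s ≤ Cs a c m m' x then 1 else 0 with hα
  have hα0 : ∀ x, 0 ≤ α x := by
    intro x
    rw [hα]
    simp only
    split_ifs <;> norm_num
  have hα1 : ∀ x, α x ≤ 1 := by
    intro x
    rw [hα]
    simp only
    split_ifs <;> norm_num
  have hcosq : ∀ i (x y : ℤ), (q : ℤ) ∣ x - y →
      Real.cos (2 * Real.pi * g a c m i * x) = Real.cos (2 * Real.pi * g a c m i * y) :=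
    fun i x y h => cos_mod q _ (hq i) x y h
  have hCmod : ∀ x y : ℤ, (q : ℤ) ∣ x - y → Cs a c m m' x = Cs a c m m' y := by
    intro x y h
    unfold Cs
    exact Finset.sum_congr rfl fun i _ => hcosq i x y h
  have hαmod : ∀ x y : ℤ, (q : ℤ) ∣ x - y → α x = α y := by
    intro x y h
    rw [hα]
    simp only
    rw [hCmod x y h]
  have hcKL : 0 ≤ 32 * K * (c : ℝ) := by positivity
  -- lower bound for the probability under the walk
  have hPα : 1 - 128 * K * c * (L * m) / (m' ^ 2 * ρ ^ 2) ≤ E2 P α := by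
    have hpt : ∀ x, 1 + (-1 / s ^ 2) *
        (Ds a c m m' x + ((-2 * E0) * Cs a c m m' x + E0 ^ 2 * 1)) ≤ α x := by
      intro x
      have hCD := Cs_sq_le a c m m' x
      have hsq : (Cs a c m m' x - E0) ^ 2 ≤
          Ds a c m m' x + ((-2 * E0) * Cs a c m m' x + E0 ^ 2 * 1) := by
        nlinarith
      have hinv : 0 < 1 / s ^ 2 := by positivity
      rw [hα]
      simp only
      split_ifs with h
      · have : 0 ≤ (1 / s ^ 2) * (Ds a c m m' x + ((-2 * E0) * Cs a c m m' x + E0 ^ 2 * 1)) :=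
          mul_nonneg hinv.le ((sq_nonneg _).trans hsq)
        have e : (-1 / s ^ 2) = -(1 / s ^ 2) := by ring
        rw [e]
        linarith
      · have h2 : s ≤ E0 - Cs a c m m' x := by
          push Not at h
          rw [hs] at h ⊢
          linarith
        have h3 : s ^ 2 ≤ (Cs a c m m' x - E0) ^ 2 := by nlinarith
        have h4 : s ^ 2 ≤ Ds a c m m' x + ((-2 * E0) * Cs a c m m' x + E0 ^ 2 * 1) :=
          h3.trans hsq
        have h5 : (1 / s ^ 2) * s ^ 2 ≤
            (1 / s ^ 2) * (Ds a c m m' x + ((-2 * E0) * Cs a c m m' x + E0 ^ 2 * 1)) :=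
          mul_le_mul_of_nonneg_left h4 hinv.le
        have h6 : (1 / s ^ 2) * s ^ 2 = 1 := by field_simp
        have e : (-1 / s ^ 2) = -(1 / s ^ 2) := by ring
        rw [e]
        linarith
    have h2 := E2_mono hPnn hpt
    have h2' : E2 P (fun x => 1 + (-1 / s ^ 2) *
        (Ds a c m m' x + ((-2 * E0) * Cs a c m m' x + E0 ^ 2 * 1)))
        = 1 + (-1 / s ^ 2) * (E2 P (Ds a c m m') + ((-2 * E0) * E0 + E0 ^ 2 * 1)) := by
      rw [E2_add P (fun _ => 1) (fun x => (-1 / s ^ 2) *
        (Ds a c m m' x + ((-2 * E0) * Cs a c m m' x + E0 ^ 2 * 1))), hone,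
        E2_smul, E2_add P (Ds a c m m') (fun x => (-2 * E0) * Cs a c m m' x + E0 ^ 2 * 1),
        E2_add P (fun x => (-2 * E0) * Cs a c m m' x) (fun _ => E0 ^ 2 * 1), E2_smul, E2_smul,
        hone, hEC]
    rw [h2'] at h2
    have h3 : E2 P (Ds a c m m') + ((-2 * E0) * E0 + E0 ^ 2 * 1) ≤ 32 * K * c * n := by
      linarith
    refine le_trans ?_ h2
    have h4 : (-1 / s ^ 2) * (E2 P (Ds a c m m') + ((-2 * E0) * E0 + E0 ^ 2 * 1))
        ≥ -(1 / s ^ 2 * (32 * K * c * n)) := by
      have : (1 / s ^ 2) * (E2 P (Ds a c m m') + ((-2 * E0) * E0 + E0 ^ 2 * 1))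
        ≤ 1 / s ^ 2 * (32 * K * c * n) := mul_le_mul_of_nonneg_left h3 (by positivity)
      have e : (-1 / s ^ 2) = -(1 / s ^ 2) := by ring
      rw [e]
      linarith
    have h5 : 1 / s ^ 2 * (32 * K * c * n) ≤ 128 * K * c * (L * m) / (m' ^ 2 * ρ ^ 2) := by
      have h6 : 1 / s ^ 2 = 4 / (m' ^ 2 * ρ ^ 2) := by
        rw [hs]; field_simp; norm_num
      have hnR : (n : ℝ) ≤ L * m := by exact_mod_cast hn
      rw [h6]
      calc 4 / ((m' : ℝ) ^ 2 * ρ ^ 2) * (32 * K * c * n)
          ≤ 4 / ((m' : ℝ) ^ 2 * ρ ^ 2) * (32 * K * c * (L * m)) :=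
            mul_le_mul_of_nonneg_left (mul_le_mul_of_nonneg_left hnR hcKL) (by positivity)
        _ = 128 * K * c * (L * m) / (m' ^ 2 * ρ ^ 2) := by field_simp; ring
    linarith
  -- upper bound for the probability under the uniform measure
  have hUα : ∑ r ∈ range q, α (r : ℤ) ≤ q * (4 / (m' * ρ ^ 2)) := by
    have hpt : ∀ x, α x ≤ (1 / s ^ 2) * Ds a c m m' x := by
      intro x
      have hCD := Cs_sq_le a c m m' x
      have hD0 : 0 ≤ Ds a c m m' x := (sq_nonneg _).trans hCD
      rw [hα]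
      simp only
      split_ifs with h
      · have h2 : s ^ 2 ≤ Ds a c m m' x := (pow_le_pow_left₀ hs0.le h 2).trans hCD
        have h3 : (1 / s ^ 2) * s ^ 2 ≤ (1 / s ^ 2) * Ds a c m m' x :=
          mul_le_mul_of_nonneg_left h2 (by positivity)
        have h4 : (1 / s ^ 2) * s ^ 2 = 1 := by field_simp
        linarith
      · positivity
    have hD : ∑ r ∈ range q, Ds a c m m' (r : ℤ) = q * m' := by
      unfold Ds
      rw [Finset.sum_comm]
      have h2 : ∀ i ∈ range m', ∑ r ∈ range q, ∑ j ∈ range m',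
          Real.cos (2 * Real.pi * (g a c m i - g a c m j) * ((r : ℤ) : ℝ)) = q := by
        intro i hi
        rw [Finset.sum_comm]
        rw [Finset.sum_eq_single i]
        · simp
        · intro j hj hne
          have hi' := Finset.mem_range.mp hi
          have hj' := Finset.mem_range.mp hj
          have hlast' : g a c m (m' - 1) < 1 := by
            have h := denom_pos ha hm
            unfold g
            rw [div_lt_one h]
            have : ((c * a ^ (m' - 1) + 1 : ℕ) : ℝ) < ((a ^ m : ℕ) : ℝ) := by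
              exact_mod_cast hlast
            push_cast at this
            linarith
          have hmono := g_strictMono (c := c) ha hc hm
          have hlt : ∀ k, k < m' → g a c m k < 1 := fun k hk =>
            (hmono.monotone (by omega : k ≤ m' - 1)).trans_lt hlast'
          have := cos_sum_zero q (g a c m i - g a c m j) (by
            obtain ⟨z1, hz1⟩ := hq i
            obtain ⟨z2, hz2⟩ := hq j
            exact ⟨z1 - z2, by rw [sub_mul, hz1, hz2]; push_cast; ring⟩) (by
            intro z hz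
            have hpi := g_pos (c := c) ha hc hm i
            have hpj := g_pos (c := c) ha hc hm j
            have hli := hlt i hi'
            have hlj := hlt j hj'
            have hz1 : (z : ℝ) < 1 := by rw [← hz]; linarith
            have hz2 : (-1 : ℝ) < z := by rw [← hz]; linarith
            have hz1' : z < 1 := by exact_mod_cast hz1
            have hz2' : -1 < z := by exact_mod_cast hz2
            have hz0 : z = 0 := by omega
            rw [hz0] at hz
            push_cast at hz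
            exact hne (hmono.injective (by linarith)).symm)
          rw [← this]
          exact Finset.sum_congr rfl fun r _ => by push_cast; rfl
        · intro h; exact absurd hi h
      rw [Finset.sum_congr rfl h2, Finset.sum_const, Finset.card_range, nsmul_eq_mul, mul_comm]
    calc ∑ r ∈ range q, α (r : ℤ) ≤ ∑ r ∈ range q, (1 / s ^ 2) * Ds a c m m' (r : ℤ) :=
          Finset.sum_le_sum fun r _ => hpt _
      _ = (1 / s ^ 2) * (q * m') := by rw [← Finset.mul_sum, hD]
      _ = q * (4 / (m' * ρ ^ 2)) := by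
          rw [hs]; field_simp; norm_num
  -- conclusion
  have hqR : (0 : ℝ) < q := by exact_mod_cast hq0
  have hU2 : (1 / (q : ℝ)) * ∑ r ∈ range q, α (r : ℤ) ≤ 4 / (m' * ρ ^ 2) := by
    calc (1 / (q : ℝ)) * ∑ r ∈ range q, α (r : ℤ) ≤ (1 / (q : ℝ)) * (q * (4 / (m' * ρ ^ 2))) :=
          mul_le_mul_of_nonneg_left hUα (by positivity)
      _ = 4 / (m' * ρ ^ 2) := by field_simp
  have htv := hTV2 μ h0 h1 a q n hq0 α hα0 hα1 hαmod
  have hfin : (128 * K * c * (L * m) / (m' : ℝ) ^ 2 + 4 / m') / κ ^ (2 * L)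
      = 128 * K * c * (L * m) / (m' ^ 2 * ρ ^ 2) + 4 / (m' * ρ ^ 2) := by
    have h64 : ρ ^ 2 = κ ^ (2 * L) := by
      rw [hρ, ← pow_mul, mul_comm L 2]
    rw [h64]
    have : κ ^ (2 * L) ≠ 0 := by positivity
    field_simp
  rw [hfin]
  linarith

end Pool.Agent.Y196.JX
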