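import Pool.Agent.Y196.JX.Stm

/-!
# Statements for the criterion by the entropy rate
-/

set_option autoImplicit false

namespace Pool.Agent.Y196.JX

open Finset H942JM Filter Topology

/-- RATE: the entropies are subadditive, so the limit in the definition of the entropy rate
exists. -/
def S_RATE : Prop := ∀ (μ : ℤ →₀ ℝ) (a : ℤ), (∀ x, 0 ≤ μ x) → (μ.sum fun _ p => p) = 1 →
  Tendsto (fun n : ℕ => entropy (law μ a n) / (n : ℝ)) atTop (𝓝 (entropyRate μ a))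

/-- GIBBS: the inequality of Gibbs. -/
def S_GIBBS : Prop := ∀ (P : ℤ →₀ ℝ) (Q : ℤ → ℝ), (∀ x, 0 ≤ P x) → (P.sum fun _ p => p) = 1 →
  (∀ x ∈ P.support, 0 < Q x) → ∑ x ∈ P.support, Q x ≤ 1 →
  entropy P ≤ ∑ x ∈ P.support, P x * Real.log (1 / Q x)

/-- DIG: sums over the numbers with `l` digits. -/
def S_DIG : Prop := ∀ (A l : ℕ) (w : ℕ → ℕ → ℝ), 0 < A →
  ∑ r ∈ range (A ^ l), ∏ j ∈ range l, w j (r / A ^ j % A) = ∏ j ∈ range l, ∑ u ∈ range A, w j u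

/-- POS: the products are bounded from below. -/
def S_POS : Prop := ∀ (μ : ℤ →₀ ℝ) (a : ℕ), (∀ x, 0 ≤ μ x) → (μ.sum fun _ p => p) = 1 → 2 ≤ a →
  ∀ c : ℤ, (∀ k : ℕ, chf μ ((c : ℝ) / (a : ℝ) ^ (k + 1)) ≠ 0) →
  ∃ κ : ℝ, 0 < κ ∧ ∀ N : ℕ, κ ≤ ∏ k ∈ range N, ‖chf μ ((c : ℝ) / (a : ℝ) ^ (k + 1))‖

end Pool.Agent.Y196.JX
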