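import Pool.Agent.Y196.JX.Decay
import Pool.Agent.Y196.JX.Stm3

/-!
# The products over the zeros are bounded from below
-/

set_option autoImplicit false

namespace Pool.Agent.Y196.JX

open Finset H942JM Filter Topology

lemma exists_low (F : ℕ → ℝ) (hF : ∀ t, 0 < F t) (t₀ : ℕ) :
    ∃ e : ℝ, 0 < e ∧ ∀ t < t₀, e ≤ F t := by
  induction t₀ with
  | zero => exact ⟨1, one_pos, fun t ht => absurd ht (Nat.not_lt_zero _)⟩
  | succ t₀ ih =>
    obtain ⟨e, he, h⟩ := ih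
    refine ⟨min e (F t₀), lt_min he (hF _), fun t ht => ?_⟩
    rcases Nat.lt_succ_iff_lt_or_eq.mp ht with h1 | rfl
    · exact (min_le_left _ _).trans (h t h1)
    · exact min_le_right _ _

theorem pos : S_POS := by
  intro μ a h0 h1 ha c hne
  obtain ⟨K, hK1, hK⟩ := exists_lip h0
  have haR : (2 : ℝ) ≤ a := by exact_mod_cast ha
  set F : ℕ → ℝ := fun t => ‖chf μ ((c : ℝ) / (a : ℝ) ^ (t + 1))‖ with hF
  have hFpos : ∀ t, 0 < F t := fun t => norm_pos_iff.mpr (hne t)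
  have hF1 : ∀ t, F t ≤ 1 := fun t => chf_norm_le h0 h1 _
  set B : ℝ := K * |(c : ℝ)| with hB
  have hB0 : 0 ≤ B := by positivity
  obtain ⟨t₀, ht₀⟩ : ∃ t₀ : ℕ, B * (1 / 2) ^ t₀ ≤ 1 / 4 := by
    obtain ⟨t, ht⟩ := exists_pow_lt_of_lt_one (show (0 : ℝ) < 1 / (4 * (B + 1)) by positivity)
      (show (1 / 2 : ℝ) < 1 by norm_num)
    refine ⟨t, ?_⟩
    have h3 : B * (1 / 2) ^ t ≤ B * (1 / (4 * (B + 1))) := mul_le_mul_of_nonneg_left ht.le hB0
    have h4 : B * (1 / (4 * (B + 1))) ≤ 1 / 4 := by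
      rw [mul_one_div, div_le_iff₀ (by positivity)]
      linarith
    linarith
  obtain ⟨e, he0, he⟩ := exists_low F hFpos t₀
  have hlate : ∀ t, 1 - B * (1 / 2) ^ t ≤ F t := by
    intro t
    have h3 := hK 0 ((c : ℝ) / (a : ℝ) ^ (t + 1))
    rw [chf_zero h1, zero_sub, abs_neg, abs_div, abs_of_pos (by positivity : 0 < (a : ℝ) ^ (t + 1))]
      at h3
    have h4 : 1 - F t ≤ ‖1 - chf μ ((c : ℝ) / (a : ℝ) ^ (t + 1))‖ := by
      have := norm_sub_norm_le (1 : ℂ) (chf μ ((c : ℝ) / (a : ℝ) ^ (t + 1)))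
      rwa [norm_one] at this
    have h5 : K * (|(c : ℝ)| / (a : ℝ) ^ (t + 1)) ≤ B * (1 / 2) ^ t := by
      rw [hB, mul_assoc]
      refine mul_le_mul_of_nonneg_left ?_ (by linarith)
      rw [div_eq_mul_inv, ← one_div]
      refine mul_le_mul_of_nonneg_left ?_ (abs_nonneg _)
      rw [one_div_pow]
      apply one_div_le_one_div_of_le (by positivity)
      calc (2 : ℝ) ^ t ≤ (a : ℝ) ^ t := pow_le_pow_left₀ (by norm_num) haR t
        _ ≤ (a : ℝ) ^ (t + 1) := pow_le_pow_right₀ (by linarith) (by omega)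
    linarith
  have hge : ∀ s : ℕ, e ^ t₀ * (1 / 2) ≤ ∏ t ∈ range (t₀ + s), F t := by
    intro s
    have h3 := prod_low he0 hB0 ht₀ he s (fun t _ _ => hlate t)
    refine le_trans (mul_le_mul_of_nonneg_left ?_ (by positivity)) h3
    have h4 : (0 : ℝ) ≤ 2 * B * (1 / 2) ^ (t₀ + s) := by positivity
    have h5 : 2 * B * (1 / 2) ^ t₀ ≤ 1 / 2 := by nlinarith
    linarith
  refine ⟨e ^ t₀ * (1 / 2), by positivity, fun N => ?_⟩
  rcases le_total t₀ N with h | h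
  · obtain ⟨s, rfl⟩ := Nat.exists_eq_add_of_le h
    exact hge s
  · refine (hge 0).trans ?_
    rw [add_zero]
    obtain ⟨s, rfl⟩ := Nat.exists_eq_add_of_le h
    rw [Finset.prod_range_add]
    have h3 : ∏ x ∈ range s, F (N + x) ≤ 1 :=
      Finset.prod_le_one (fun _ _ => (hFpos _).le) fun _ _ => hF1 _
    have h4 : 0 ≤ ∏ x ∈ range N, F x := Finset.prod_nonneg fun _ _ => (hFpos _).le
    calc (∏ x ∈ range N, F x) * ∏ x ∈ range s, F (N + x) ≤ (∏ x ∈ range N, F x) * 1 :=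
          mul_le_mul_of_nonneg_left h3 h4
      _ = _ := mul_one _

end Pool.Agent.Y196.JX
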