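import Pool.Agent.H942R3.JMTV

/-!
# Statements for the stronger form of MP_e3ece1_pr (walks with several bases and laws)

`chf P θ` is the characteristic function of the finitely supported function `P` on the integers;
`Good M K` collects the properties of the squared modulus of the characteristic function of a
probability; `E2 P f` is the expectation of `f (X - Y)`, for independent `X` and `Y` of law `P`.
-/

set_option autoImplicit false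

namespace Pool.Agent.Y196.JX

open Finset H942JM

/-- The characteristic function of `P`, `∑ P(x) exp(2 π i θ x)`. -/
noncomputable def chf (P : ℤ →₀ ℝ) (θ : ℝ) : ℂ :=
  P.sum fun x p => (p : ℂ) * Complex.exp (2 * Real.pi * Complex.I * θ * x)

/-- Properties of the squared modulus of a characteristic function. -/
structure Good (M : ℝ → ℝ) (K : ℝ) : Prop where
  nonneg : ∀ x, 0 ≤ M x
  le_one : ∀ x, M x ≤ 1
  per : ∀ (x : ℝ) (z : ℤ), M (x + z) = M x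
  even : ∀ x, M (-x) = M x
  lip : ∀ x y, |M x - M y| ≤ K * |x - y|
  zero : M 0 = 1
  one_le : 1 ≤ K

/-- The expectation of `f (X - Y)` for independent `X`, `Y` of law `P`. -/
noncomputable def E2 (P : ℤ →₀ ℝ) (f : ℤ → ℝ) : ℝ :=
  P.sum fun x p => P.sum fun y r => p * r * f (x - y)

/-- GOOD. -/
def S_GOOD : Prop := ∀ μ : ℤ →₀ ℝ, (∀ x, 0 ≤ μ x) → (μ.sum fun _ p => p) = 1 →
  ∃ K : ℝ, Good (fun θ => ‖chf μ θ‖ ^ 2) K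

/-- LAW. -/
def S_LAW : Prop := ∀ (μ : ℤ →₀ ℝ) (a : ℤ) (n : ℕ) (θ : ℝ),
  chf (law μ a n) θ = ∏ k ∈ range n, chf μ ((a : ℝ) ^ k * θ)

/-- COS. -/
def S_COS : Prop := ∀ (P : ℤ →₀ ℝ) (θ : ℝ),
  E2 P (fun x => Real.cos (2 * Real.pi * θ * x)) = ‖chf P θ‖ ^ 2

/-- TV2. -/
def S_TV2 : Prop := ∀ (μ : ℤ →₀ ℝ), (∀ x, 0 ≤ μ x) → (μ.sum fun _ p => p) = 1 →
  ∀ (a : ℤ) (q n : ℕ), 0 < q → ∀ α : ℤ → ℝ, (∀ x, 0 ≤ α x) → (∀ x, α x ≤ 1) →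
  (∀ x y : ℤ, (q : ℤ) ∣ x - y → α x = α y) →
  E2 (law μ a n) α - (1 / (q : ℝ)) * ∑ r ∈ range q, α (r : ℤ) ≤ tvDist μ a q n

/-- CORE. -/
def S_CORE : Prop := ∀ (M : ℝ → ℝ) (K : ℝ) (a c : ℕ), Good M K → 2 ≤ a → 1 ≤ c →
  (∀ k : ℕ, 0 < M ((c : ℝ) / (a : ℝ) ^ (k + 1))) →
  ∃ κ : ℝ, 0 < κ ∧ ∃ m₀ : ℕ, ∀ m : ℕ, m₀ ≤ m →
    (∀ j : ℕ, 0 < M (g a c m j)) ∧ κ ≤ ∏ k ∈ range m, M (g a c m k)

/-- PAIR. -/
def S_PAIR : Prop := ∀ (M : ℝ → ℝ) (K : ℝ) (a c m : ℕ), Good M K → 2 ≤ a → 1 ≤ c → 2 ≤ m →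
  ∀ k : ℕ, ∑ i ∈ range m, ∑ j ∈ range m,
    |M (g a c m (i + k) - g a c m (j + k)) - M (g a c m (i + k)) * M (g a c m (j + k))|
      ≤ 32 * K * c

/-- NUM. -/
def S_NUM : Prop := ∀ (B : Finset ℕ) (N : ℕ), (∀ a ∈ B, 2 ≤ a) → 0 < N →
  ∃ C : ℝ, 0 < C ∧ ∀ m₀ : ℕ, ∃ m : ℕ, m₀ ≤ m ∧ ∃ q : ℕ, m ≤ q ∧ Nat.Coprime q N ∧
    Real.log q ≤ C * m ∧ ∀ a ∈ B, (a ^ m - 1) ∣ (a - 1) * q

end Pool.Agent.Y196.JX
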